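import Pool.Agent.Lib.MP_8bcb2e_ag.B.SpecC

/-!
# Weak approximation (Artin-Whaples)
-/

set_option autoImplicit false

universe u

namespace Pool.Agent.Lib.MP_8bcb2e_ag.B

/-- A valuation with values in the integers (the value of `0` plays no role). -/
private structure Approx_V {K : Type u} [Field K] (v : K → ℤ) : Prop where
  mul : ∀ a b, a ≠ 0 → b ≠ 0 → v (a * b) = v a + v b
  add : ∀ a b, a ≠ 0 → b ≠ 0 → a + b ≠ 0 → min (v a) (v b) ≤ v (a + b)

namespace Approx_V

variable {K : Type u} [Field K] {v : K → ℤ} (h : Approx_V v)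

include h

private theorem one : v 1 = 0 := by
  have := h.mul 1 1 one_ne_zero one_ne_zero
  rw [mul_one] at this
  omega

private theorem neg_one : v (-1) = 0 := by
  have h0 : (-1 : K) ≠ 0 := neg_ne_zero.2 one_ne_zero
  have := h.mul (-1) (-1) h0 h0
  rw [neg_one_mul, neg_neg, h.one] at this
  omega

private theorem neg (a : K) (ha : a ≠ 0) : v (-a) = v a := by
  have := h.mul (-1) a (neg_ne_zero.2 one_ne_zero) ha
  rw [neg_one_mul, h.neg_one, zero_add] at this
  exact this

private theorem inv (a : K) (ha : a ≠ 0) : v a⁻¹ = - v a := by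
  have := h.mul a a⁻¹ ha (inv_ne_zero ha)
  rw [mul_inv_cancel₀ ha, h.one] at this
  omega

private theorem pow (a : K) (ha : a ≠ 0) (n : ℕ) : v (a ^ n) = n * v a := by
  induction n with
  | zero => rw [pow_zero, h.one]; simp
  | succ n ih =>
    rw [pow_succ, h.mul _ _ (pow_ne_zero n ha) ha, ih]
    push_cast
    ring

/-- The smaller order dominates. -/
private theorem add_eq (a b : K) (ha : a ≠ 0) (hb : b ≠ 0) (hab : v a < v b) :
    a + b ≠ 0 ∧ v (a + b) = v a := by
  have h0 : a + b ≠ 0 := by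
    intro h0
    have h1 : a = -b := eq_neg_of_add_eq_zero_left h0
    rw [h1, h.neg b hb] at hab
    exact lt_irrefl _ hab
  refine ⟨h0, ?_⟩
  have h1 := h.add a b ha hb h0
  have h2 := h.add (a + b) (-b) h0 (neg_ne_zero.2 hb) (by rwa [add_neg_cancel_right])
  rw [add_neg_cancel_right, h.neg b hb] at h2
  rcases le_total (v (a + b)) (v b) with h3 | h3
  · rw [min_eq_left h3] at h2
    rw [min_eq_left hab.le] at h1
    exact le_antisymm h2 h1
  · rw [min_eq_right h3] at h2
    exact absurd hab (not_lt.2 h2)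

/-- The order of `1 + z ^ N` if the order of `z` is negative. -/
private theorem one_add_neg (z : K) (hz : z ≠ 0) (hv : v z < 0) (N : ℕ) (hN : 1 ≤ N) :
    1 + z ^ N ≠ 0 ∧ v (1 + z ^ N) = N * v z := by
  have h1 : v (z ^ N) < v 1 := by
    rw [h.pow z hz, h.one]
    have : (1 : ℤ) ≤ N := by exact_mod_cast hN
    nlinarith
  have h2 := h.add_eq (z ^ N) 1 (pow_ne_zero N hz) one_ne_zero h1
  rw [add_comm (z ^ N) 1, h.pow z hz] at h2
  exact h2

/-- The order of `1 + z ^ N` if the order of `z` is positive. -/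
private theorem one_add_pos (z : K) (hz : z ≠ 0) (hv : 0 < v z) (N : ℕ) (hN : 1 ≤ N) :
    1 + z ^ N ≠ 0 ∧ v (1 + z ^ N) = 0 := by
  have h1 : v 1 < v (z ^ N) := by
    rw [h.pow z hz, h.one]
    have : (1 : ℤ) ≤ N := by exact_mod_cast hN
    nlinarith
  have h2 := h.add_eq 1 (z ^ N) one_ne_zero (pow_ne_zero N hz) h1
  rw [h.one] at h2
  exact h2

private theorem div (a b : K) (ha : a ≠ 0) (hb : b ≠ 0) : v (a / b) = v a - v b := by
  rw [div_eq_mul_inv, h.mul _ _ ha (inv_ne_zero hb), h.inv b hb]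
  ring

end Approx_V

/-- A bound for finitely many integers. -/
private theorem Approx_bound {α : Type u} (S : Finset α) (f : α → ℤ) : ∃ N : ℕ, 1 ≤ N ∧ ∀ j ∈ S, f j < N := by
  refine ⟨1 + ∑ j ∈ S, (f j).natAbs, Nat.le_add_right _ _, fun j hj => ?_⟩
  have h1 : (f j).natAbs ≤ ∑ j ∈ S, (f j).natAbs :=
    Finset.single_le_sum (f := fun j => (f j).natAbs) (fun _ _ => Nat.zero_le _) hj
  have h2 : f j ≤ (f j).natAbs := Int.le_natAbs
  have h3 : ((f j).natAbs : ℤ) ≤ ((∑ j ∈ S, (f j).natAbs : ℕ) : ℤ) := Int.ofNat_le.2 h1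
  rw [Nat.cast_add, Nat.cast_one]
  exact lt_of_le_of_lt (h2.trans h3) (by omega)

section

variable {K ι : Type u} [Field K] {ord : ι → K → ℤ} (hv : ∀ i, Approx_V (ord i))
  (hsep : ∀ i j, i ≠ j → ∃ a, a ≠ 0 ∧ 0 ≤ ord i a ∧ ord j a < 0)

include hv hsep

/-- Step (1). -/
private theorem Approx_one (i j : ι) (hij : i ≠ j) : ∃ a, a ≠ 0 ∧ ord i a < 0 ∧ 0 < ord j a := by
  obtain ⟨a, ha, h1, h2⟩ := hsep i j hij
  obtain ⟨b, hb, h3, h4⟩ := hsep j i hij.symm
  refine ⟨b / a, div_ne_zero hb ha, ?_, ?_⟩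
  · rw [(hv i).div b a hb ha]
    omega
  · rw [(hv j).div b a hb ha]
    omega

/-- Step (2). -/
private theorem Approx_two (i : ι) (S : Finset ι) (hS : S.Nonempty) (hi : i ∉ S) :
    ∃ z, z ≠ 0 ∧ ord i z < 0 ∧ ∀ j ∈ S, 0 < ord j z := by
  classical
  induction hS using Finset.Nonempty.cons_induction with
  | singleton j =>
    have hij : i ≠ j := fun h => hi (Finset.mem_singleton.2 h)
    obtain ⟨a, ha, h1, h2⟩ := Approx_one hv hsep i j hij
    exact ⟨a, ha, h1, fun k hk => by rw [Finset.mem_singleton.1 hk]; exact h2⟩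
  | cons l S' hl hS' ih =>
    have hil : i ≠ l := fun h => hi (Finset.mem_cons.2 (Or.inl h))
    obtain ⟨z, hz, hz1, hz2⟩ := ih fun h => hi (Finset.mem_cons.2 (Or.inr h))
    obtain ⟨b, hb, hb1, hb2⟩ := Approx_one hv hsep i l hil
    obtain ⟨N, hN, hN2⟩ := Approx_bound S' fun j => - ord j b
    have hN1 : (1 : ℤ) ≤ N := by exact_mod_cast hN
    have hN3 : ∀ j ∈ S', 0 < N * ord j z + ord j b := by
      intro j hj
      have h1 := hN2 j hj
      have h2 := hz2 j hj
      have h3 : (N : ℤ) * 1 ≤ N * ord j z := mul_le_mul_of_nonneg_left (by omega) (by omega)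
      omega
    rcases le_or_gt 0 (ord l z) with h0 | h0
    · refine ⟨z ^ N * b, mul_ne_zero (pow_ne_zero N hz) hb, ?_, ?_⟩
      · rw [(hv i).mul _ _ (pow_ne_zero N hz) hb, (hv i).pow z hz]
        nlinarith
      · intro j hj
        rw [(hv j).mul _ _ (pow_ne_zero N hz) hb, (hv j).pow z hz]
        rcases Finset.mem_cons.1 hj with h | h
        · rw [h]
          have : 0 ≤ (N : ℤ) * ord l z := mul_nonneg (by omega) h0
          omega
        · exact hN3 j h
    · have h1 := (hv i).one_add_neg z hz hz1 N hN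
      have h2 := (hv l).one_add_neg z hz h0 N hN
      have hw : z ^ N / (1 + z ^ N) ≠ 0 := div_ne_zero (pow_ne_zero N hz) h1.1
      refine ⟨z ^ N / (1 + z ^ N) * b, mul_ne_zero hw hb, ?_, ?_⟩
      · rw [(hv i).mul _ _ hw hb, (hv i).div _ _ (pow_ne_zero N hz) h1.1, (hv i).pow z hz, h1.2]
        omega
      · intro j hj
        rw [(hv j).mul _ _ hw hb, (hv j).div _ _ (pow_ne_zero N hz) h1.1, (hv j).pow z hz]
        rcases Finset.mem_cons.1 hj with h | h
        · rw [h, h2.2]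
          omega
        · rw [((hv j).one_add_pos z hz (hz2 j h) N hN).2]
          have := hN3 j h
          omega

/-- Step (3). -/
private theorem Approx_three (i : ι) (S : Finset ι) (hi : i ∉ S) (N : ℕ) (hN : 1 ≤ N) :
    ∃ e : K, OGe ord i N (e - 1) ∧ ∀ j ∈ S, OGe ord j N e := by
  rcases S.eq_empty_or_nonempty with rfl | hS
  · exact ⟨1, Or.inl (sub_self 1), fun j hj => absurd hj (Finset.notMem_empty j)⟩
  obtain ⟨z, hz, hz1, hz2⟩ := Approx_two hv hsep i S hS hi
  have hN1 : (1 : ℤ) ≤ N := by exact_mod_cast hN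
  have h1 := (hv i).one_add_neg z hz hz1 N hN
  refine ⟨z ^ N / (1 + z ^ N), Or.inr ?_, fun j hj => Or.inr ?_⟩
  · have h2 : z ^ N / (1 + z ^ N) - 1 = -(1 + z ^ N)⁻¹ := by
      rw [div_sub_one h1.1, div_eq_mul_inv]
      ring
    rw [h2, (hv i).neg _ (inv_ne_zero h1.1), (hv i).inv _ h1.1, h1.2]
    have h3 : (N : ℤ) * 1 ≤ N * (- ord i z) := mul_le_mul_of_nonneg_left (by omega) (by omega)
    have h4 : (N : ℤ) * (- ord i z) = -(N * ord i z) := by ring
    omega
  · rw [(hv j).div _ _ (pow_ne_zero N hz) h1.1, (hv j).pow z hz, ((hv j).one_add_pos z hz (hz2 j hj) N hN).2]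
    have h3 : (N : ℤ) * 1 ≤ N * ord j z := mul_le_mul_of_nonneg_left (by have := hz2 j hj; omega) (by omega)
    omega

end

section

variable {K ι : Type u} [Field K] {ord : ι → K → ℤ} (hv : ∀ i, Approx_V (ord i))

include hv

private theorem Approx_ge_add (i : ι) (N : ℤ) (a b : K) (ha : OGe ord i N a) (hb : OGe ord i N b) :
    OGe ord i N (a + b) := by
  rcases ha with rfl | ha
  · rwa [zero_add]
  rcases hb with rfl | hb
  · rw [add_zero]
    exact Or.inr ha
  by_cases ha0 : a = 0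
  · rw [ha0, zero_add]
    exact Or.inr hb
  by_cases hb0 : b = 0
  · rw [hb0, add_zero]
    exact Or.inr ha
  by_cases hab : a + b = 0
  · exact Or.inl hab
  exact Or.inr ((le_min ha hb).trans ((hv i).add a b ha0 hb0 hab))

private theorem Approx_ge_mul (i : ι) (N : ℤ) (M : ℕ) (e a : K) (he : OGe ord i M e) (ha : N - ord i a < M) :
    OGe ord i N (e * a) := by
  rcases he with rfl | he
  · exact Or.inl (zero_mul a)
  by_cases he0 : e = 0
  · exact Or.inl (by rw [he0, zero_mul])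
  by_cases ha0 : a = 0
  · exact Or.inl (by rw [ha0, mul_zero])
  refine Or.inr ?_
  rw [(hv i).mul e a he0 ha0]
  omega

private theorem Approx_ge_sum (i : ι) (N : ℤ) {α : Type u} (S : Finset α) (f : α → K)
    (hf : ∀ j ∈ S, OGe ord i N (f j)) : OGe ord i N (∑ j ∈ S, f j) := by
  classical
  induction S using Finset.induction_on with
  | empty => exact Or.inl Finset.sum_empty
  | insert j S hj ih =>
    rw [Finset.sum_insert hj]
    exact Approx_ge_add hv i N _ _ (hf j (Finset.mem_insert_self j S))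
      (ih fun k hk => hf k (Finset.mem_insert_of_mem hk))

end

/-- **Weak approximation.** -/
theorem t_Approx : S_Approx.{u} := by
  intro K ι _ ord _ hmul hadd hsep S a N
  classical
  have hv : ∀ i, Approx_V (ord i) := fun i => ⟨hmul i, hadd i⟩
  obtain ⟨M, hM, hM2⟩ := Approx_bound (S ×ˢ S) fun q => N - ord q.1 (a q.2)
  have hM3 : ∀ i ∈ S, ∀ j ∈ S, N - ord i (a j) < M := fun i hi j hj =>
    hM2 (i, j) (Finset.mem_product.2 ⟨hi, hj⟩)
  choose e he1 he2 using fun i : ι => Approx_three hv hsep i (S.erase i) (Finset.notMem_erase i S) M hM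
  refine ⟨∑ j ∈ S, e j * a j, fun i hi => ?_⟩
  have h1 : ∑ j ∈ S, e j * a j - a i = (e i - 1) * a i + ∑ j ∈ S.erase i, e j * a j := by
    rw [← Finset.add_sum_erase S (fun j => e j * a j) hi]
    ring
  rw [h1]
  refine Approx_ge_add hv i N _ _ ?_ ?_
  · exact Approx_ge_mul hv i N M _ _ (he1 i) (hM3 i hi i hi)
  · refine Approx_ge_sum hv i N _ _ fun j hj => ?_
    have hjS := Finset.mem_of_mem_erase hj
    have hji := Finset.ne_of_mem_erase hj
    exact Approx_ge_mul hv i N M _ _ (he2 j i (Finset.mem_erase.2 ⟨hji.symm, hi⟩)) (hM3 i hi j hjS)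

end Pool.Agent.Lib.MP_8bcb2e_ag.B
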