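import Pool.Agent.Lib.MP_8bcb2e_ag.B.SpecC
import Pool.Agent.Lib.MP_8bcb2e_ag.TraceSections

set_option autoImplicit false

universe u

namespace Pool.Agent.Lib.MP_8bcb2e_ag.B

open KaehlerDifferential

theorem t_Asp : S_Asp.{u} := by
  intro hMS hPB hTM hTop k K _ _ _ _ p _ _ _ n Ψ 𝒪 h𝒪 T hT r ν t s hs hts
  refine ⟨?_, ?_, ?_⟩
  · intro m b b' hbb
    rw [Asp, Submodule.span_le]
    intro F hF
    refine Submodule.subset_span ?_
    obtain ⟨c, rfl⟩ := Nat.exists_eq_add_of_le hbb
    have h1 := sections_mul h𝒪 hF (sections_pow h𝒪 hs c)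
    have h2 : s ^ b * F * s ^ c = s ^ (b + c) * F := by rw [pow_add]; ring
    have h3 : m + r * b + c * r = m + r * (b + c) := by ring
    rwa [h2, h3] at h1
  · intro m m' b b' x y hx hy
    refine Submodule.span_induction ?_ ?_ ?_ ?_ hx
    · intro F hF
      refine Submodule.span_induction ?_ ?_ ?_ ?_ hy
      · intro F' hF'
        refine Submodule.subset_span ?_
        have h1 := sections_mul h𝒪 hF hF'
        have h2 : s ^ b * F * (s ^ b' * F') = s ^ (b + b') * (F * F') := by rw [pow_add]; ring
        have h3 : m + r * b + (m' + r * b') = m + m' + r * (b + b') := by ring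
        rwa [h2, h3] at h1
      · rw [mul_zero]; exact Submodule.zero_mem _
      · intro u v _ _ hu hv
        rw [mul_add]; exact Submodule.add_mem _ hu hv
      · intro c u _ hu
        rw [mul_smul_comm]; exact Submodule.smul_mem _ _ hu
    · rw [zero_mul]; exact Submodule.zero_mem _
    · intro u v _ _ hu hv
      rw [add_mul]; exact Submodule.add_mem _ hu hv
    · intro c u _ hu
      rw [smul_mul_assoc]; exact Submodule.smul_mem _ _ hu
  · intro e σ a b x hx hab
    set q := p ^ e with hq
    have hq1 : 1 ≤ q := Nat.one_le_pow _ _ (Fact.out : p.Prime).pos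
    have hgen : ∀ ε ∈ IntermediateField.adjoin k (Set.range t),
        T^[e] (ε * x) ∈ Asp k Ψ 𝒪 t s r (1 + σ) b := by
      refine Submodule.span_induction (p := fun x _ => ∀ ε ∈ IntermediateField.adjoin k (Set.range t),
        T^[e] (ε * x) ∈ Asp k Ψ 𝒪 t s r (1 + σ) b) ?_ ?_ ?_ ?_ hx
      · intro F hF
        refine hMS k K p ν t T hT.map_add hT.map_pow_mul e _ F ?_
        intro α hα
        refine Submodule.subset_span ?_
        have hα' : ∑ i, α i ≤ ν * (q - 1) := by
          have h1 : ∑ i, α i ≤ ∑ _i : Fin ν, (q - 1) :=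
            Finset.sum_le_sum fun i _ => Nat.le_sub_one_of_lt (hα i)
          rwa [Finset.sum_const, Finset.card_univ, Fintype.card_fin, smul_eq_mul] at h1
        obtain ⟨c, hc⟩ := Nat.exists_eq_add_of_le (show a + ∑ i, α i ≤ q * b by omega)
        have hprod : ∀ S : Finset (Fin ν), ∏ i ∈ S, (t i * s) ^ α i ∈
            sections k Ψ 𝒪 ((∑ i ∈ S, α i) * r) := by
          classical
          intro S
          induction S using Finset.induction_on with
          | empty =>
            rw [Finset.prod_empty, Finset.sum_empty, zero_mul]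
            intro O hO
            obtain ⟨y, hy⟩ := h𝒪.coord O hO
            exact (regularAt_iff Ψ hy _ _).2 ⟨1, one_mem _, by ring⟩
          | insert i S hi ih =>
            rw [Finset.prod_insert hi, Finset.sum_insert hi, add_mul]
            exact sections_mul h𝒪 (sections_pow h𝒪 (hts i) (α i)) ih
        have h1 := sections_mul h𝒪 (sections_mul h𝒪 (sections_pow h𝒪 hs c) (hprod Finset.univ)) hF
        have h2 : s ^ c * (∏ i, (t i * s) ^ α i) * (s ^ a * F) =
            (s ^ b) ^ q * ((∏ i, t i ^ α i) * F) := by
          have h3 : (∏ i, (t i * s) ^ α i) = (∏ i, t i ^ α i) * s ^ (∑ i, α i) := by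
            rw [← Finset.prod_pow_eq_pow_sum, ← Finset.prod_mul_distrib]
            exact Finset.prod_congr rfl fun i _ => mul_pow _ _ _
          rw [h3, ← pow_mul, mul_comm b q, hc, pow_add, pow_add]
          ring
        have h4 : c * r + (∑ i, α i) * r + (1 + q * σ + r * a) = 1 + q * (σ + r * b) := by
          have h5 : q * (σ + r * b) = q * σ + r * (q * b) := by ring
          rw [h5, hc]
          ring
        rw [h2, h4] at h1
        have h6 := trace_iter_sections hPB hTM hTop hT h𝒪 e h1
        rw [hq, hT.iter_mul] at h6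
        have h7 : 1 + (σ + r * b) = 1 + σ + r * b := by ring
        rw [h7] at h6
        exact h6
      · intro ε _
        rw [mul_zero, hT.iter_zero]; exact Submodule.zero_mem _
      · intro u v _ _ hu hv ε hε
        rw [mul_add, hT.iter_add]; exact Submodule.add_mem _ (hu ε hε) (hv ε hε)
      · intro c u _ hu ε hε
        have h1 : ε * c • u = (ε * (c : K)) * u := by
          rw [IntermediateField.smul_def, smul_eq_mul, mul_assoc]
        rw [h1]
        exact hu _ (mul_mem hε c.2)
    have := hgen 1 (one_mem _)
    rwa [one_mul] at this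

end Pool.Agent.Lib.MP_8bcb2e_ag.B
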