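import Pool.Agent.Lib.MP_8bcb2e_ag.B.SpecC
import Pool.Agent.Lib.MP_8bcb2e_ag.Main

set_option autoImplicit false

universe u

namespace Pool.Agent.Lib.MP_8bcb2e_ag.B

open KaehlerDifferential Algebra

theorem t_Choose : S_Choose.{u} := by
  intro k K _ _ _ ν V hν hV
  obtain ⟨s, hsV, hs0⟩ : ∃ s ∈ V, s ≠ 0 := by
    by_contra! hcon
    have hbot : ratioField k V = ⊥ := by
      rw [ratioField, eq_bot_iff, IntermediateField.adjoin_le_iff]
      rintro _ ⟨a, ha, b, hb, rfl⟩
      rw [hcon a ha, zero_div]
      exact zero_mem _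
    have h1 : Algebra.IsAlgebraic k (ratioField k V) := by
      rw [hbot]
      have : Algebra.IsIntegral k (⊥ : IntermediateField k K) := by
        refine ⟨fun z => ?_⟩
        obtain ⟨c, hc⟩ := IntermediateField.mem_bot.1 z.2
        have : z = algebraMap k _ c := Subtype.ext hc.symm
        rw [this]
        exact isIntegral_algebraMap
      infer_instance
    have h2 : Algebra.trdeg k (ratioField k V) = 0 := trdeg_eq_zero
    rw [h2] at hV
    have h3 : (ν : Cardinal.{u}) = 0 := le_antisymm hV zero_le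
    have h4 : ν = 0 := by exact_mod_cast h3
    omega
  have hF := ratioField_le (k := k) hs0 hsV
  set F := ratioField k V with hFdef
  let S : Set F := {c | ∃ a ∈ V, (c : K) = a / s}
  have hS : IntermediateField.adjoin k S = ⊤ := by
    apply IntermediateField.lift_injective F
    rw [IntermediateField.lift_adjoin, IntermediateField.lift_top]
    have h1 : (Subtype.val '' S : Set K) = {c | ∃ a ∈ V, c = a / s} := by
      ext c
      constructor
      · rintro ⟨c, hc, rfl⟩
        exact hc
      · rintro ⟨a, ha, rfl⟩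
        have h2 : a / s ∈ F := IntermediateField.subset_adjoin k _ ⟨a, ha, s, hsV, rfl⟩
        exact ⟨⟨a / s, h2⟩, ⟨a, ha, rfl⟩, rfl⟩
    rw [h1, ← hF]
  have hal : Algebra.IsAlgebraic (Algebra.adjoin k S) F := by
    rw [← IntermediateField.isAlgebraic_adjoin_iff_top, hS]
    refine ⟨fun z => ?_⟩
    exact isAlgebraic_algebraMap (⟨z, IntermediateField.mem_top⟩ : (⊤ : IntermediateField k F))
  obtain ⟨B, hBS, hB⟩ := exists_isTranscendenceBasis_subset (R := k) S
  have hcard : (ν : Cardinal.{u}) ≤ Cardinal.mk B := by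
    rw [hB.cardinalMk_eq_trdeg]
    exact hV
  have hemb : Nonempty (Fin ν ↪ B) := by
    rw [← Cardinal.lift_mk_le']
    simpa using hcard
  obtain ⟨e⟩ := hemb
  refine ⟨s, fun i => ((e i : F) : K), hs0, hsV, fun i => ?_, ?_⟩
  · obtain ⟨a, ha, h⟩ := hBS (e i).2
    change ((e i : F) : K) * s ∈ V
    rw [h, div_mul_cancel₀ _ hs0]
    exact ha
  · have h1 : AlgebraicIndependent k fun i => ((e i : B) : F) := hB.1.comp e e.injective
    exact h1.map' (f := F.val) F.val.injective

end Pool.Agent.Lib.MP_8bcb2e_ag.B
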