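import Pool.Agent.Lib.MP_8bcb2e_ag.B.SpecC

/-!
# One coordinate system works at almost all places
-/

set_option autoImplicit false

universe u

namespace Pool.Agent.Lib.MP_8bcb2e_ag.B

open KaehlerDifferential

/-- an equation over the polynomial ring -/
private theorem CoordFin_poly {k K : Type u} [Field k] [Field K] [Algebra k K] {n : ℕ}
    (t' : Fin n → K) (hi : AlgebraicIndependent k t')
    (halg : Algebra.IsAlgebraic (IntermediateField.adjoin k (Set.range t')) K) (y : K) :
    ∃ P : Polynomial (MvPolynomial (Fin n) k), P ≠ 0 ∧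
      Polynomial.eval₂ (MvPolynomial.aeval t' : MvPolynomial (Fin n) k →ₐ[k] K).toRingHom y P = 0 := by
  have h1 : Algebra.IsAlgebraic (Algebra.adjoin k (Set.range t')) K := by
    first
      | rwa [IntermediateField.isAlgebraic_adjoin_iff_top]
      | rwa [← IntermediateField.isAlgebraic_adjoin_iff_top]
  obtain ⟨P', hP', h2⟩ := h1.isAlgebraic y
  refine ⟨P'.map (hi.aevalEquiv.symm : _ ≃ₐ[k] _).toRingEquiv.toRingHom, ?_, ?_⟩
  · intro h0
    apply hP'
    apply Polynomial.map_injective (hi.aevalEquiv.symm : _ ≃ₐ[k] _).toRingEquiv.toRingHom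
      (hi.aevalEquiv.symm).toRingEquiv.injective
    rw [Polynomial.map_zero]
    exact h0
  · rw [Polynomial.eval₂_map]
    have h3 : (MvPolynomial.aeval t' : MvPolynomial (Fin n) k →ₐ[k] K).toRingHom.comp
        (hi.aevalEquiv.symm : _ ≃ₐ[k] _).toRingEquiv.toRingHom =
        algebraMap (Algebra.adjoin k (Set.range t')) K := by
      ext a
      change MvPolynomial.aeval t' (hi.aevalEquiv.symm a) = (a : K)
      have := hi.aevalEquiv.apply_symm_apply a
      have h4 := congrArg Subtype.val this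
      rwa [AlgebraicIndependent.aevalEquiv_apply_coe] at h4
    rw [h3]
    exact h2

theorem t_CoordFin : S_CoordFin.{u} := by
  intro hSep hDer hHt k K _ _ _ _ _ ν x₀ hx₀ t ht G hG
  obtain ⟨t', ht'⟩ := hSep k K (ν + 1) x₀ hx₀
  refine ⟨t', ht'.diff, ?_⟩
  have hsep := ht'.sep
  have halg : Algebra.IsAlgebraic (IntermediateField.adjoin k (Set.range t')) K := inferInstance
  obtain ⟨h, hh0, hh⟩ := hDer k K (ν + 1) t' ht'
  choose P hP0 hP using fun i => CoordFin_poly t' ht'.algInd halg (t i)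
  obtain ⟨bs, hbs⟩ := ht'.diff
  -- the exceptional set
  have hfin : ((⋃ i, {V | G.ord V (t' i) ≠ 0}) ∪
      (⋃ i, {V | G.ord V (MvPolynomial.aeval t' (P i).leadingCoeff) ≠ 0}) ∪
      {V | G.ord V h ≠ 0}).Finite :=
    ((Set.finite_iUnion fun i => G.fin _).union (Set.finite_iUnion fun i => G.fin _)).union (G.fin h)
  refine hfin.subset ?_
  intro V hV
  by_contra hcon
  apply hV
  simp only [Set.mem_union, Set.mem_iUnion, Set.mem_ofPred_eq, not_or, not_exists, not_not] at hcon
  obtain ⟨⟨hc1, hc2⟩, hc3⟩ := hcon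
  have hmem : ∀ a : K, G.ord V a = 0 → a ∈ V.1 ∧ a⁻¹ ∈ V.1 := by
    intro a ha
    exact ⟨(hG V a).2 (Or.inr ha.ge), (hG V a⁻¹).2 (Or.inr (by rw [G.ord_inv, ha]; simp))⟩
  have hk : ∀ c : k, algebraMap k K c ∈ V.1 := fun c =>
    V.2.1 _ ((IntermediateField.adjoin k (Set.range t)).algebraMap_mem c)
  have hti : ∀ i, t i ∈ V.1 := fun i =>
    V.2.1 _ (IntermediateField.subset_adjoin k _ ⟨i, rfl⟩)
  have hone : HeightOne k t' V.1 := by
    refine hHt k K ν t' ht'.algInd halg V.1 hk (fun i => (hmem _ (hc1 i)).1) V.2.2 t hti ht ?_ ?_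
    · intro q _
      apply V.2.1
      apply (IntermediateField.adjoin k (Set.range t)).inv_mem
      have : MvPolynomial.aeval t q ∈ Algebra.adjoin k (Set.range t) := by
        rw [Algebra.adjoin_range_eq_range_aeval]
        exact ⟨q, rfl⟩
      exact IntermediateField.algebra_adjoin_le_adjoin k _ this
    · intro i
      exact ⟨P i, hP0 i, hP i, (hmem _ (hc2 i)).2⟩
  refine ⟨fun i => (hmem _ (hc1 i)).1, ht'.diff, ?_⟩
  intro a ha
  have hrep : D k K a = ∑ i, bs.repr (D k K a) i • D k K (t' i) := by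
    conv_lhs => rw [← bs.sum_repr (D k K a)]
    simp only [hbs]
  refine ⟨fun i => bs.repr (D k K a) i, fun i => ?_, hrep⟩
  have h1 := hh V.1 hone a ha _ hrep i
  have h2 := V.1.mul_mem _ _ (hmem _ hc3).2 h1
  rwa [inv_mul_cancel_left₀ hh0] at h2

end Pool.Agent.Lib.MP_8bcb2e_ag.B
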