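import Pool.Agent.Lib.MP_8bcb2e_ag.B.SpecC
import Pool.Agent.Lib.MP_8bcb2e_ag.Basic

/-!
# The curve of places with the trace
-/

set_option autoImplicit false

universe u

namespace Pool.Agent.Lib.MP_8bcb2e_ag.B

open KaehlerDifferential

/-- regularity of a pluricanonical form at a place in terms of the order of the form `Ψ (D x)` -/
theorem Curve_reg {k K : Type u} [Field k] [Field K] [Algebra k K] {E : IntermediateField k K}
    {n : ℕ} (Ψ : Ω[K⁄k] [⋀^Fin n]→ₗ[K] K) (hΨ : Ψ ≠ 0) (G : Places E K (Pl E))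
    (hG : ∀ V a, a ∈ V.1 ↔ G.Ge V 0 a) (V : Pl E) (x : Fin n → K)
    (hx : IsCoord k V.1.toSubring x) (m : ℕ) (F : K) :
    RegularAt k Ψ m V.1.toSubring F ↔ G.Ge V (m * G.ord V (Ψ fun i => D k K (x i))) F := by
  have hJ : (Ψ fun i => D k K (x i)) ≠ 0 := psi_ne_zero Ψ hx.basis hΨ
  rw [regularAt_iff Ψ hx m F]
  set J := Ψ fun i => D k K (x i) with hJdef
  have hJm : J ^ m ≠ 0 := pow_ne_zero m hJ
  have hord : G.ord V (J ^ m) = m * G.ord V J := G.ord_pow V J m
  constructor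
  · rintro ⟨g, hg, rfl⟩
    have hg' : G.Ge V 0 g := (hG V g).1 hg
    have h := (G.ge_mul_left_iff (i := V) (m := 0) (b := g) hJm).2 hg'
    rw [add_zero, hord] at h
    rwa [mul_comm g]
  · intro h
    refine ⟨F / J ^ m, ?_, by rw [div_mul_cancel₀ _ hJm]⟩
    apply (hG V _).2
    rw [← G.ge_mul_left_iff (i := V) (m := 0) (b := F / J ^ m) hJm, add_zero, hord,
      mul_div_cancel₀ _ hJm]
    exact h

theorem t_Curve : S_Curve.{u} := by
  intro hCoordAt hCoordFin hTraceLoc hPB hTM hTop hSep hDB hHO hDep hDiff hMono hRes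
    k K _ _ _ _ p _ _ _ ν x₀ hx₀ Ψ hΨ T hT t ht hfd G hG
  have hC := hCoordAt hPB hDep hDiff hMono hRes k K p ν x₀ hx₀ t ht hfd G hG
  choose X hX using hC
  obtain ⟨t', ht', hfin⟩ := hCoordFin hSep hDB hHO k K ν x₀ hx₀ t ht G hG
  have hnorm : ∀ (V : Pl (IntermediateField.adjoin k (Set.range t))) (a : K),
      IsIntegral V.1.toSubring a → a ∈ V.1.toSubring := by
    intro V a ha
    have h1 : IsIntegral V.1 a := ha
    obtain ⟨y, hy⟩ := IsIntegrallyClosed.isIntegral_iff.mp h1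
    rw [← hy]
    exact y.2
  have hTL := fun V : Pl (IntermediateField.adjoin k (Set.range t)) =>
    hTraceLoc hPB hTM hTop k K p (ν + 1) Ψ T hT V.1.toSubring (X V) (hX V) (hnorm V)
  have hreg := fun V => Curve_reg Ψ hΨ G hG V (X V) (hX V)
  have h1 : ∀ V F, RegularAt k Ψ 1 V.1.toSubring F ↔
      G.Ge V (G.ord V (Ψ fun i => D k K (X V i))) F := by
    intro V F
    have := hreg V 1 F
    rwa [Nat.cast_one, one_mul] at this
  refine ⟨{ G with
    c := fun V => G.ord V (Ψ fun i => D k K (X V i))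
    fin_c := ?_
    T := T
    T_add := hT.map_add
    T_mul := hT.map_pow_mul
    T_reg := ?_
    T_surj := ?_ }, rfl, rfl, fun V m F => hreg V m F⟩
  · refine (hfin.union (G.fin (Ψ fun i => D k K (t' i)))).subset ?_
    intro V hV
    by_contra hcon
    rw [Set.mem_union, not_or] at hcon
    obtain ⟨ha, hb⟩ := hcon
    have ha' : IsCoord k V.1.toSubring t' := by
      by_contra h
      exact ha h
    have hb' : G.ord V (Ψ fun i => D k K (t' i)) = 0 := by
      by_contra h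
      exact hb h
    have h2 : ∀ F, RegularAt k Ψ 1 V.1.toSubring F ↔ G.Ge V 0 F := by
      intro F
      have := Curve_reg Ψ hΨ G hG V t' ha' 1 F
      rwa [hb', mul_zero] at this
    apply hV
    change G.ord V (Ψ fun i => D k K (X V i)) = 0
    have hJ : (Ψ fun i => D k K (X V i)) ≠ 0 := psi_ne_zero Ψ (hX V).basis hΨ
    have h3 : G.Ge V 0 (Ψ fun i => D k K (X V i)) := (h2 _).1 ((h1 V _).2 (G.ge_ord _))
    have h4 : G.Ge V (G.ord V (Ψ fun i => D k K (X V i))) 1 := (h1 V 1).1 ((h2 1).2 (G.ge_one V))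
    rw [G.ge_iff hJ] at h3
    rw [G.ge_iff one_ne_zero, G.ord_one] at h4
    omega
  · intro V a ha
    have := (hTL V).1 0 a (by rw [mul_zero, add_zero]; exact (h1 V a).2 ha)
    rw [add_zero] at this
    exact (h1 V _).1 this
  · intro V b hb
    obtain ⟨a, ha, hab⟩ := (hTL V).2 b ((h1 V b).2 hb)
    exact ⟨a, (h1 V a).1 ha, hab⟩

end Pool.Agent.Lib.MP_8bcb2e_ag.B
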