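import Pool.Agent.Lib.MP_8bcb2e_ag.B.SpecC

/-!
# The quotient of a place by a nonzero element of its maximal ideal is small
-/

set_option autoImplicit false

universe u

namespace Pool.Agent.Lib.MP_8bcb2e_ag.B

open Polynomial

/-- a polynomial in an element of the place is in the place -/
theorem DepMod_aeval_mem {E K : Type u} [Field E] [Field K] [Algebra E K]
    (V : ValuationSubring K) (hV : ∀ a : E, algebraMap E K a ∈ V) {y : K} (hy : y ∈ V)
    (q : E[X]) : aeval y q ∈ V := by
  rw [aeval_eq_sum_range]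
  refine sum_mem fun i _ => ?_
  rw [Algebra.smul_def]
  exact mul_mem (hV _) (pow_mem hy _)

/-- a non-unit of the place is transcendental -/
theorem DepMod_transcendental {E K : Type u} [Field E] [Field K] [Algebra E K]
    (V : ValuationSubring K) (hV : ∀ a : E, algebraMap E K a ∈ V) {y : K} (hy : y⁻¹ ∉ V) :
    Transcendental E y := by
  intro halg
  apply hy
  have h1 : IsIntegral E y⁻¹ := halg.inv.isIntegral
  have h2 : IsIntegral V y⁻¹ := by
    obtain ⟨p, hp, hpx⟩ := h1
    let φ : E →+* V := (algebraMap E K).codRestrict V.toSubring hV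
    refine ⟨p.map φ, hp.map _, ?_⟩
    rw [Polynomial.eval₂_map]
    exact hpx
  obtain ⟨z, hz⟩ := IsIntegrallyClosed.isIntegral_iff.1 h2
  rw [← hz]
  exact z.2

/-- every element of `E(y)` is a quotient with nonzero denominator -/
theorem DepMod_frac {E K : Type u} [Field E] [Field K] [Algebra E K] {y z : K}
    (hz : z ∈ IntermediateField.adjoin E {y}) :
    ∃ r s : E[X], aeval y s ≠ 0 ∧ aeval y r = aeval y s * z := by
  obtain ⟨r, s, h⟩ := IntermediateField.mem_adjoin_simple_iff E z |>.1 hz
  rcases eq_or_ne (aeval y s) 0 with hs | hs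
  · refine ⟨0, 1, by simp, ?_⟩
    rw [h, hs]
    simp
  · exact ⟨r, s, hs, by rw [h, mul_div_cancel₀ _ hs]⟩

/-- a polynomial relation can be divided by a power of `y` -/
theorem DepMod_divide {E K : Type u} [Field E] [Field K] [Algebra E K] {y : K} (hy : y ≠ 0)
    {α : Type*} [Fintype α] (a : α → K) (n : ℕ) (P : α → E[X]) (j0 : α) (h0 : P j0 ≠ 0)
    (hn : (P j0).natDegree ≤ n) (hs : ∑ j, aeval y (P j) * a j = 0) :
    ∃ Q : α → E[X], (∃ j, (Q j).coeff 0 ≠ 0) ∧ ∑ j, aeval y (Q j) * a j = 0 := by
  induction n generalizing P with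
  | zero =>
    refine ⟨P, ⟨j0, ?_⟩, hs⟩
    intro hc
    apply h0
    rw [Polynomial.eq_C_of_natDegree_le_zero hn, hc, map_zero]
  | succ n ih =>
    by_cases hex : ∃ j, (P j).coeff 0 ≠ 0
    · exact ⟨P, hex, hs⟩
    · push Not at hex
      have h1 : ∀ j, P j = divX (P j) * X := by
        intro j
        have := divX_mul_X_add (P j)
        rw [hex j, map_zero, add_zero] at this
        exact this.symm
      refine ih (fun j => divX (P j)) ?_ ?_ ?_
      · intro hc
        apply h0
        rw [h1 j0, hc, zero_mul]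
      · simp only [natDegree_divX_eq_natDegree_tsub_one]
        omega
      · have h2 : (∑ j, aeval y (divX (P j)) * a j) * y = 0 := by
          rw [← hs, Finset.sum_mul]
          refine Finset.sum_congr rfl fun j _ => ?_
          conv_rhs => rw [h1 j]
          rw [map_mul, aeval_X]
          ring
        exact (mul_eq_zero.1 h2).resolve_right hy

theorem t_DepMod : S_DepMod.{u} := by
  intro E K _ _ _ hfg V hV y hyV hy0 hyi
  have htr := DepMod_transcendental V hV hyi
  have := hfg y htr
  refine ⟨Module.finrank (IntermediateField.adjoin E {y}) K, fun a ha => ?_⟩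
  classical
  have hdep : ¬ LinearIndependent (IntermediateField.adjoin E {y}) a := by
    intro h
    have := h.fintype_card_le_finrank
    rw [Fintype.card_fin] at this
    omega
  obtain ⟨g, hg, j0, hj0⟩ := Fintype.not_linearIndependent_iff.1 hdep
  choose r s hs hrs using fun j => DepMod_frac (g j).2
  have hP : ∀ j, aeval y (r j * ∏ l ∈ Finset.univ.erase j, s l) =
      (∏ l, aeval y (s l)) * (g j : K) := by
    intro j
    rw [map_mul, map_prod, hrs, ← Finset.mul_prod_erase Finset.univ _ (Finset.mem_univ j)]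
    ring
  have hD : (∏ l, aeval y (s l)) ≠ 0 := Finset.prod_ne_zero_iff.2 fun l _ => hs l
  obtain ⟨Q, ⟨j1, hj1⟩, hQ⟩ := DepMod_divide hy0 a _ (fun j => r j * ∏ l ∈ Finset.univ.erase j, s l) j0
    (by
      intro hc
      have h1 := hP j0
      rw [hc, map_zero] at h1
      rcases mul_eq_zero.1 h1.symm with h2 | h2
      · exact hD h2
      · exact hj0 (by exact_mod_cast h2)) le_rfl
    (by
      have h2 : ∑ j, aeval y (r j * ∏ l ∈ Finset.univ.erase j, s l) * a j =
          (∏ l, aeval y (s l)) * ∑ j, g j • a j := by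
        rw [Finset.mul_sum]
        refine Finset.sum_congr rfl fun j _ => ?_
        rw [hP j, IntermediateField.smul_def, smul_eq_mul]
        ring
      rw [h2, hg, mul_zero])
  refine ⟨fun j => (Q j).coeff 0, ⟨j1, hj1⟩, - ∑ j, aeval y (divX (Q j)) * a j,
    neg_mem (sum_mem fun j _ => mul_mem (DepMod_aeval_mem V hV hyV _) (ha j)), ?_⟩
  have h3 : ∀ j, aeval y (Q j) * a j =
      y * (aeval y (divX (Q j)) * a j) + algebraMap E K ((Q j).coeff 0) * a j := by
    intro j
    conv_lhs => rw [← divX_mul_X_add (Q j)]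
    rw [map_add, map_mul, aeval_X, aeval_C]
    ring
  rw [Finset.sum_congr rfl fun j _ => h3 j, Finset.sum_add_distrib, ← Finset.mul_sum] at hQ
  rw [mul_neg]
  exact eq_neg_of_add_eq_zero_right hQ

end Pool.Agent.Lib.MP_8bcb2e_ag.B
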