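import Pool.Agent.Lib.MP_8bcb2e_ag.B.SpecC
import Pool.Agent.Lib.MP_8bcb2e_ag.SepExists

set_option autoImplicit false

universe u

namespace Pool.Agent.Lib.MP_8bcb2e_ag.B

open KaehlerDifferential

theorem t_DiffBasis : S_DiffBasis.{u} := by
  intro k L _ _ _ _ _ ν t ht
  obtain ⟨s, hs1, hs2⟩ := exists_isTranscendenceBasis_and_isSeparable_of_perfectField k L
  have hr : Set.range ((↑) : s → L) = (s : Set L) := Subtype.range_coe
  have hs3 : Algebra.IsSeparable (IntermediateField.adjoin k (Set.range ((↑) : s → L))) L := by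
    rw [hr]
    exact hs2
  obtain ⟨b, hb⟩ := exists_basis_of_separating ((↑) : s → L) hs1.1 hs3
  have hcard := ht.lift_cardinalMk_eq hs1
  have hcard' : Cardinal.mk s = ν := by
    rw [Cardinal.lift_id', Cardinal.mk_fin] at hcard
    simpa using hcard.symm
  have hfin : Fintype s := by
    have : Cardinal.mk s < Cardinal.aleph0 := by rw [hcard']; exact Cardinal.natCast_lt_aleph0
    exact (Cardinal.lt_aleph0_iff_fintype.1 this).some
  have hc : Fintype.card s = ν := by
    have : (Fintype.card s : Cardinal) = ν := by rw [← Cardinal.mk_fintype, hcard']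
    exact_mod_cast this
  let e : s ≃ Fin ν := Fintype.equivFinOfCardEq hc
  refine ⟨fun i => (e.symm i : L), b.reindex e, fun i => ?_⟩
  rw [Module.Basis.reindex_apply, hb]

end Pool.Agent.Lib.MP_8bcb2e_ag.B
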