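import Pool.Agent.Lib.MP_8bcb2e_ag.B.SpecC

/-!
# Places are discrete valuation rings
-/

set_option autoImplicit false

universe u

namespace Pool.Agent.Lib.MP_8bcb2e_ag.B

theorem Dvr_const {E K : Type u} [Field E] [Field K] [Algebra E K] (V : ValuationSubring K)
    (hE : ∀ a : E, algebraMap E K a ∈ V) (l : E) (hl : l ≠ 0) :
    V.valuation (algebraMap E K l) = 1 := by
  apply le_antisymm ((V.valuation_le_one_iff _).2 (hE l))
  have h1 := (V.valuation_le_one_iff _).2 (hE l⁻¹)
  have h2 : V.valuation (algebraMap E K l) * V.valuation (algebraMap E K l⁻¹) = 1 := by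
    rw [← map_mul, ← map_mul, mul_inv_cancel₀ hl, map_one, map_one]
  calc (1 : V.ValueGroup) = V.valuation (algebraMap E K l) * V.valuation (algebraMap E K l⁻¹) := h2.symm
    _ ≤ V.valuation (algebraMap E K l) * 1 := by gcongr
    _ = V.valuation (algebraMap E K l) := mul_one _

theorem Dvr_inv {K : Type u} [Field K] (V : ValuationSubring K) (y : K) (hy0 : y ≠ 0)
    (hy1 : V.valuation y < 1) : y⁻¹ ∉ V := by
  intro h
  have h1 := (V.valuation_le_one_iff _).2 h
  have h2 : V.valuation y * V.valuation y⁻¹ = 1 := by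
    rw [← map_mul, mul_inv_cancel₀ hy0, map_one]
  have h3 : V.valuation y * V.valuation y⁻¹ < 1 := by
    calc V.valuation y * V.valuation y⁻¹ ≤ V.valuation y * 1 := by gcongr
      _ = V.valuation y := mul_one _
      _ < 1 := hy1
  exact h3.ne h2

/-- Chains of principal ideals above a nonzero one have bounded length. -/
theorem Dvr_chain (hDep : S_DepMod.{u}) {E K : Type u} [Field E] [Field K] [Algebra E K]
    (hfg : ∀ x : K, Transcendental E x → FiniteDimensional (IntermediateField.adjoin E {x}) K)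
    (V : ValuationSubring K) (hE : ∀ a : E, algebraMap E K a ∈ V) (y : K) (hy0 : y ≠ 0)
    (hy1 : V.valuation y < 1) :
    ∃ M : ℕ, ∀ z : Fin (M + 1) → K, (∀ j, z j ∈ V) → (∀ j, V.valuation y < V.valuation (z j)) →
      Function.Injective (fun j => V.valuation (z j)) → False := by
  classical
  obtain ⟨M, hM⟩ := hDep E K hfg V hE y ((V.valuation_le_one_iff _).1 hy1.le) hy0
    (Dvr_inv V y hy0 hy1)
  refine ⟨M, fun z hz hyz hinj => ?_⟩
  obtain ⟨l, ⟨i, hi⟩, b, hb, hsum⟩ := hM z hz
  let s : Finset (Fin (M + 1)) := Finset.univ.filter fun j => l j ≠ 0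
  obtain ⟨j0, hj0, hmax⟩ := s.exists_max_image (fun j => V.valuation (z j))
    ⟨i, Finset.mem_filter.2 ⟨Finset.mem_univ _, hi⟩⟩
  have hl0 : l j0 ≠ 0 := (Finset.mem_filter.1 hj0).2
  have hv0 : V.valuation (algebraMap E K (l j0) * z j0) = V.valuation (z j0) := by
    rw [map_mul, Dvr_const V hE _ hl0, one_mul]
  have hz0 : V.valuation (z j0) ≠ 0 := (lt_of_le_of_lt zero_le' (hyz j0)).ne'
  have hrest : V.valuation (∑ j ∈ Finset.univ.erase j0, algebraMap E K (l j) * z j) <
      V.valuation (algebraMap E K (l j0) * z j0) := by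
    rw [hv0]
    refine V.valuation.map_sum_lt hz0 fun j hj => ?_
    by_cases hlj : l j = 0
    · rw [hlj, map_zero, zero_mul, map_zero]
      exact lt_of_le_of_ne zero_le' hz0.symm
    · rw [map_mul, Dvr_const V hE _ hlj, one_mul]
      refine lt_of_le_of_ne (hmax j (Finset.mem_filter.2 ⟨Finset.mem_univ _, hlj⟩)) fun h => ?_
      exact (Finset.ne_of_mem_erase hj) (hinj h)
  have htot : V.valuation (∑ j, algebraMap E K (l j) * z j) = V.valuation (z j0) := by
    rw [← Finset.add_sum_erase _ _ (Finset.mem_univ j0), V.valuation.map_add_eq_of_lt_left hrest, hv0]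
  rw [hsum, map_mul] at htot
  have h1 : V.valuation y * V.valuation b ≤ V.valuation y := by
    calc V.valuation y * V.valuation b ≤ V.valuation y * 1 := by
          gcongr
          exact (V.valuation_le_one_iff _).2 hb
      _ = V.valuation y := mul_one _
  rw [htot] at h1
  exact absurd (hyz j0) (not_lt.2 h1)

theorem t_Dvr : S_Dvr.{u} := by
  classical
  intro hDep E K _ _ _ hfg V hE hV
  obtain ⟨y, hy0, hy1⟩ : ∃ y : K, y ≠ 0 ∧ V.valuation y < 1 := by
    by_contra hcon
    push Not at hcon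
    apply hV
    rw [eq_top_iff]
    intro x _
    by_cases hx : x = 0
    · rw [hx]
      exact V.zero_mem
    · rw [← V.valuation_le_one_iff]
      have h1 := hcon x⁻¹ (inv_ne_zero hx)
      rw [map_inv₀] at h1
      have h0 : 0 < V.valuation x := lt_of_le_of_ne zero_le' ((V.valuation.ne_zero_iff).2 hx).symm
      exact (one_le_inv₀ h0).1 h1
  -- the uniformizer
  obtain ⟨ϖ, hϖ0, hϖ1, hϖ⟩ : ∃ ϖ : K, ϖ ≠ 0 ∧ V.valuation ϖ < 1 ∧
      ∀ z : K, V.valuation z < 1 → V.valuation z ≤ V.valuation ϖ := by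
    by_contra hcon
    push Not at hcon
    choose! nx hnx1 hnx2 using hcon
    let S : Type u := {x : K // x ≠ 0 ∧ V.valuation x < 1}
    let nxt : S → S := fun x => ⟨nx x.1, fun h => by
      have := hnx2 x.1 x.2.1 x.2.2
      rw [h, map_zero] at this
      exact absurd this (not_lt.2 zero_le'), hnx1 x.1 x.2.1 x.2.2⟩
    let z : ℕ → S := fun n => nxt^[n] ⟨y, hy0, hy1⟩
    have hz0 : (z 0).1 = y := rfl
    have hz : ∀ n, V.valuation (z n).1 < V.valuation (z (n + 1)).1 := by
      intro n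
      have h1 : z (n + 1) = nxt (z n) := Function.iterate_succ_apply' nxt n _
      rw [h1]
      exact hnx2 _ (z n).2.1 (z n).2.2
    have hmono : StrictMono fun n => V.valuation (z n).1 := strictMono_nat_of_lt_succ hz
    obtain ⟨M, hM⟩ := Dvr_chain hDep hfg V hE y hy0 hy1
    refine hM (fun j => (z (j + 1)).1) (fun j => (V.valuation_le_one_iff _).1 (z _).2.2.le)
      (fun j => ?_) (fun a b hab => ?_)
    · have := hmono (Nat.succ_pos j.1)
      exact this
    · have := hmono.injective hab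
      exact Fin.ext (by omega)
  have hγ0 : V.valuation ϖ ≠ 0 := by simpa using hϖ0
  have hγpos : 0 < V.valuation ϖ := lt_of_le_of_ne zero_le' hγ0.symm
  have hpos : ∀ a : K, a ≠ 0 → 0 < V.valuation a := fun a ha =>
    lt_of_le_of_ne zero_le' ((V.valuation.ne_zero_iff).2 ha).symm
  have hnat : ∀ a : K, a ≠ 0 → V.valuation a ≤ 1 → ∃ n : ℕ, V.valuation a = V.valuation ϖ ^ n := by
    intro a ha ha1
    by_contra hcon
    push Not at hcon
    have hlt : ∀ n : ℕ, V.valuation a < V.valuation ϖ ^ n := by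
      intro n
      induction n with
      | zero => exact lt_of_le_of_ne (by rw [pow_zero]; exact ha1) (hcon 0)
      | succ n ih =>
        refine lt_of_le_of_ne ?_ (hcon (n + 1))
        have h1 : V.valuation (a / ϖ ^ n) < 1 := by
          rw [map_div₀, map_pow, div_lt_one₀ (pow_pos hγpos n)]
          exact ih
        have h2 := hϖ _ h1
        rw [map_div₀, map_pow, div_le_iff₀ (pow_pos hγpos n)] at h2
        rw [pow_succ']
        exact h2
    obtain ⟨M, hM⟩ := Dvr_chain hDep hfg V hE a ha (by simpa using hlt 0)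
    refine hM (fun j => ϖ ^ (j : ℕ)) (fun j => ?_) (fun j => ?_) (fun i j hij => ?_)
    · rw [← V.valuation_le_one_iff, map_pow]
      exact pow_le_one₀ zero_le' hϖ1.le
    · rw [map_pow]
      exact hlt _
    · simp only [map_pow] at hij
      exact Fin.ext ((pow_right_injective₀ hγpos hϖ1.ne) hij)
  have hint : ∀ a : K, a ≠ 0 → ∃ n : ℤ, V.valuation a = V.valuation ϖ ^ n := by
    intro a ha
    rcases le_total (V.valuation a) 1 with h | h
    · obtain ⟨n, hn⟩ := hnat a ha h
      exact ⟨n, by rw [hn, zpow_natCast]⟩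
    · obtain ⟨n, hn⟩ := hnat a⁻¹ (inv_ne_zero ha) (by
        rw [map_inv₀]
        exact inv_le_one_of_one_le₀ h)
      refine ⟨-n, ?_⟩
      rw [zpow_neg, zpow_natCast, ← hn, map_inv₀, inv_inv]
  choose! o' ho' using hint
  have hinj : Function.Injective fun n : ℤ => V.valuation ϖ ^ n :=
    zpow_right_injective₀ hγpos hϖ1.ne
  let o : K → ℤ := fun a => if a = 0 then 0 else o' a
  have ho : ∀ a, a ≠ 0 → V.valuation a = V.valuation ϖ ^ o a := by
    intro a ha
    simp only [o, if_neg ha]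
    exact ho' a ha
  have hmul : ∀ a b, a ≠ 0 → b ≠ 0 → o (a * b) = o a + o b := by
    intro a b ha hb
    apply hinj
    simp only
    rw [← ho _ (mul_ne_zero ha hb), map_mul, ho a ha, ho b hb, zpow_add₀ hγ0]
  have hmem : ∀ a, a ≠ 0 → (a ∈ V ↔ 0 ≤ o a) := by
    intro a ha
    rw [← V.valuation_le_one_iff, ho a ha]
    constructor
    · intro h
      by_contra hneg
      push Not at hneg
      exact absurd (one_lt_zpow_of_neg₀ hγpos hϖ1 hneg) (not_lt.2 h)
    · intro h
      obtain ⟨n, hn⟩ := Int.eq_ofNat_of_zero_le h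
      rw [hn, zpow_natCast]
      exact pow_le_one₀ zero_le' hϖ1.le
  have hϖo : o ϖ = 1 := by
    apply hinj
    simp only
    rw [← ho ϖ hϖ0, zpow_one]
  refine ⟨o, if_pos rfl, hmul, hmem, ⟨ϖ, hϖo⟩, ?_⟩
  obtain ⟨M, hM⟩ := hDep E K hfg V hE ϖ ((V.valuation_le_one_iff _).1 hϖ1.le) hϖ0
    (Dvr_inv V ϖ hϖ0 hϖ1)
  refine ⟨M, fun a ha => ?_⟩
  obtain ⟨l, hl, b, hb, hsum⟩ := hM a ha
  refine ⟨l, hl, ?_⟩
  rw [hsum]
  by_cases hb0 : b = 0
  · left
    rw [hb0, mul_zero]
  · right
    rw [hmul _ _ hϖ0 hb0, hϖo]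
    have := (hmem b hb0).1 hb
    omega

end Pool.Agent.Lib.MP_8bcb2e_ag.B
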