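import Pool.Agent.Lib.MP_8bcb2e_ag.B.SpecC

set_option autoImplicit false

universe u

namespace Pool.Agent.Lib.MP_8bcb2e_ag.B

open KaehlerDifferential

/-- the transcendence degree of `K` over `k` -/
theorem Fg_trdeg (hSE : SepExists.{u}) {k K : Type u} [Field k] [Field K] [Algebra k K]
    [PerfectField k] [Algebra.EssFiniteType k K] {n : ℕ} {x : Fin n → K} (hx : IsDiffBasis k x) :
    Algebra.trdeg k K = n := by
  obtain ⟨t, ht⟩ := hSE k K n x hx
  have hsep := ht.sep
  have htb : IsTranscendenceBasis k t := by
    have halg : Algebra.IsAlgebraic (IntermediateField.adjoin k (Set.range t)) K := inferInstance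
    refine ht.algInd.isTranscendenceBasis_iff_isAlgebraic.2 ?_
    rwa [← IntermediateField.isAlgebraic_adjoin_iff_top]
  have h := htb.lift_cardinalMk_eq_trdeg
  simpa using h.symm

/-- if `y` is transcendental over `k(t)` and `t` has `n - 1` elements then `K` is algebraic over
`k(t)(y)` -/
theorem Fg_alg (hSE : SepExists.{u}) {k K : Type u} [Field k] [Field K] [Algebra k K]
    [PerfectField k] [Algebra.EssFiniteType k K] {ν : ℕ} {x : Fin (ν + 1) → K}
    (hx : IsDiffBasis k x) {t : Fin ν → K} (ht : AlgebraicIndependent k t) {y : K}
    (hy : Transcendental (IntermediateField.adjoin k (Set.range t)) y) :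
    Algebra.IsAlgebraic (IntermediateField.adjoin (IntermediateField.adjoin k (Set.range t)) {y})
      K := by
  have hy' : Transcendental (Algebra.adjoin k (Set.range t)) y := by
    intro hal
    apply hy
    obtain ⟨P, hP0, hP⟩ := hal
    let f : Algebra.adjoin k (Set.range t) →+* IntermediateField.adjoin k (Set.range t) :=
      { toFun := fun z => ⟨(z : K), IntermediateField.algebra_adjoin_le_adjoin k _ z.2⟩
        map_one' := rfl
        map_mul' := fun _ _ => rfl
        map_zero' := rfl
        map_add' := fun _ _ => rfl }
    have hf : Function.Injective f := by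
      intro a b hab
      exact Subtype.ext (congrArg (fun z : IntermediateField.adjoin k (Set.range t) => (z : K)) hab)
    refine ⟨P.map f, (Polynomial.map_ne_zero_iff hf).2 hP0, ?_⟩
    rw [Polynomial.aeval_def, Polynomial.eval₂_map]
    rw [Polynomial.aeval_def] at hP
    exact hP
  have hopt : AlgebraicIndependent k (fun o : Option (Fin ν) => o.elim y t) :=
    (ht.option_iff_transcendental y).2 hy'
  have htb : IsTranscendenceBasis k (fun o : Option (Fin ν) => o.elim y t) := by
    refine hopt.isTranscendenceBasis_of_lift_trdeg_le_of_finite ?_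
    rw [Fg_trdeg hSE hx]
    simp
  have hal := htb.isAlgebraic
  refine ⟨fun z => ?_⟩
  obtain ⟨P, hP0, hP⟩ := hal.isAlgebraic z
  have hle : ∀ w : K, w ∈ Algebra.adjoin k (Set.range (fun o : Option (Fin ν) => o.elim y t)) →
      w ∈ IntermediateField.adjoin (IntermediateField.adjoin k (Set.range t)) {y} := by
    intro w hw
    induction hw using Algebra.adjoin_induction with
    | mem w hw =>
      obtain ⟨o, rfl⟩ := hw
      rcases o with _ | i
      · exact IntermediateField.subset_adjoin _ _ rfl
      · exact IntermediateField.algebraMap_mem _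
          (⟨t i, IntermediateField.subset_adjoin _ _ ⟨i, rfl⟩⟩ :
            IntermediateField.adjoin k (Set.range t))
    | algebraMap c =>
      exact IntermediateField.algebraMap_mem _
        (⟨algebraMap k K c, IntermediateField.algebraMap_mem _ c⟩ :
          IntermediateField.adjoin k (Set.range t))
    | add a b _ _ ha hb => exact add_mem ha hb
    | mul a b _ _ ha hb => exact mul_mem ha hb
  let f : Algebra.adjoin k (Set.range (fun o : Option (Fin ν) => o.elim y t)) →+*
      IntermediateField.adjoin (IntermediateField.adjoin k (Set.range t)) {y} :=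
    { toFun := fun z => ⟨(z : K), hle _ z.2⟩
      map_one' := rfl
      map_mul' := fun _ _ => rfl
      map_zero' := rfl
      map_add' := fun _ _ => rfl }
  have hf : Function.Injective f := by
    intro a b hab
    exact Subtype.ext (congrArg (fun z : IntermediateField.adjoin
      (IntermediateField.adjoin k (Set.range t)) {y} => (z : K)) hab)
  refine ⟨P.map f, (Polynomial.map_ne_zero_iff hf).2 hP0, ?_⟩
  rw [Polynomial.aeval_def, Polynomial.eval₂_map]
  rw [Polynomial.aeval_def] at hP
  exact hP

theorem t_Fg : S_Fg.{u} := by
  intro hSE k K _ _ _ _ _ ν x hx t ht y hy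
  have hal := Fg_alg hSE hx ht hy
  have h1 : Algebra.EssFiniteType (IntermediateField.adjoin k (Set.range t)) K :=
    Algebra.EssFiniteType.of_comp k _ K
  have h2 : Algebra.EssFiniteType
      (IntermediateField.adjoin (IntermediateField.adjoin k (Set.range t)) {y}) K :=
    Algebra.EssFiniteType.of_comp (IntermediateField.adjoin k (Set.range t)) _ K
  exact Algebra.finite_of_essFiniteType_of_isAlgebraic

end Pool.Agent.Lib.MP_8bcb2e_ag.B
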