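import Pool.Agent.Lib.MP_8bcb2e_ag.B.SpecC

set_option autoImplicit false

universe u

namespace Pool.Agent.Lib.MP_8bcb2e_ag.B

/-- the properties of the orders -/
private structure FinZeros_V (E : Type u) {K ι : Type u} [Field E] [Field K] [Algebra E K]
    (ord : ι → K → ℤ) : Prop where
  zero : ∀ i, ord i 0 = 0
  mul : ∀ i a b, a ≠ 0 → b ≠ 0 → ord i (a * b) = ord i a + ord i b
  add : ∀ i a b, a ≠ 0 → b ≠ 0 → a + b ≠ 0 → min (ord i a) (ord i b) ≤ ord i (a + b)
  const : ∀ i (a : E), ord i (algebraMap E K a) = 0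

namespace FinZeros_V

variable {E K ι : Type u} [Field E] [Field K] [Algebra E K] {ord : ι → K → ℤ}

private theorem one (G : FinZeros_V E ord) (i : ι) : ord i 1 = 0 := by
  have := G.const i 1
  rwa [map_one] at this

private theorem pow (G : FinZeros_V E ord) (i : ι) {a : K} (ha : a ≠ 0) (n : ℕ) : ord i (a ^ n) = n * ord i a := by
  induction n with
  | zero => rw [pow_zero, G.one]; simp
  | succ n ih => rw [pow_succ, G.mul i _ _ (pow_ne_zero n ha) ha, ih]; push_cast; ring

private theorem inv (G : FinZeros_V E ord) (i : ι) {a : K} (ha : a ≠ 0) : ord i a⁻¹ = - ord i a := by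
  have := G.mul i a a⁻¹ ha (inv_ne_zero ha)
  rw [mul_inv_cancel₀ ha, G.one] at this
  omega

private theorem div (G : FinZeros_V E ord) (i : ι) {a b : K} (ha : a ≠ 0) (hb : b ≠ 0) :
    ord i (a / b) = ord i a - ord i b := by
  rw [div_eq_mul_inv, G.mul i _ _ ha (inv_ne_zero hb), G.inv i hb]
  ring

private theorem ge_add (G : FinZeros_V E ord) {i : ι} {m : ℤ} {a b : K} (ha : OGe ord i m a) (hb : OGe ord i m b) :
    OGe ord i m (a + b) := by
  rcases ha with rfl | ha
  · rwa [zero_add]
  rcases hb with rfl | hb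
  · rw [add_zero]; exact Or.inr ha
  rcases eq_or_ne a 0 with rfl | ha0
  · rw [zero_add]; exact Or.inr hb
  rcases eq_or_ne b 0 with rfl | hb0
  · rw [add_zero]; exact Or.inr ha
  rcases eq_or_ne (a + b) 0 with h0 | h0
  · exact Or.inl h0
  · exact Or.inr ((le_min ha hb).trans (G.add i a b ha0 hb0 h0))

private theorem ge_mul (G : FinZeros_V E ord) {i : ι} {m m' : ℤ} {a b : K} (ha : OGe ord i m a)
    (hb : OGe ord i m' b) : OGe ord i (m + m') (a * b) := by
  rcases eq_or_ne a 0 with rfl | ha0
  · exact Or.inl (zero_mul _)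
  rcases eq_or_ne b 0 with rfl | hb0
  · exact Or.inl (mul_zero _)
  right
  rw [G.mul i a b ha0 hb0]
  exact add_le_add (ha.resolve_left ha0) (hb.resolve_left hb0)

private theorem ge_sum (G : FinZeros_V E ord) {i : ι} {m : ℤ} {α : Type*} (s : Finset α) (f : α → K)
    (h : ∀ j ∈ s, OGe ord i m (f j)) : OGe ord i m (∑ j ∈ s, f j) := by
  classical
  induction s using Finset.induction_on with
  | empty => rw [Finset.sum_empty]; exact Or.inl rfl
  | insert j s hj ih =>
    rw [Finset.sum_insert hj]
    exact G.ge_add (h j (Finset.mem_insert_self _ _))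
      (ih fun l hl => h l (Finset.mem_insert_of_mem hl))

/-- an element with an order different from a smaller perturbation -/
private theorem sub_zero' (G : FinZeros_V E ord) {i : ι} {a b : K} (ha : a ≠ 0) (h : ord i a = 0)
    (hb : OGe ord i 1 (b - a)) : b ≠ 0 ∧ ord i b = 0 := by
  have hneg : OGe ord i 1 (a - b) := by
    have h1 : OGe ord i 0 (algebraMap E K (-1)) := Or.inr (G.const i _).ge
    have h2 := G.ge_mul h1 hb
    rw [zero_add, map_neg, map_one, neg_one_mul, neg_sub] at h2
    exact h2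
  have hb0 : b ≠ 0 := by
    rintro rfl
    rw [_root_.sub_zero] at hneg
    have := hneg.resolve_left ha
    omega
  refine ⟨hb0, ?_⟩
  apply le_antisymm
  · by_contra! hlt
    have h1 : OGe ord i 1 b := Or.inr (by omega)
    have h2 := G.ge_add h1 hneg
    rw [add_sub_cancel] at h2
    have := h2.resolve_left ha
    omega
  · have h2 : OGe ord i 0 (b - a) := hb.imp_right fun h => by omega
    have h3 := G.ge_add h2 (Or.inr h.ge)
    rw [sub_add_cancel] at h3
    exact h3.resolve_left hb0

/-- a polynomial at a zero of the argument -/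
private theorem poly0 (G : FinZeros_V E ord) {i : ι} {a : K} (h : 0 < ord i a) {q : Polynomial E} (hq : q.coeff 0 ≠ 0) :
    Polynomial.aeval a q ≠ 0 ∧ ord i (Polynomial.aeval a q) = 0 := by
  have ha : a ≠ 0 := by rintro rfl; rw [G.zero] at h; exact lt_irrefl _ h
  have hc : algebraMap E K (q.coeff 0) ≠ 0 := by
    rwa [Ne, FaithfulSMul.algebraMap_eq_zero_iff]
  refine G.sub_zero' hc (G.const i _) ?_
  have h1 : Polynomial.aeval a q - algebraMap E K (q.coeff 0) = Polynomial.aeval a q.divX * a := by
    conv_lhs => rw [← Polynomial.divX_mul_X_add q]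
    simp
  rw [h1]
  have h2 : OGe ord i 0 (Polynomial.aeval a q.divX) := by
    rw [Polynomial.aeval_eq_sum_range]
    refine G.ge_sum _ _ fun j _ => ?_
    rw [Algebra.smul_def]
    have h3 : OGe ord i 0 (algebraMap E K (q.divX.coeff j)) := Or.inr (G.const i _).ge
    have h4 : OGe ord i 0 (a ^ j) := Or.inr (by rw [G.pow i ha]; positivity)
    exact G.ge_mul h3 h4
  have h3 : OGe ord i 1 a := Or.inr (by omega)
  exact G.ge_mul h2 h3

private theorem poly (G : FinZeros_V E ord) (a : K) {q : Polynomial E} (hq : q ≠ 0) :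
    ∃ m : ℤ, ∀ i, 0 < ord i a → Polynomial.aeval a q ≠ 0 ∧ ord i (Polynomial.aeval a q) = m * ord i a := by
  obtain ⟨q', h1, h2⟩ := Polynomial.exists_eq_pow_rootMultiplicity_mul_and_not_dvd q hq 0
  rw [Polynomial.C_0, _root_.sub_zero] at h1 h2
  rw [Polynomial.X_dvd_iff] at h2
  refine ⟨(q.rootMultiplicity 0 : ℤ), fun i hi => ?_⟩
  have ha : a ≠ 0 := by rintro rfl; rw [G.zero] at hi; exact lt_irrefl _ hi
  obtain ⟨h3, h4⟩ := G.poly0 hi h2
  have h5 : Polynomial.aeval a q = a ^ q.rootMultiplicity 0 * Polynomial.aeval a q' := by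
    conv_lhs => rw [h1]
    rw [map_mul, map_pow, Polynomial.aeval_X]
  rw [h5]
  refine ⟨mul_ne_zero (pow_ne_zero _ ha) h3, ?_⟩
  rw [G.mul i _ _ (pow_ne_zero _ ha) h3, h4, G.pow i ha, add_zero]

private theorem nu (G : FinZeros_V E ord) (a : K) {f : K} (hf : f ∈ IntermediateField.adjoin E {a}) (hf0 : f ≠ 0) :
    ∃ m : ℤ, ∀ i, 0 < ord i a → ord i f = m * ord i a := by
  rw [IntermediateField.mem_adjoin_simple_iff] at hf
  obtain ⟨r, s, rfl⟩ := hf
  have hr : Polynomial.aeval a r ≠ 0 := fun h => hf0 (by rw [h, zero_div])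
  have hs : Polynomial.aeval a s ≠ 0 := fun h => hf0 (by rw [h, div_zero])
  obtain ⟨m, hm⟩ := G.poly a (q := r) (by rintro rfl; exact hr (map_zero _))
  obtain ⟨n, hn⟩ := G.poly a (q := s) (by rintro rfl; exact hs (map_zero _))
  refine ⟨m - n, fun i hi => ?_⟩
  rw [G.div i hr hs, (hm i hi).2, (hn i hi).2]
  ring

/-- an algebraic element has no zeros -/
private theorem alg (G : FinZeros_V E ord) {a : K} (ha : IsAlgebraic E a) (i : ι) : ¬ 0 < ord i a := by
  intro hi
  obtain ⟨q, hq, h0⟩ := ha
  obtain ⟨m, hm⟩ := G.poly a hq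
  exact (hm i hi).1 h0

private theorem finite_pos (G : FinZeros_V E ord)
    (happ : ∀ (S : Finset ι) (a : ι → K) (N : ℤ), ∃ x : K, ∀ i ∈ S, OGe ord i N (x - a i))
    (a : K) (hfd : FiniteDimensional (IntermediateField.adjoin E {a}) K) : {i | 0 < ord i a}.Finite := by
  classical
  by_contra hinf
  obtain ⟨S, hS, hcard⟩ := Set.Infinite.exists_subset_card_eq hinf
    (Module.finrank (IntermediateField.adjoin E {a}) K + 1)
  have hpos : ∀ i ∈ S, 0 < ord i a := fun i hi => hS hi
  have hex : ∀ i : ι, ∃ x : K, ∀ j ∈ S, OGe ord j 1 (x - if j = i then 1 else 0) :=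
    fun i => happ S (fun j => if j = i then 1 else 0) 1
  choose e he using hex
  have hli : LinearIndependent (IntermediateField.adjoin E {a}) (fun i : S => e i) := by
    rw [Fintype.linearIndependent_iff]
    intro g hg
    by_contra! hne
    obtain ⟨i1, hi1⟩ := hne
    have hg' : ∀ i : S, ∃ m : ℤ, g i ≠ 0 → ∀ j, 0 < ord j a → ord j (g i : K) = m * ord j a := by
      intro i
      by_cases h : g i = 0
      · exact ⟨0, fun h' => absurd h h'⟩
      · obtain ⟨m, hm⟩ := G.nu a (g i).2 (by simpa using h)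
        exact ⟨m, fun _ => hm⟩
    choose m hm using hg'
    obtain ⟨i0, h0, hmin⟩ := Finset.exists_min_image (Finset.univ.filter fun i : S => g i ≠ 0) m
      ⟨i1, by simp [hi1]⟩
    rw [Finset.mem_filter] at h0
    have hi0 : g i0 ≠ 0 := h0.2
    have hi0' : (g i0 : K) ≠ 0 := by simpa using hi0
    have hp0 := hpos i0 i0.2
    -- the other terms
    have hoth : OGe ord (i0 : ι) 1 (∑ i ∈ Finset.univ.erase i0, (g i : K) / (g i0 : K) * e i) := by
      refine G.ge_sum _ _ fun i hi => ?_
      have hii : i ≠ i0 := Finset.ne_of_mem_erase hi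
      have h1 : OGe ord (i0 : ι) 1 (e i) := by
        have := he i i0 i0.2
        rwa [if_neg (fun h => hii (Subtype.ext h.symm)), _root_.sub_zero] at this
      have h2 : OGe ord (i0 : ι) 0 ((g i : K) / (g i0 : K)) := by
        by_cases h : g i = 0
        · left; rw [h]; simp
        · right
          have hgi : (g i : K) ≠ 0 := by simpa using h
          rw [G.div _ hgi hi0', hm i h _ hp0, hm i0 hi0 _ hp0]
          have := hmin i (by simp [h])
          nlinarith
      have := G.ge_mul h2 h1
      rwa [zero_add] at this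
    have hsum : ∑ i, (g i : K) / (g i0 : K) * e i = 0 := by
      have h1 : ∑ i, (g i : K) / (g i0 : K) * e i = (∑ i, g i • e i) / (g i0 : K) := by
        rw [Finset.sum_div]
        refine Finset.sum_congr rfl fun i _ => ?_
        rw [IntermediateField.smul_def, smul_eq_mul]
        ring
      rw [h1, hg, zero_div]
    rw [← Finset.add_sum_erase _ _ (Finset.mem_univ i0), div_self hi0', one_mul] at hsum
    have hself := he i0 i0 i0.2
    rw [if_pos rfl] at hself
    have h2 := G.ge_add hself hoth
    have h3 : e ↑i0 - 1 + ∑ i ∈ Finset.univ.erase i0, (g i : K) / (g i0 : K) * e i = -1 := by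
      rw [sub_add_eq_add_sub, hsum]; ring
    rw [h3] at h2
    rcases h2 with h2 | h2
    · exact one_ne_zero (neg_eq_zero.1 h2)
    · have := G.const (i0 : ι) (-1)
      rw [map_neg, map_one] at this
      omega
  have := hli.fintype_card_le_finrank
  rw [Fintype.card_coe, hcard] at this
  omega

end FinZeros_V

theorem t_FinZeros : S_FinZeros.{u} := by
  intro E K ι _ _ _ ord h0 hmul hadd hconst happ hfg a
  have G : FinZeros_V E ord := ⟨h0, hmul, hadd, hconst⟩
  rcases eq_or_ne a 0 with rfl | ha
  · simp [h0]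
  by_cases halg : IsAlgebraic E a
  · have h1 : {i | ord i a ≠ 0} = ∅ := by
      rw [Set.eq_empty_iff_forall_notMem]
      intro i hi
      have h2 := G.alg halg i
      have h3 := G.alg halg.inv i
      rw [G.inv i ha] at h3
      exact hi (by omega)
    rw [h1]
    exact Set.finite_empty
  · have hinv : Transcendental E a⁻¹ := fun h => halg (by simpa using h.inv)
    refine ((G.finite_pos happ a (hfg a halg)).union (G.finite_pos happ a⁻¹ (hfg a⁻¹ hinv))).subset ?_
    intro i hi
    rcases lt_or_gt_of_ne (show ord i a ≠ 0 from hi) with h | h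
    · right
      change 0 < ord i a⁻¹
      rw [G.inv i ha]
      omega
    · exact Or.inl h

end Pool.Agent.Lib.MP_8bcb2e_ag.B
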