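import Pool.Agent.Lib.MP_8bcb2e_ag.B.SpecC

set_option autoImplicit false

universe u

namespace Pool.Agent.Lib.MP_8bcb2e_ag.B

open KaehlerDifferential

theorem t_GenFin : S_GenFin.{u} := by
  intro k K _ _ _ n Ψ 𝒪 h𝒪 r ν t s hs0 hs hts hfg m b φ₀ φ₁ hφ₀ hφ₁ htr
  set E := IntermediateField.adjoin k (Set.range t) with hE
  set Q : Set K := {F | s ^ b * F ∈ sections k Ψ 𝒪 (m + r * b)} with hQ
  have hφ0 : φ₀ ≠ 0 := by
    rintro rfl
    rw [div_zero] at htr
    exact htr isAlgebraic_zero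
  -- two elements of `Q` with transcendental quotient
  obtain ⟨F, hF, F', hF', hF'0, hFF⟩ : ∃ F ∈ Q, ∃ F' ∈ Q, F' ≠ 0 ∧ Transcendental E (F / F') := by
    by_contra hcon
    have hcon' : ∀ F ∈ Q, ∀ F' ∈ Q, F' ≠ 0 → IsAlgebraic E (F / F') := by
      intro F hF F' hF' hF'0
      by_contra h
      exact hcon ⟨F, hF, F', hF', hF'0, h⟩
    obtain ⟨F', hF', hF'0⟩ : ∃ F' ∈ Q, F' ≠ 0 := by
      by_contra! h
      have h1 : Asp k Ψ 𝒪 t s r m b = ⊥ := Submodule.span_eq_bot.2 h
      rw [h1] at hφ₀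
      exact hφ0 ((Submodule.mem_bot _).1 hφ₀)
    have h2 : ∀ φ ∈ Asp k Ψ 𝒪 t s r m b, IsAlgebraic E (φ / F') := by
      intro φ hφ
      refine Submodule.span_induction ?_ ?_ ?_ ?_ hφ
      · intro F hF
        exact hcon' F hF F' hF' hF'0
      · rw [zero_div]; exact isAlgebraic_zero
      · intro x y _ _ hx hy
        rw [add_div]; exact hx.add hy
      · intro c x _ hx
        rw [Algebra.smul_def, mul_div_assoc]
        exact (isAlgebraic_algebraMap c).mul hx
    apply htr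
    have h3 := (h2 φ₁ hφ₁).mul (h2 φ₀ hφ₀).inv
    have h4 : φ₁ / F' * (φ₀ / F')⁻¹ = φ₁ / φ₀ := by
      field_simp
    rwa [h4] at h3
  -- the field of quotients
  set V := sections k Ψ 𝒪 (m + r * b + r) with hV
  have h1 : s ^ b * F' * s ∈ V := sections_mul h𝒪 hF' hs
  have h10 : s ^ b * F' * s ≠ 0 := mul_ne_zero (mul_ne_zero (pow_ne_zero _ hs0) hF'0) hs0
  have h2 : s ^ b * F * s ∈ V := sections_mul h𝒪 hF hs
  have h3 : ∀ i, s ^ b * F' * (t i * s) ∈ V := fun i => sections_mul h𝒪 hF' (hts i)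
  have hE' : E ≤ ratioField k V := by
    rw [hE, IntermediateField.adjoin_le_iff]
    rintro _ ⟨i, rfl⟩
    refine IntermediateField.subset_adjoin k _ ⟨_, h3 i, _, h1, ?_⟩
    have : s ^ b ≠ 0 := pow_ne_zero _ hs0
    field_simp
  have hx' : F / F' ∈ ratioField k V := by
    refine IntermediateField.subset_adjoin k _ ⟨_, h2, _, h1, ?_⟩
    have : s ^ b ≠ 0 := pow_ne_zero _ hs0
    field_simp
  have hfin := hfg (F / F') hFF
  rw [GenericallyFinite]
  refine ⟨fun z => ?_⟩
  have hz : IsAlgebraic (IntermediateField.adjoin E {F / F'}) z := Algebra.IsAlgebraic.isAlgebraic z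
  -- transfer to the larger field
  have hle : ∀ y : K, y ∈ IntermediateField.adjoin E {F / F'} → y ∈ ratioField k V := by
    intro y hy
    rw [IntermediateField.mem_adjoin_simple_iff] at hy
    obtain ⟨P, R, rfl⟩ := hy
    have hpoly : ∀ P : Polynomial E, Polynomial.aeval (F / F') P ∈ ratioField k V := by
      intro P
      rw [Polynomial.aeval_eq_sum_range]
      refine sum_mem fun j _ => ?_
      rw [Algebra.smul_def]
      exact mul_mem (hE' (P.coeff j).2) (pow_mem hx' j)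
    exact div_mem (hpoly P) (hpoly R)
  let f : IntermediateField.adjoin E {F / F'} →+* ratioField k V :=
    { toFun := fun y => ⟨(y : K), hle _ y.2⟩
      map_one' := rfl
      map_mul' := fun _ _ => rfl
      map_zero' := rfl
      map_add' := fun _ _ => rfl }
  obtain ⟨P, hP0, hP⟩ := hz
  refine ⟨P.map f, (Polynomial.map_ne_zero_iff f.injective).2 hP0, ?_⟩
  rw [Polynomial.aeval_def, Polynomial.eval₂_map]
  rw [Polynomial.aeval_def] at hP
  exact hP

end Pool.Agent.Lib.MP_8bcb2e_ag.B
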