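import Pool.Agent.Lib.MP_8bcb2e_ag.B.SpecC

/-!
# A place over `k(t)` is of height one over `k[t']`
-/

set_option autoImplicit false

universe u

namespace Pool.Agent.Lib.MP_8bcb2e_ag.B

/-- The kernel of a homomorphism from `B[X]` to a field that is injective on `B` is generated by each of
its prime elements. -/
private theorem HeightOne_dvd {B κ : Type*} [CommRing B] [IsDomain B] [UniqueFactorizationMonoid B]
    [Field κ] (ψ : Polynomial B →+* κ) (hψ : Function.Injective (ψ.comp Polynomial.C))
    {π : Polynomial B} (hπ : Prime π) (h0 : ψ π = 0) (q : Polynomial B) (hq : ψ q = 0) : π ∣ q := by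
  classical
  have hdeg : π.natDegree ≠ 0 := by
    intro h
    obtain ⟨a, ha⟩ := Polynomial.natDegree_eq_zero.1 h
    have h1 : (ψ.comp Polynomial.C) a = 0 := by
      rw [RingHom.comp_apply, ha, h0]
    have h2 : a = 0 := hψ (by rw [h1, map_zero])
    apply hπ.ne_zero
    rw [← ha, h2, map_zero]
  let ℓ : FractionRing B →+* κ := IsFractionRing.lift hψ
  let Ψ : Polynomial (FractionRing B) →+* κ := Polynomial.eval₂RingHom ℓ (ψ Polynomial.X)
  have hΨ : ∀ p : Polynomial B, Ψ (p.map (algebraMap B (FractionRing B))) = ψ p := by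
    intro p
    have h1 : Ψ.comp (Polynomial.mapRingHom (algebraMap B (FractionRing B))) = ψ := by
      apply Polynomial.ringHom_ext
      · intro a
        have h2 : ℓ (algebraMap B (FractionRing B) a) = (ψ.comp Polynomial.C) a :=
          IsFractionRing.lift_algebraMap hψ a
        simp [Ψ, h2]
      · simp [Ψ]
    exact congrArg (fun f : Polynomial B →+* κ => f p) h1
  have hirr : Irreducible (π.map (algebraMap B (FractionRing B))) :=
    ((hπ.irreducible.isPrimitive hdeg).irreducible_iff_irreducible_map_fraction_map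
      (K := FractionRing B)).1 hπ.irreducible
  have hdvd : π.map (algebraMap B (FractionRing B)) ∣ q.map (algebraMap B (FractionRing B)) := by
    by_contra hn
    obtain ⟨u, v, huv⟩ := (hirr.coprime_iff_not_dvd).2 hn
    have h1 := congrArg Ψ huv
    rw [map_add, map_mul, map_mul, hΨ, hΨ, h0, hq, mul_zero, mul_zero, add_zero, map_one] at h1
    exact zero_ne_one h1
  obtain ⟨r, hr⟩ := hdvd
  obtain ⟨b, hbm, hb⟩ := IsLocalization.integerNormalization_spec (nonZeroDivisors B) r
  have hb0 : (b : B) ≠ 0 := nonZeroDivisors.ne_zero hbm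
  have h1 : Polynomial.C (b : B) * q =
      π * IsLocalization.integerNormalization (nonZeroDivisors B) r := by
    apply Polynomial.map_injective (algebraMap B (FractionRing B))
      (IsFractionRing.injective B (FractionRing B))
    rw [Polynomial.map_mul, Polynomial.map_mul, hb, hr, Polynomial.map_C, Algebra.smul_def]
    have h2 : algebraMap B (Polynomial (FractionRing B)) (b : B) =
        Polynomial.C (algebraMap B (FractionRing B) (b : B)) := rfl
    rw [h2]
    ring
  rcases hπ.dvd_or_dvd (Dvd.intro _ h1.symm) with h2 | h2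
  · exfalso
    obtain ⟨s, hs⟩ := h2
    have hs0 : s ≠ 0 := by
      rintro rfl
      rw [mul_zero] at hs
      exact hb0 (Polynomial.C_eq_zero.1 hs)
    have h3 := congrArg Polynomial.natDegree hs
    rw [Polynomial.natDegree_C, Polynomial.natDegree_mul hπ.ne_zero hs0] at h3
    omega
  · exact h2

/-- If `ν` independent elements are algebraic over `k[τ']`, where `τ'` is a dependent family of `ν + 1`
elements, then `ν` of the `τ'` are independent. -/
private theorem HeightOne_index {k κ : Type*} [Field k] [Field κ] [Algebra k κ] {ν : ℕ}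
    (τ' : Fin (ν + 1) → κ) (τ : Fin ν → κ) (hτ : AlgebraicIndependent k τ)
    (halg : ∀ i, IsAlgebraic (Algebra.adjoin k (Set.range τ')) (τ i))
    (hnot : ¬ AlgebraicIndependent k τ') :
    ∃ j : Fin (ν + 1), AlgebraicIndependent k (fun i => τ' (j.succAbove i)) := by
  classical
  let M := AlgebraicIndependent.matroid k κ
  obtain ⟨B, hB⟩ := M.exists_isBasis (Set.range τ')
  have hBi : AlgebraicIndependent k (fun b : B => (b : κ)) :=
    AlgebraicIndependent.matroid_indep_iff.1 hB.indep
  have hBs : B ⊆ Set.range τ' := hB.subset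
  have h1 : M.Indep (Set.range τ) := AlgebraicIndependent.matroid_indep_iff.2 hτ.to_subtype_range
  have h2 : Set.range τ ⊆ M.closure (Set.range τ') := by
    rw [AlgebraicIndependent.matroid_closure_eq]
    rintro _ ⟨i, rfl⟩
    exact halg i
  have h3 : (Set.range τ).encard ≤ B.encard := by
    have h4 := h1.encard_le_eRk_of_subset h2
    rwa [M.eRk_closure_eq, ← hB.encard_eq_eRk] at h4
  have h5 : (Set.range τ).encard = ν := by
    rw [← Set.image_univ, hτ.injective.encard_image, Set.encard_univ]
    simp
  have hBf : B.Finite := (Set.finite_range τ').subset hBs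
  have : Fintype B := hBf.fintype
  have hcard : ν ≤ Fintype.card B := by
    have h6 : B.encard = Fintype.card B := by
      rw [← Set.toFinset_card, Set.encard_eq_coe_toFinset_card]
    rw [h5, h6] at h3
    exact_mod_cast h3
  choose g hg using fun b : B => hBs b.2
  have hgi : Function.Injective g := by
    intro b c hbc
    apply Subtype.ext
    rw [← hg b, ← hg c, hbc]
  have hns : ¬ Function.Surjective g := by
    intro hs
    apply hnot
    have h6 := hBi.comp (Equiv.ofBijective g ⟨hgi, hs⟩).symm (Equiv.injective _)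
    have h7 : (fun b : B => (b : κ)) ∘ (Equiv.ofBijective g ⟨hgi, hs⟩).symm = τ' := by
      funext j
      rw [Function.comp_apply, ← hg]
      congr 1
      exact (Equiv.ofBijective g ⟨hgi, hs⟩).apply_symm_apply j
    rwa [h7] at h6
  obtain ⟨j, hj⟩ : ∃ j, ∀ b, g b ≠ j := by
    by_contra! hcon
    exact hns hcon
  refine ⟨j, ?_⟩
  have himg : Finset.univ.image g = Finset.univ.erase j := by
    apply Finset.eq_of_subset_of_card_le
    · intro x hx
      obtain ⟨b, _, rfl⟩ := Finset.mem_image.1 hx
      exact Finset.mem_erase.2 ⟨hj b, Finset.mem_univ _⟩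
    · rw [Finset.card_image_of_injective _ hgi, Finset.card_erase_of_mem (Finset.mem_univ _),
        Finset.card_univ, Finset.card_univ, Fintype.card_fin]
      simpa using hcard
  have hex : ∀ i : Fin ν, ∃ b : B, g b = j.succAbove i := by
    intro i
    have h6 : j.succAbove i ∈ Finset.univ.image g := by
      rw [himg]
      exact Finset.mem_erase.2 ⟨Fin.succAbove_ne j i, Finset.mem_univ _⟩
    obtain ⟨b, _, hb⟩ := Finset.mem_image.1 h6
    exact ⟨b, hb⟩
  choose f hf using hex
  have hfi : Function.Injective f := by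
    intro a b hab
    apply Fin.succAbove_right_injective (p := j)
    rw [← hf a, ← hf b, hab]
  have h8 := hBi.comp f hfi
  have h9 : (fun b : B => (b : κ)) ∘ f = fun i => τ' (j.succAbove i) := by
    funext i
    rw [Function.comp_apply, ← hg, hf]
  rwa [h9] at h8

/-- The kernel of `k[X_0, …, X_ν] → κ`, if it is not zero and `κ` contains `ν` independent elements that are
algebraic over the image, is a principal prime ideal. -/
private theorem HeightOne_core {k κ : Type*} [Field k] [Field κ] [Algebra k κ] {ν : ℕ}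
    (τ' : Fin (ν + 1) → κ) (τ : Fin ν → κ) (hτ : AlgebraicIndependent k τ)
    (halg : ∀ i, IsAlgebraic (Algebra.adjoin k (Set.range τ')) (τ i))
    (hnot : ¬ AlgebraicIndependent k τ') :
    ∃ π : MvPolynomial (Fin (ν + 1)) k, Irreducible π ∧
      ∀ q, MvPolynomial.aeval τ' q = 0 ↔ π ∣ q := by
  classical
  obtain ⟨j, hj⟩ := HeightOne_index τ' τ hτ halg hnot
  -- an irreducible element of the kernel
  let P : Ideal (MvPolynomial (Fin (ν + 1)) k) := RingHom.ker (MvPolynomial.aeval (R := k) τ')
  have hP : P.IsPrime := RingHom.ker_isPrime _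
  have hP0 : P ≠ ⊥ := by
    intro h
    apply hnot
    exact (RingHom.injective_iff_ker_eq_bot _).2 h
  obtain ⟨π, hπP, hπ⟩ := Ideal.IsPrime.exists_mem_prime_of_ne_bot hP hP0
  have hπ0 : MvPolynomial.aeval τ' π = 0 := hπP
  refine ⟨π, hπ.irreducible, fun q => ⟨fun hq => ?_, ?_⟩⟩
  · let e : MvPolynomial (Fin (ν + 1)) k ≃ₐ[k] Polynomial (MvPolynomial (Fin ν) k) :=
      (MvPolynomial.renameEquiv k (finSuccEquiv' j)).trans (MvPolynomial.optionEquivLeft k (Fin ν))
    let ψ : Polynomial (MvPolynomial (Fin ν) k) →+* κ :=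
      (MvPolynomial.aeval (R := k) τ').toRingHom.comp (e.symm : _ ≃ₐ[k] _).toRingEquiv.toRingHom
    have hψe : ∀ p, ψ (e p) = MvPolynomial.aeval τ' p := by
      intro p
      change MvPolynomial.aeval τ' (e.symm (e p)) = _
      rw [e.symm_apply_apply]
    have heX : ∀ i, e (MvPolynomial.X (j.succAbove i)) = Polynomial.C (MvPolynomial.X i) := by
      intro i
      simp [e]
    have heC : ∀ a, e (MvPolynomial.C a) = Polynomial.C (MvPolynomial.C a) := by
      intro a
      simp [e]
    have hcomp : ψ.comp Polynomial.C =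
        (MvPolynomial.aeval (R := k) (fun i => τ' (j.succAbove i))).toRingHom := by
      apply MvPolynomial.ringHom_ext
      · intro a
        rw [RingHom.comp_apply, ← heC, hψe]
        simp
      · intro i
        rw [RingHom.comp_apply, ← heX, hψe]
        simp
    have hinj : Function.Injective (ψ.comp Polynomial.C) := by
      rw [hcomp]
      exact hj
    have hπ' : Prime (e π) := (MulEquiv.prime_iff (e : _ ≃ₐ[k] _).toRingEquiv.toMulEquiv).2 hπ
    have h1 := HeightOne_dvd ψ hinj hπ' (by rw [hψe, hπ0]) (e q) (by rw [hψe, hq])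
    exact (map_dvd_iff e).1 h1
  · rintro ⟨s, rfl⟩
    rw [map_mul, hπ0, zero_mul]

/-- `S_HeightOne` with the independence of `t` as a hypothesis. -/
private theorem HeightOne_main (k K : Type u) [Field k] [Field K] [Algebra k K] (ν : ℕ)
    (t' : Fin (ν + 1) → K) (hi : AlgebraicIndependent k t')
    (halg : Algebra.IsAlgebraic (IntermediateField.adjoin k (Set.range t')) K)
    (V : ValuationSubring K) (hk : ∀ c : k, algebraMap k K c ∈ V) (ht' : ∀ i, t' i ∈ V) (hV : V ≠ ⊤)
    (t : Fin ν → K) (ht : ∀ i, t i ∈ V) (hti : AlgebraicIndependent k t)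
    (hunit : ∀ q : MvPolynomial (Fin ν) k, q ≠ 0 → (MvPolynomial.aeval t q)⁻¹ ∈ V)
    (heq : ∀ i, ∃ (P : Polynomial (MvPolynomial (Fin (ν + 1)) k)), P ≠ 0 ∧
      Polynomial.eval₂ (MvPolynomial.aeval t' : MvPolynomial (Fin (ν + 1)) k →ₐ[k] K).toRingHom (t i) P
        = 0 ∧ (MvPolynomial.aeval t' P.leadingCoeff)⁻¹ ∈ V) :
    HeightOne k t' V := by
  classical
  -- the homomorphism to the residue field
  have hφV : ∀ a : MvPolynomial (Fin (ν + 1)) k, MvPolynomial.aeval t' a ∈ V := by
    intro a
    have h1 : Algebra.adjoin k (Set.range t') ≤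
        { V.toSubring with algebraMap_mem' := hk : Subalgebra k K } := by
      rw [Algebra.adjoin_le_iff]
      rintro _ ⟨i, rfl⟩
      exact ht' i
    apply h1
    rw [Algebra.adjoin_range_eq_range_aeval]
    exact ⟨a, rfl⟩
  have hφV2 : ∀ a : MvPolynomial (Fin ν) k, MvPolynomial.aeval t a ∈ V := by
    intro a
    have h1 : Algebra.adjoin k (Set.range t) ≤
        { V.toSubring with algebraMap_mem' := hk : Subalgebra k K } := by
      rw [Algebra.adjoin_le_iff]
      rintro _ ⟨i, rfl⟩
      exact ht i
    apply h1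
    rw [Algebra.adjoin_range_eq_range_aeval]
    exact ⟨a, rfl⟩
  let ρ : V →+* IsLocalRing.ResidueField V := IsLocalRing.residue V
  have hρ0 : ∀ a : V, a ≠ 0 → (ρ a ≠ 0 ↔ (a : K)⁻¹ ∈ V) := by
    intro a ha
    have ha0 : (a : K) ≠ 0 := fun h => ha (Subtype.ext h)
    rw [Ne, IsLocalRing.residue_eq_zero_iff, IsLocalRing.mem_maximalIdeal, mem_nonunits_iff, not_not]
    constructor
    · rintro ⟨b, hb⟩
      have h1 : (b : V) * (↑b⁻¹ : V) = 1 := b.mul_inv
      have h2 : (a : K) * ((↑b⁻¹ : V) : K) = 1 := by
        rw [← hb]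
        exact congrArg Subtype.val h1
      rw [← eq_inv_of_mul_eq_one_right h2]
      exact (↑b⁻¹ : V).2
    · intro h
      exact IsUnit.of_mul_eq_one ⟨_, h⟩ (Subtype.ext (mul_inv_cancel₀ ha0))
  let φV : MvPolynomial (Fin (ν + 1)) k →+* V :=
    (MvPolynomial.aeval (R := k) t').toRingHom.codRestrict V.toSubring hφV
  let φV2 : MvPolynomial (Fin ν) k →+* V :=
    (MvPolynomial.aeval (R := k) t).toRingHom.codRestrict V.toSubring hφV2
  let ψ : MvPolynomial (Fin (ν + 1)) k →+* IsLocalRing.ResidueField V := ρ.comp φV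
  let _ : Algebra k (IsLocalRing.ResidueField V) := (ψ.comp MvPolynomial.C).toAlgebra
  let τ' : Fin (ν + 1) → IsLocalRing.ResidueField V := fun i => ψ (MvPolynomial.X i)
  let τ : Fin ν → IsLocalRing.ResidueField V := fun i => ρ ⟨t i, ht i⟩
  have hψ : ∀ q, MvPolynomial.aeval τ' q = ψ q := by
    intro q
    have h1 : (MvPolynomial.aeval (R := k) τ').toRingHom = ψ := by
      apply MvPolynomial.ringHom_ext
      · intro a
        change MvPolynomial.aeval τ' (MvPolynomial.C a) = _
        rw [MvPolynomial.aeval_C]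
        rfl
      · intro i
        change MvPolynomial.aeval τ' (MvPolynomial.X i) = _
        rw [MvPolynomial.aeval_X]
    exact congrArg (fun f : MvPolynomial (Fin (ν + 1)) k →+* IsLocalRing.ResidueField V => f q) h1
  have hψ2 : ∀ q, MvPolynomial.aeval τ q = ρ (φV2 q) := by
    intro q
    have h1 : (MvPolynomial.aeval (R := k) τ).toRingHom = ρ.comp φV2 := by
      apply MvPolynomial.ringHom_ext
      · intro a
        change MvPolynomial.aeval τ (MvPolynomial.C a) = ρ (φV2 (MvPolynomial.C a))
        rw [MvPolynomial.aeval_C]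
        change ρ (φV (MvPolynomial.C a)) = ρ (φV2 (MvPolynomial.C a))
        congr 1
        apply Subtype.ext
        change MvPolynomial.aeval t' (MvPolynomial.C a) = MvPolynomial.aeval t (MvPolynomial.C a)
        rw [MvPolynomial.aeval_C, MvPolynomial.aeval_C]
      · intro i
        change MvPolynomial.aeval τ (MvPolynomial.X i) = ρ (φV2 (MvPolynomial.X i))
        rw [MvPolynomial.aeval_X]
        change ρ ⟨t i, ht i⟩ = ρ (φV2 (MvPolynomial.X i))
        congr 1
        apply Subtype.ext
        change t i = MvPolynomial.aeval t (MvPolynomial.X i)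
        rw [MvPolynomial.aeval_X]
    exact congrArg (fun f : MvPolynomial (Fin ν) k →+* IsLocalRing.ResidueField V => f q) h1
  have hφ0 : ∀ q : MvPolynomial (Fin (ν + 1)) k, q ≠ 0 → φV q ≠ 0 := by
    intro q hq h
    have h1 : MvPolynomial.aeval t' q = 0 := congrArg Subtype.val h
    exact hq (hi (by rw [h1, map_zero]))
  -- independence of the residue classes of `t`
  have hτ : AlgebraicIndependent k τ := by
    rw [algebraicIndependent_iff]
    intro q hq
    by_contra hq0
    rw [hψ2] at hq
    have h1 := hunit q hq0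
    have h2 : φV2 q ≠ 0 := by
      intro h
      have h3 : MvPolynomial.aeval t q = 0 := congrArg Subtype.val h
      exact hq0 (hti (by rw [h3, map_zero]))
    exact ((hρ0 _ h2).2 h1) hq
  -- the residue classes of `t` are algebraic over the image
  have halgτ : ∀ i, IsAlgebraic (Algebra.adjoin k (Set.range τ')) (τ i) := by
    intro i
    obtain ⟨P, hP0, hP, hlc⟩ := heq i
    let θ : MvPolynomial (Fin (ν + 1)) k →+* Algebra.adjoin k (Set.range τ') :=
      (MvPolynomial.aeval (R := k) τ').toRingHom.codRestrict (Algebra.adjoin k (Set.range τ'))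
        (fun a => by
          rw [Algebra.adjoin_range_eq_range_aeval]
          exact ⟨a, rfl⟩)
    have hθ : ∀ a, ((θ a : Algebra.adjoin k (Set.range τ')) : IsLocalRing.ResidueField V) = ψ a :=
      fun a => hψ a
    refine ⟨P.map θ, ?_, ?_⟩
    · intro h
      have h1 : (P.map θ).coeff P.natDegree = 0 := by rw [h, Polynomial.coeff_zero]
      rw [Polynomial.coeff_map] at h1
      have h2 : ψ P.leadingCoeff = 0 := by
        rw [← hθ]
        exact congrArg Subtype.val h1
      exact (hρ0 _ (hφ0 _ (Polynomial.leadingCoeff_ne_zero.2 hP0))).2 hlc h2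
    · have h1 : (algebraMap (Algebra.adjoin k (Set.range τ')) (IsLocalRing.ResidueField V)).comp θ =
          ρ.comp φV := by
        ext a
        · exact hθ _
        · exact hθ _
      have h2 : Polynomial.eval₂ φV (⟨t i, ht i⟩ : V) P = 0 := by
        apply Subtype.ext
        have h3 := Polynomial.hom_eval₂ P φV V.subtype ⟨t i, ht i⟩
        change V.subtype (Polynomial.eval₂ φV (⟨t i, ht i⟩ : V) P) = 0
        rw [h3]
        exact hP
      change Polynomial.eval₂ (algebraMap (Algebra.adjoin k (Set.range τ'))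
        (IsLocalRing.ResidueField V)) (τ i) (P.map θ) = 0
      rw [Polynomial.eval₂_map, h1, ← Polynomial.hom_eval₂, h2, map_zero]
  -- the image is not the polynomial ring
  have hnot : ¬ AlgebraicIndependent k τ' := by
    intro hτ'
    obtain ⟨z, hz⟩ : ∃ z, z ∉ V := by
      by_contra! hcon
      exact hV (by ext x; simp [hcon x])
    have hy : z⁻¹ ∈ V := (V.mem_or_inv_mem z).resolve_left hz
    have hz0 : z ≠ 0 := by
      rintro rfl
      exact hz (zero_mem V)
    have hy0 : z⁻¹ ≠ 0 := inv_ne_zero hz0
    have h1 : Algebra.IsAlgebraic (Algebra.adjoin k (Set.range t')) K := by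
      first
        | rwa [IntermediateField.isAlgebraic_adjoin_iff_top]
        | rwa [← IntermediateField.isAlgebraic_adjoin_iff_top]
    obtain ⟨s, hs, r, hr0, hr⟩ := (h1.isAlgebraic z⁻¹).exists_nonzero_eq_adjoin_mul
      (mem_nonZeroDivisors_of_ne_zero hy0)
    have hRV : ∀ a : Algebra.adjoin k (Set.range t'), (a : K) ∈ V := by
      rintro ⟨a, ha⟩
      rw [Algebra.adjoin_range_eq_range_aeval] at ha
      obtain ⟨b, rfl⟩ := ha
      exact hφV b
    have hsV : s ∈ V := by
      have h2 : Algebra.adjoin (Algebra.adjoin k (Set.range t')) {z⁻¹} ≤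
          { V.toSubring with algebraMap_mem' := hRV : Subalgebra (Algebra.adjoin k (Set.range t')) K } := by
        rw [Algebra.adjoin_le_iff]
        rintro _ rfl
        exact hy
      exact h2 hs
    obtain ⟨a, ha⟩ : ∃ a, MvPolynomial.aeval t' a = (r : K) := by
      have h2 : (r : K) ∈ (MvPolynomial.aeval (R := k) t').range := by
        rw [← Algebra.adjoin_range_eq_range_aeval]
        exact r.2
      exact h2
    have ha0 : a ≠ 0 := by
      rintro rfl
      rw [map_zero] at ha
      exact hr0 (Subtype.ext ha.symm)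
    have h3 : φV a = ⟨z⁻¹, hy⟩ * ⟨s, hsV⟩ := by
      apply Subtype.ext
      change MvPolynomial.aeval t' a = z⁻¹ * s
      rw [ha, hr]
      rfl
    have h4 : ρ ⟨z⁻¹, hy⟩ = 0 := by
      by_contra hne
      have h5 := (hρ0 ⟨z⁻¹, hy⟩ (fun h => hy0 (congrArg Subtype.val h))).1 hne
      apply hz
      simpa using h5
    have h5 : MvPolynomial.aeval τ' a = 0 := by
      rw [hψ]
      change ρ (φV a) = 0
      rw [h3, map_mul, h4, zero_mul]
    exact ha0 (hτ' (by rw [h5, map_zero]))
  obtain ⟨π, hπ, hπq⟩ := HeightOne_core τ' τ hτ halgτ hnot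
  refine ⟨hk, ht', π, hπ, fun q hq => ?_⟩
  rw [← hπq, hψ]
  exact (hρ0 _ (hφ0 q hq)).symm

theorem t_HeightOne : S_HeightOne.{u} := by
  intro k K _ _ _ ν t' hi halg V hk ht' hV t ht hti hunit heq
  exact HeightOne_main k K ν t' hi halg V hk ht' hV t ht hti hunit heq

end Pool.Agent.Lib.MP_8bcb2e_ag.B
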