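import Pool.Agent.Lib.MP_8bcb2e_ag.B.SpecC

set_option autoImplicit false

universe u

namespace Pool.Agent.Lib.MP_8bcb2e_ag.B

open KaehlerDifferential

theorem t_LocCoord : S_LocCoord.{u} := by
  intro k K _ _ _ n O V x hx hV
  refine ⟨fun i => hV.1 (hx.mem i), hx.basis, fun b hb => ?_⟩
  obtain ⟨w, hw, hw0, hwV, hwb⟩ := hV.2 b hb
  obtain ⟨c, hc, h1⟩ := hx.gen _ hwb
  obtain ⟨c', hc', h2⟩ := hx.gen _ hw
  refine ⟨fun i => w⁻¹ * c i - w⁻¹ * b * c' i, fun i => ?_, ?_⟩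
  · exact V.toSubring.sub_mem (V.mul_mem _ _ hwV (hV.1 (hc i)))
      (V.mul_mem _ _ (V.mul_mem _ _ hwV hb) (hV.1 (hc' i)))
  · have h3 : D k K (w * b) = w • D k K b + b • D k K w := Derivation.leibniz _ _ _
    have h4 : D k K b = w⁻¹ • (D k K (w * b)) - (w⁻¹ * b) • D k K w := by
      rw [h3, smul_add, smul_smul, smul_smul, inv_mul_cancel₀ hw0, one_smul, add_sub_cancel_right]
    rw [h4, h1, h2, Finset.smul_sum, Finset.smul_sum, ← Finset.sum_sub_distrib]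
    refine Finset.sum_congr rfl fun i _ => ?_
    rw [smul_smul, smul_smul, sub_smul]

end Pool.Agent.Lib.MP_8bcb2e_ag.B
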