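import Pool.Agent.Lib.MP_8bcb2e_ag.B.SpecC
import Pool.Agent.Lib.MP_8bcb2e_ag.TraceExists

set_option autoImplicit false

universe u

namespace Pool.Agent.Lib.MP_8bcb2e_ag.B

open KaehlerDifferential

theorem t_MonoIndep : S_MonoIndep.{u} := by
  intro k L _ _ _ p _ _ ν y hy c hc β
  have hp : p.Prime := Fact.out
  have hLp : CharP L p := charP_of_injective_algebraMap (algebraMap k L).injective p
  have hne : NeZero p := ⟨hp.ne_zero⟩
  obtain ⟨E, w, hw, hE⟩ := TE.exists_top p y hy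
  let δ : Fin ν → Fin p := fun i => ⟨p - 1 - β i, by have := hp.pos; omega⟩
  let σ : (Fin ν → Fin p) ≃ (Fin ν → Fin p) := Equiv.addRight δ
  let c' : (Fin ν → Fin p) → L := fun γ =>
    c (σ.symm γ) * ∏ i, y i ^ (((σ.symm γ i : ℕ) + (δ i : ℕ)) / p)
  have h1 : ∑ γ, c' γ ^ p * ∏ i, y i ^ (γ i : ℕ) = 0 := by
    rw [← Equiv.sum_comp σ]
    have h2 : ∀ α : Fin ν → Fin p, c' (σ α) ^ p * ∏ i, y i ^ (σ α i : ℕ) =
        (c α ^ p * ∏ i, y i ^ (α i : ℕ)) * ∏ i, y i ^ (δ i : ℕ) := by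
      intro α
      simp only [c', Equiv.symm_apply_apply]
      rw [mul_pow, ← Finset.prod_pow, mul_assoc, mul_assoc, ← Finset.prod_mul_distrib,
        ← Finset.prod_mul_distrib]
      congr 1
      refine Finset.prod_congr rfl fun i _ => ?_
      have h3 : ((σ α i : Fin p) : ℕ) = ((α i : ℕ) + (δ i : ℕ)) % p := by
        change ((α i + δ i : Fin p) : ℕ) = _
        rw [Fin.val_add]
      rw [h3, ← pow_mul, ← pow_add, ← pow_add, Nat.div_add_mod']
    rw [Finset.sum_congr rfl fun α _ => h2 α, ← Finset.sum_mul, hc, zero_mul]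
  have h4 := hE c'
  rw [h1, map_zero] at h4
  have h5 : c' (fun _ => ⟨p - 1, Nat.sub_lt hp.pos one_pos⟩) = c β := by
    have h6 : σ β = fun _ => ⟨p - 1, Nat.sub_lt hp.pos one_pos⟩ := by
      funext i
      apply Fin.ext
      change ((β i + δ i : Fin p) : ℕ) = _
      rw [Fin.val_add]
      have h7 : (β i : ℕ) + (δ i : ℕ) = p - 1 := by
        change (β i : ℕ) + (p - 1 - β i) = p - 1
        have := (β i).2
        omega
      rw [h7]
      exact Nat.mod_eq_of_lt (Nat.sub_lt hp.pos one_pos)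
    rw [← h6]
    simp only [c', Equiv.symm_apply_apply]
    have h8 : ∏ i, y i ^ (((β i : ℕ) + (δ i : ℕ)) / p) = 1 := by
      refine Finset.prod_eq_one fun i _ => ?_
      have h7 : (β i : ℕ) + (δ i : ℕ) = p - 1 := by
        change (β i : ℕ) + (p - 1 - β i) = p - 1
        have := (β i).2
        omega
      rw [h7, Nat.div_eq_of_lt (Nat.sub_lt hp.pos one_pos), pow_zero]
    rw [h8, mul_one]
  rw [h5] at h4
  have h9 : c β ^ p = 0 := by
    rcases mul_eq_zero.1 h4.symm with h | h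
    · exact absurd h hw
    · exact h
  exact pow_eq_zero_iff hp.ne_zero |>.1 h9

end Pool.Agent.Lib.MP_8bcb2e_ag.B
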