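import Pool.Agent.Lib.MP_8bcb2e_ag.B.SpecC
import Pool.Agent.Lib.MP_8bcb2e_ag.Spread

set_option autoImplicit false

universe u

namespace Pool.Agent.Lib.MP_8bcb2e_ag.B

theorem t_MonoSpan : S_MonoSpan.{u} := by
  intro k K _ _ _ _ p _ _ ν t T hadd hpow e W θ hW1
  have hp : p.Prime := Fact.out
  have hq0 : 0 < p ^ e := pow_pos hp.pos e
  have hT0 : ∀ e : ℕ, T^[e] 0 = 0 := by
    intro e
    have h1 := iterate_add T hadd e 0 0
    rw [add_zero] at h1
    exact left_eq_add.mp h1
  have hW2 : ∀ (f : MvPolynomial (Fin ν) k) (c : K),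
      c ∈ IntermediateField.adjoin k (Set.range t) →
      T^[e] (c ^ p ^ e * (MvPolynomial.aeval t f * θ)) ∈ W := by
    intro f
    induction f using MvPolynomial.induction_on' with
    | monomial β u =>
      intro c hc
      obtain ⟨u', hu'⟩ : ∃ u' : k, u' ^ p ^ e = u := by
        have h1 : Function.Surjective (iterateFrobenius k p e) :=
          (bijective_iterateFrobenius k p e).2
        obtain ⟨u', h2⟩ := h1 u
        exact ⟨u', by rw [← h2, iterateFrobenius_def]⟩
      have h1 : c ^ p ^ e * (MvPolynomial.aeval t (MvPolynomial.monomial β u) * θ) =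
          (c * (algebraMap k K u' * ∏ i, t i ^ (β i / p ^ e))) ^ p ^ e *
            ((∏ i, t i ^ (β i % p ^ e)) * θ) := by
        have h2 : (∏ i, t i ^ β i) =
            (∏ i, t i ^ (β i / p ^ e)) ^ p ^ e * ∏ i, t i ^ (β i % p ^ e) := by
          rw [← Finset.prod_pow, ← Finset.prod_mul_distrib]
          refine Finset.prod_congr rfl fun i _ => ?_
          rw [← pow_mul, ← pow_add, mul_comm (β i / p ^ e), Nat.div_add_mod]
        rw [MvPolynomial.aeval_monomial, Finsupp.prod_fintype _ _ (fun i => pow_zero _), h2,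
          ← hu', map_pow, mul_pow, mul_pow]
        ring
      rw [h1, iterate_pow_mul p T hpow]
      have h3 : c * (algebraMap k K u' * ∏ i, t i ^ (β i / p ^ e)) ∈
          IntermediateField.adjoin k (Set.range t) := by
        refine mul_mem hc (mul_mem (IntermediateField.algebraMap_mem _ _)
          (prod_mem fun i _ => pow_mem (IntermediateField.subset_adjoin _ _ (Set.mem_range_self i)) _))
      exact W.smul_mem (⟨_, h3⟩ : IntermediateField.adjoin k (Set.range t))
        (hW1 _ (fun i => Nat.mod_lt _ hq0))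
    | add f g hf hg =>
      intro c hc
      rw [map_add, add_mul, mul_add, iterate_add T hadd]
      exact W.add_mem (hf c hc) (hg c hc)
  intro ε hε
  obtain ⟨r, s, rfl⟩ := (IntermediateField.mem_adjoin_range_iff k t ε).1 hε
  by_cases hs : MvPolynomial.aeval t s = 0
  · rw [hs, div_zero, zero_mul, hT0]
    exact W.zero_mem
  · have h1 : MvPolynomial.aeval t r / MvPolynomial.aeval t s * θ =
        ((MvPolynomial.aeval t s)⁻¹) ^ p ^ e *
          (MvPolynomial.aeval t (r * s ^ (p ^ e - 1)) * θ) := by
      obtain ⟨m, hm⟩ : ∃ m, p ^ e = m + 1 := ⟨p ^ e - 1, by omega⟩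
      rw [hm, Nat.add_sub_cancel, map_mul, map_pow, inv_pow, pow_succ]
      field_simp
    rw [h1]
    refine hW2 _ _ (inv_mem ?_)
    exact (IntermediateField.mem_adjoin_range_iff k t (MvPolynomial.aeval t s)).2
      ⟨s, 1, by rw [map_one, div_one]⟩

end Pool.Agent.Lib.MP_8bcb2e_ag.B
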