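import Pool.Agent.Lib.MP_8bcb2e_ag.B.SpecC
import Pool.Agent.Lib.MP_8bcb2e_ag.DerivBound

set_option autoImplicit false

universe u

namespace Pool.Agent.Lib.MP_8bcb2e_ag.B

theorem t_Places : S_Places.{u} := by
  intro hDM hDvr hApp hFZ k K _ _ _ E hfg
  have hE : ∀ (V : Pl E) (a : E), algebraMap E K a ∈ V.1 := fun V a => V.2.1 _ a.2
  choose o ho0 homul homem hounif hores using fun V : Pl E =>
    hDvr hDM E K hfg V.1 (hE V) V.2.2
  have ho1 : ∀ V, o V 1 = 0 := by
    intro V
    have := homul V 1 1 one_ne_zero one_ne_zero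
    rw [one_mul] at this
    omega
  have hoinv : ∀ V a, a ≠ 0 → o V a⁻¹ = - o V a := by
    intro V a ha
    have := homul V a a⁻¹ ha (inv_ne_zero ha)
    rw [mul_inv_cancel₀ ha, ho1] at this
    omega
  have hopow : ∀ V a (n : ℕ), a ≠ 0 → o V (a ^ n) = n * o V a := by
    intro V a n ha
    induction n with
    | zero => rw [pow_zero, ho1]; simp
    | succ n ih => rw [pow_succ, homul V _ _ (pow_ne_zero n ha) ha, ih]; push_cast; ring
  have hadd' : ∀ V a b, a ≠ 0 → b ≠ 0 → a + b ≠ 0 → o V a ≤ o V b → o V a ≤ o V (a + b) := by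
    intro V a b ha hb hab hle
    have h1 : b / a ∈ V.1 := by
      rw [homem V _ (div_ne_zero hb ha), div_eq_mul_inv, homul V _ _ hb (inv_ne_zero ha),
        hoinv V a ha]
      omega
    have h2 : 1 + b / a ∈ V.1 := V.1.add_mem _ _ V.1.one_mem h1
    have h3 : a + b = a * (1 + b / a) := by field_simp
    have h4 : 1 + b / a ≠ 0 := by
      intro h
      rw [h3, h, mul_zero] at hab
      exact hab rfl
    rw [h3, homul V _ _ ha h4]
    have := (homem V _ h4).1 h2
    omega
  have hadd : ∀ V a b, a ≠ 0 → b ≠ 0 → a + b ≠ 0 → min (o V a) (o V b) ≤ o V (a + b) := by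
    intro V a b ha hb hab
    rcases le_total (o V a) (o V b) with h | h
    · rw [min_eq_left h]
      exact hadd' V a b ha hb hab h
    · rw [min_eq_right h, add_comm]
      exact hadd' V b a hb ha (by rwa [add_comm]) h
  have hconst : ∀ V (a : E), o V (algebraMap E K a) = 0 := by
    intro V a
    rcases eq_or_ne a 0 with rfl | ha
    · rw [map_zero, ho0]
    · have ha' : algebraMap E K a ≠ 0 := by
        rwa [Ne, FaithfulSMul.algebraMap_eq_zero_iff]
      have h1 := (homem V _ ha').1 (hE V a)
      have h2 := (homem V _ (inv_ne_zero ha')).1 (by rw [← map_inv₀]; exact hE V _)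
      rw [hoinv V _ ha'] at h2
      omega
  have hinc : ∀ V V' : Pl E, V ≠ V' → ∃ a, a ≠ 0 ∧ 0 ≤ o V a ∧ o V' a < 0 := by
    intro V V' hVV
    by_contra! hcon
    apply hVV
    have hle : V.1 ≤ V'.1 := by
      intro a ha
      rcases eq_or_ne a 0 with rfl | ha0
      · exact V'.1.zero_mem
      · exact (homem V' a ha0).2 (hcon a ha0 ((homem V a ha0).1 ha))
    apply Subtype.ext
    apply le_antisymm hle
    intro a ha
    by_contra haV
    have ha0 : a ≠ 0 := by
      rintro rfl
      exact haV V.1.zero_mem
    have hneg : o V a < 0 := by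
      by_contra! h
      exact haV ((homem V a ha0).2 h)
    apply V'.2.2
    rw [eq_top_iff]
    intro b _
    rcases eq_or_ne b 0 with rfl | hb0
    · exact V'.1.zero_mem
    · have h1 : b * (a⁻¹) ^ (o V b).natAbs ∈ V.1 := by
        rw [homem V _ (mul_ne_zero hb0 (pow_ne_zero _ (inv_ne_zero ha0))),
          homul V _ _ hb0 (pow_ne_zero _ (inv_ne_zero ha0)), hopow V _ _ (inv_ne_zero ha0),
          hoinv V a ha0]
        have h2 : -o V b ≤ (o V b).natAbs := by omega
        nlinarith
      have h3 : b = b * (a⁻¹) ^ (o V b).natAbs * a ^ (o V b).natAbs := by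
        rw [mul_assoc, ← mul_pow, inv_mul_cancel₀ ha0, one_pow, mul_one]
      rw [h3]
      exact V'.1.mul_mem _ _ (hle h1) (pow_mem ha _)
  have happ := hApp K (Pl E) o ho0 homul hadd hinc
  refine ⟨{ ord := o
            ord_zero := ho0
            ord_mul := homul
            ord_add := hadd
            ord_const := hconst
            unif := hounif
            resfin := ?_
            alg := ?_
            fin := hFZ E K (Pl E) o ho0 homul hadd hconst happ hfg
            approx := happ
            fg := hfg }, fun V a => ?_⟩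
  · intro V
    obtain ⟨M, hM⟩ := hores V
    refine ⟨M, fun a ha => ?_⟩
    obtain ⟨l, hl, h⟩ := hM a fun j => by
      rcases eq_or_ne (a j) 0 with h0 | h0
      · rw [h0]; exact V.1.zero_mem
      · rcases ha j with h1 | h1
        · exact absurd h1 h0
        · exact (homem V _ h0).2 h1
    exact ⟨l, hl, h⟩
  · intro a ha
    have h1 : IsIntegral E.toSubfield.toSubring a := by
      apply isIntegral_of_forall_valuationSubring
      intro V hV
      by_cases htop : V = ⊤
      · rw [htop]; exact ValuationSubring.mem_top a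
      · let V' : Pl E := ⟨V, fun b hb => hV hb, htop⟩
        rcases ha V' with h | h
        · rw [h]; exact V.zero_mem
        · rcases eq_or_ne a 0 with rfl | h0
          · exact V.zero_mem
          · exact (homem V' a h0).2 h
    have h2 : IsIntegral E a := h1
    exact h2.isAlgebraic
  · rcases eq_or_ne a 0 with rfl | h0
    · exact ⟨fun _ => Or.inl rfl, fun _ => V.1.zero_mem⟩
    · constructor
      · intro h
        exact Or.inr ((homem V a h0).1 h)
      · rintro (h | h)
        · exact absurd h h0
        · exact (homem V a h0).2 h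

end Pool.Agent.Lib.MP_8bcb2e_ag.B
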