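import Pool.Agent.Lib.MP_8bcb2e_ag.B.SpecC

/-!
# Poles

A form that is regular at all places over `k(t)` becomes a section after multiplication by a nonzero
polynomial in `t` and a power of `s`.
-/

set_option autoImplicit false

universe u

namespace Pool.Agent.Lib.MP_8bcb2e_ag.B

open KaehlerDifferential

section

variable {k K : Type u} [Field k] [Field K] [Algebra k K]

/-- a valuation ring that contains `k` and the `t i` contains `k[t]` -/
private theorem Poles_adjoin_mem {ν : ℕ} (t : Fin ν → K) (V : ValuationSubring K)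
    (hk : ∀ c : k, algebraMap k K c ∈ V) (ht : ∀ i, t i ∈ V) :
    ∀ f ∈ Algebra.adjoin k (Set.range t), f ∈ V := by
  intro f hf
  induction hf using Algebra.adjoin_induction with
  | mem x hx =>
    obtain ⟨i, rfl⟩ := hx
    exact ht i
  | algebraMap c => exact hk c
  | add x y _ _ hx hy => exact V.add_mem _ _ hx hy
  | mul x y _ _ hx hy => exact V.mul_mem _ _ hx hy

/-- if `V` contains `k[t]` and the inverses of its nonzero elements then it contains `k(t)` -/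
private theorem Poles_field_mem {ν : ℕ} (t : Fin ν → K) (V : ValuationSubring K)
    (hk : ∀ c : k, algebraMap k K c ∈ V) (ht : ∀ i, t i ∈ V)
    (h : ∀ f ∈ Algebra.adjoin k (Set.range t), f ≠ 0 → f⁻¹ ∈ V) :
    ∀ a ∈ IntermediateField.adjoin k (Set.range t), a ∈ V := by
  intro a ha
  rw [IntermediateField.mem_adjoin_iff_div] at ha
  obtain ⟨r, hr, s, hs, rfl⟩ := ha
  rw [div_eq_mul_inv]
  refine V.mul_mem _ _ (Poles_adjoin_mem t V hk ht r hr) ?_
  by_cases hs0 : s = 0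
  · rw [hs0, inv_zero]
    exact V.zero_mem
  · exact h s hs hs0

/-- a larger power -/
private theorem Poles_pow_mono (V : ValuationSubring K) {y a : K} (hy : y ∈ V) {M M' : ℕ}
    (h : y ^ M * a ∈ V) (hM : M ≤ M') : y ^ M' * a ∈ V := by
  obtain ⟨d, rfl⟩ := Nat.exists_eq_add_of_le hM
  have h1 : y ^ (M + d) * a = y ^ d * (y ^ M * a) := by
    rw [pow_add]
    ring
  rw [h1]
  exact V.mul_mem _ _ (pow_mem hy d) h

/-- the exponents and the polynomial at one valuation ring -/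
private theorem Poles_single {n : ℕ} {𝒪 : Set (Subring K)} (h𝒪 : IsSmoothModel k n 𝒪)
    (hD : HasDivisors k n 𝒪) {ν : ℕ} (t : Fin ν → K) (V : ValuationSubring K)
    (hV : V.toSubring ∈ 𝒪)
    (hE : ¬ ∀ a ∈ IntermediateField.adjoin k (Set.range t), a ∈ V) (a σ : K) :
    ∃ (f : K) (M : ℕ), f ∈ Algebra.adjoin k (Set.range t) ∧ f ≠ 0 ∧
      ((∀ i, t i ∈ V) → ∀ M', M ≤ M' → f ^ M' * a ∈ V) ∧
      (σ ∈ V → σ⁻¹ ∉ V → ∀ M', M ≤ M' → σ ^ M' * a ∈ V) := by
  have hk : ∀ c : k, algebraMap k K c ∈ V := fun c => h𝒪.base _ hV c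
  have h1 : ∃ f ∈ Algebra.adjoin k (Set.range t), f ≠ 0 ∧
      ∃ M : ℕ, (∀ i, t i ∈ V) → ∀ M', M ≤ M' → f ^ M' * a ∈ V := by
    by_cases ht : ∀ i, t i ∈ V
    · by_cases h : ∀ f ∈ Algebra.adjoin k (Set.range t), f ≠ 0 → f⁻¹ ∈ V
      · exact absurd (Poles_field_mem t V hk ht h) hE
      · push Not at h
        obtain ⟨f, hf, hf0, hfV⟩ := h
        have hfV' : f ∈ V := Poles_adjoin_mem t V hk ht f hf
        obtain ⟨M, hM⟩ := hD.arch V hV f hfV' hfV a
        exact ⟨f, hf, hf0, M, fun _ M' hM' => Poles_pow_mono V hfV' hM hM'⟩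
    · exact ⟨1, one_mem _, one_ne_zero, 0, fun h => absurd h ht⟩
  obtain ⟨f, hf, hf0, M₁, hM₁⟩ := h1
  have h2 : ∃ M : ℕ, σ ∈ V → σ⁻¹ ∉ V → ∀ M', M ≤ M' → σ ^ M' * a ∈ V := by
    by_cases hσ : σ ∈ V ∧ σ⁻¹ ∉ V
    · obtain ⟨M, hM⟩ := hD.arch V hV σ hσ.1 hσ.2 a
      exact ⟨M, fun _ _ M' hM' => Poles_pow_mono V hσ.1 hM hM'⟩
    · exact ⟨0, fun h h' => absurd ⟨h, h'⟩ hσ⟩
  obtain ⟨M₂, hM₂⟩ := h2
  exact ⟨f, max M₁ M₂, hf, hf0, fun h M' hM' => hM₁ h M' (le_trans (le_max_left _ _) hM'),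
    fun h h' M' hM' => hM₂ h h' M' (le_trans (le_max_right _ _) hM')⟩

end

theorem t_Poles : S_Poles.{u} := by
  classical
  intro hLC hPS k K _ _ _ n Ψ 𝒪 hΨ h𝒪 hD r ν t s hs0 hs hts m F hF
  obtain ⟨N, X, hX⟩ := hD.finCoord
  -- the values of the form
  set J : Fin N → K := fun j => Ψ fun i => D k K (X j i) with hJ
  set A : Fin N → K := fun j => F / J j ^ m with hA
  set sg : Fin N → K := fun j => s / J j ^ r with hsg
  -- the bad pairs
  set S : Set (Fin N × ValuationSubring K) :=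
    {x | x.2.toSubring ∈ 𝒪 ∧ IsCoord k x.2.toSubring (X x.1) ∧ A x.1 ∉ x.2} with hS
  have hSfin : S.Finite := by
    have h1 : (⋃ j : Fin N, (fun V : ValuationSubring K => (j, V)) ''
        {V : ValuationSubring K | V.toSubring ∈ 𝒪 ∧ A j ∉ V}).Finite :=
      Set.finite_iUnion fun j => (hD.finite (A j)).image _
    refine h1.subset ?_
    rintro ⟨j, V⟩ ⟨h2, _, h3⟩
    exact Set.mem_iUnion.2 ⟨j, V, ⟨h2, h3⟩, rfl⟩
  -- at the bad pairs the field is not contained in the valuation ring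
  have hbad : ∀ x ∈ S, ¬ ∀ a ∈ IntermediateField.adjoin k (Set.range t), a ∈ x.2 := by
    rintro ⟨j, V⟩ ⟨h1, h2, h3⟩ h4
    have hne : V ≠ ⊤ := by
      intro h
      apply h3
      change A j ∈ V
      rw [h]
      exact ValuationSubring.mem_top _
    have h5 := hF ⟨V, h4, hne⟩
    obtain ⟨G, hG, h6⟩ := (regularAt_iff Ψ h2 m F).1 h5
    apply h3
    have h7 : A j = G := by
      have h8 : J j ^ m ≠ 0 := pow_ne_zero _ (psi_ne_zero Ψ h2.basis hΨ)
      change F / J j ^ m = G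
      rw [div_eq_iff h8]
      exact h6
    change A j ∈ V
    rw [h7]
    exact hG
  have hch : ∀ x : Fin N × ValuationSubring K, ∃ (f : K) (M : ℕ),
      f ∈ Algebra.adjoin k (Set.range t) ∧ f ≠ 0 ∧ (x ∈ S →
        ((∀ i, t i ∈ x.2) → ∀ M', M ≤ M' → f ^ M' * A x.1 ∈ x.2) ∧
        (sg x.1 ∈ x.2 → (sg x.1)⁻¹ ∉ x.2 → ∀ M', M ≤ M' → sg x.1 ^ M' * A x.1 ∈ x.2)) := by
    intro x
    by_cases hx : x ∈ S
    · obtain ⟨f, M, h1, h2, h3, h4⟩ :=
        Poles_single h𝒪 hD t x.2 hx.1 (hbad x hx) (A x.1) (sg x.1)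
      exact ⟨f, M, h1, h2, fun _ => ⟨h3, h4⟩⟩
    · exact ⟨1, 0, one_mem _, one_ne_zero, fun h => absurd h hx⟩
  choose f M hfa hf0 hfM using hch
  set Mt : ℕ := hSfin.toFinset.sup M with hMt
  have hMle : ∀ x ∈ S, M x ≤ Mt := fun x hx =>
    Finset.le_sup (f := M) (hSfin.mem_toFinset.2 hx)
  set g : K := ∏ x ∈ hSfin.toFinset, f x ^ Mt with hg
  have hga : g ∈ Algebra.adjoin k (Set.range t) :=
    prod_mem fun x _ => pow_mem (hfa x) _
  have hg0 : g ≠ 0 := Finset.prod_ne_zero_iff.2 fun x _ => pow_ne_zero _ (hf0 x)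
  obtain ⟨d₀, hd₀⟩ := hPS k K n Ψ 𝒪 h𝒪 r ν t s hs hts g hga
  refine ⟨g, hga, hg0, d₀ + Mt, ?_⟩
  intro O hO
  obtain ⟨j, hj⟩ := hX O hO
  have hJ0 : J j ≠ 0 := psi_ne_zero Ψ hj.basis hΨ
  have hJr : J j ^ r ≠ 0 := pow_ne_zero _ hJ0
  have hJm : J j ^ m ≠ 0 := pow_ne_zero _ hJ0
  have hsJ : s = sg j * J j ^ r := (div_mul_cancel₀ s hJr).symm
  have hFJ : F = A j * J j ^ m := (div_mul_cancel₀ F hJm).symm
  have hsg0 : sg j ≠ 0 := div_ne_zero hs0 hJr
  -- `σ ∈ O`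
  have hsgO : sg j ∈ O := by
    obtain ⟨G, hG, h1⟩ := (regularAt_iff Ψ hj r s).1 (hs O hO)
    have h2 : sg j = G := by
      change s / J j ^ r = G
      rw [div_eq_iff hJr]
      exact h1
    rw [h2]
    exact hG
  have htO : ∀ i, t i * sg j ∈ O := by
    intro i
    obtain ⟨G, hG, h1⟩ := (regularAt_iff Ψ hj r (t i * s)).1 (hts i O hO)
    have h2 : t i * sg j = G := by
      apply mul_right_cancel₀ hJr
      rw [mul_assoc, ← hsJ]
      exact h1
    rw [h2]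
    exact hG
  have hgO : g * sg j ^ d₀ ∈ O := by
    obtain ⟨G, hG, h1⟩ := (regularAt_iff Ψ hj (d₀ * r) (g * s ^ d₀)).1 (hd₀ d₀ le_rfl O hO)
    have h3 : J j ^ (d₀ * r) ≠ 0 := pow_ne_zero _ hJ0
    have h2 : g * sg j ^ d₀ = G := by
      apply mul_right_cancel₀ h3
      have h4 : g * sg j ^ d₀ * J j ^ (d₀ * r) = g * s ^ d₀ := by
        conv_rhs => rw [hsJ]
        rw [mul_pow, ← pow_mul, mul_comm r d₀]
        ring
      rw [h4]
      exact h1
    rw [h2]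
    exact hG
  -- the coefficient
  refine (regularAt_iff Ψ hj _ _).2 ⟨sg j ^ (d₀ + Mt) * (g * A j), ?_, ?_⟩
  swap
  · change s ^ (d₀ + Mt) * (g * F) = sg j ^ (d₀ + Mt) * (g * A j) * J j ^ (m + r * (d₀ + Mt))
    conv_lhs => rw [hsJ, hFJ]
    rw [mul_pow, ← pow_mul, pow_add (J j) m]
    ring
  refine hD.hartogs O hO _ fun V hV hloc => ?_
  have hVc : IsCoord k V.toSubring (X j) := hLC k K n O V (X j) hj hloc
  have hle : ∀ z ∈ O, z ∈ V := fun z hz => hloc.1 hz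
  have hsgV : sg j ∈ V := hle _ hsgO
  have hgV : g * sg j ^ d₀ ∈ V := hle _ hgO
  by_cases haV : A j ∈ V
  · have h1 : sg j ^ (d₀ + Mt) * (g * A j) = (g * sg j ^ d₀) * (sg j ^ Mt * A j) := by
      rw [pow_add]
      ring
    rw [h1]
    exact V.mul_mem _ _ hgV (V.mul_mem _ _ (pow_mem hsgV _) haV)
  · have hxS : ((j, V) : Fin N × ValuationSubring K) ∈ S := ⟨hV, hVc, haV⟩
    obtain ⟨hf1, hf2⟩ := hfM (j, V) hxS
    by_cases hinv : (sg j)⁻¹ ∈ V
    · have htV : ∀ i, t i ∈ V := by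
        intro i
        have h1 : t i = (t i * sg j) * (sg j)⁻¹ := by
          rw [mul_assoc, mul_inv_cancel₀ hsg0, mul_one]
        rw [h1]
        exact V.mul_mem _ _ (hle _ (htO i)) hinv
      have h2 := hf1 htV Mt (hMle _ hxS)
      have hk : ∀ c : k, algebraMap k K c ∈ V := fun c => h𝒪.base _ hV c
      have h3 : g = f (j, V) ^ Mt * ∏ x ∈ hSfin.toFinset.erase (j, V), f x ^ Mt :=
        (Finset.mul_prod_erase _ _ (hSfin.mem_toFinset.2 hxS)).symm
      have h4 : ∏ x ∈ hSfin.toFinset.erase (j, V), f x ^ Mt ∈ V :=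
        prod_mem fun x _ => pow_mem (Poles_adjoin_mem t V hk htV _ (hfa x)) _
      have h5 : sg j ^ (d₀ + Mt) * (g * A j) = sg j ^ (d₀ + Mt) *
          ((f (j, V) ^ Mt * A j) * ∏ x ∈ hSfin.toFinset.erase (j, V), f x ^ Mt) := by
        rw [h3]
        ring
      rw [h5]
      exact V.mul_mem _ _ (pow_mem hsgV _) (V.mul_mem _ _ h2 h4)
    · have h2 := hf2 hsgV hinv Mt (hMle _ hxS)
      have h1 : sg j ^ (d₀ + Mt) * (g * A j) = (g * sg j ^ d₀) * (sg j ^ Mt * A j) := by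
        rw [pow_add]
        ring
      rw [h1]
      exact V.mul_mem _ _ hgV h2

end Pool.Agent.Lib.MP_8bcb2e_ag.B
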