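import Pool.Agent.Lib.MP_8bcb2e_ag.B.SpecC
import Pool.Agent.Lib.MP_8bcb2e_ag.Bounded

set_option autoImplicit false

universe u

namespace Pool.Agent.Lib.MP_8bcb2e_ag.B

open KaehlerDifferential

theorem t_PolySec : S_PolySec.{u} := by
  intro k K _ _ _ n Ψ 𝒪 h𝒪 r ν t s hs hts f hf
  have h1 : f ∈ bdd h𝒪 hs := adjoin_le_bdd h𝒪 hs hts hf
  rw [mem_bdd] at h1
  obtain ⟨N, hN⟩ := h1
  refine ⟨N, fun d hd => ?_⟩
  have h2 := mul_pow_mem_mono (s := 0) h𝒪 hs hd (by simpa using hN)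
  simpa using h2

end Pool.Agent.Lib.MP_8bcb2e_ag.B
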