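import Pool.Agent.Lib.MP_8bcb2e_ag.B.SpecC

/-!
# A differential basis of the residue field of a place
-/

set_option autoImplicit false

universe u

namespace Pool.Agent.Lib.MP_8bcb2e_ag.B

open KaehlerDifferential

/-- A vector space in which any `M + 1` vectors are dependent is finite dimensional. -/
theorem ResBasis_fin {E κ : Type u} [Field E] [Field κ] [Algebra E κ] (M : ℕ)
    (h : ∀ a : Fin (M + 1) → κ, ∃ l : Fin (M + 1) → E, (∃ j, l j ≠ 0) ∧ ∑ j, l j • a j = 0) :
    Module.Finite E κ := by
  have h1 : Module.rank E κ ≤ M := by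
    refine rank_le fun s hs => ?_
    by_contra! hlt
    have hc : M + 1 ≤ s.card := hlt
    obtain ⟨e⟩ : Nonempty (Fin (M + 1) ↪ s) := by
      apply Function.Embedding.nonempty_of_card_le
      simpa using hc
    obtain ⟨l, ⟨j, hj⟩, hl⟩ := h fun j => ((e j : s) : κ)
    have h2 := hs.comp e e.injective
    exact hj (Fintype.linearIndependent_iff.1 h2 l hl j)
  rw [← Module.rank_lt_aleph0_iff]
  exact h1.trans_lt Cardinal.natCast_lt_aleph0

/-- The generators form a transcendence basis. -/
theorem ResBasis_tr {k K : Type u} [Field k] [Field K] [Algebra k K] {ν : ℕ} (t : Fin ν → K)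
    (ht : AlgebraicIndependent k t) :
    IsTranscendenceBasis k (fun i => (⟨t i, IntermediateField.subset_adjoin k _ ⟨i, rfl⟩⟩ :
      IntermediateField.adjoin k (Set.range t))) := by
  set tE : Fin ν → IntermediateField.adjoin k (Set.range t) :=
    fun i => ⟨t i, IntermediateField.subset_adjoin k _ ⟨i, rfl⟩⟩ with htE
  have h1 : AlgebraicIndependent k tE :=
    (AlgHom.algebraicIndependent_iff (IntermediateField.adjoin k (Set.range t)).val
      (IntermediateField.adjoin k (Set.range t)).val.injective).1 ht
  rw [isTranscendenceBasis_iff_algebraicIndependent_isAlgebraic]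
  refine ⟨h1, ?_⟩
  rw [← IntermediateField.isAlgebraic_adjoin_iff_top]
  have h2 : IntermediateField.adjoin k (Set.range tE) = ⊤ := by
    apply IntermediateField.lift_injective
    rw [IntermediateField.lift_adjoin, IntermediateField.lift_top, ← Set.range_comp]
    rfl
  refine ⟨fun x => ?_⟩
  have hx : x ∈ IntermediateField.adjoin k (Set.range tE) := by
    rw [h2]
    trivial
  exact isAlgebraic_algebraMap (⟨x, hx⟩ : IntermediateField.adjoin k (Set.range tE))

theorem t_ResBasis : S_ResBasis.{u} := by
  intro hDep hDiff k K _ _ _ _ ν t ht hfin V hk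
  let algk : Algebra k (IsLocalRing.ResidueField V.1) :=
    ((IsLocalRing.residue V.1).comp ((algebraMap k K).codRestrict V.1.toSubring hk)).toAlgebra
  have hEV : ∀ a : IntermediateField.adjoin k (Set.range t),
      algebraMap (IntermediateField.adjoin k (Set.range t)) K a ∈ V.1 := fun a => V.2.1 a.1 a.2
  let algE : Algebra (IntermediateField.adjoin k (Set.range t))
      (IsLocalRing.ResidueField V.1) :=
    ((IsLocalRing.residue V.1).comp ((algebraMap (IntermediateField.adjoin k (Set.range t))
      K).codRestrict V.1.toSubring hEV)).toAlgebra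
  have tow : IsScalarTower k (IntermediateField.adjoin k (Set.range t))
      (IsLocalRing.ResidueField V.1) := IsScalarTower.of_algebraMap_eq fun x => rfl
  -- a non-unit
  obtain ⟨z, hz⟩ : ∃ z : K, z ∉ V.1 := by
    by_contra! h
    exact V.2.2 (eq_top_iff.2 fun x _ => h x)
  have hz0 : z ≠ 0 := by
    rintro rfl
    exact hz V.1.zero_mem
  have hy : z⁻¹ ∈ V.1 := (V.1.mem_or_inv_mem z).resolve_left hz
  have hyi : (z⁻¹)⁻¹ ∉ V.1 := by rwa [inv_inv]
  obtain ⟨M, hM⟩ := hDep _ K hfin V.1 hEV z⁻¹ hy (inv_ne_zero hz0) hyi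
  have hres : IsLocalRing.residue V.1 ⟨z⁻¹, hy⟩ = 0 := by
    rw [IsLocalRing.residue_eq_zero_iff, IsLocalRing.mem_maximalIdeal, mem_nonunits_iff]
    intro hu
    obtain ⟨w, hw⟩ := hu.exists_right_inv
    have hw' : z⁻¹ * (w : K) = 1 := congrArg Subtype.val hw
    have hzw : z = (w : K) := by
      have := congrArg (fun a => z * a) hw'
      simp only [mul_one] at this
      rw [← this, mul_inv_cancel_left₀ hz0]
    exact hz (hzw ▸ w.2)
  have hfinE : Module.Finite (IntermediateField.adjoin k (Set.range t))
      (IsLocalRing.ResidueField V.1) := by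
    refine ResBasis_fin M fun a => ?_
    choose b hb using fun j => IsLocalRing.residue_surjective (a j)
    obtain ⟨l, hl, c, hc, hsum⟩ := hM (fun j => (b j : K)) fun j => (b j).2
    refine ⟨l, hl, ?_⟩
    have h1 : ∑ j, (⟨algebraMap _ K (l j), hEV (l j)⟩ : V.1) * b j = ⟨z⁻¹, hy⟩ * ⟨c, hc⟩ := by
      apply Subtype.ext
      rw [AddSubmonoidClass.coe_finsetSum]
      exact hsum
    have h2 := congrArg (IsLocalRing.residue V.1) h1
    rw [map_mul, hres, zero_mul, map_sum] at h2
    rw [← h2]
    refine Finset.sum_congr rfl fun j _ => ?_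
    rw [map_mul, hb, Algebra.smul_def]
    rfl
  have : Algebra.EssFiniteType k (IntermediateField.adjoin k (Set.range t)) :=
    IntermediateField.essFiniteType_iff.2
      (IntermediateField.fg_adjoin_of_finite (Set.finite_range t))
  have : Algebra.EssFiniteType k (IsLocalRing.ResidueField V.1) :=
    Algebra.EssFiniteType.comp k (IntermediateField.adjoin k (Set.range t)) _
  have htr : IsTranscendenceBasis k
      (algebraMap (IntermediateField.adjoin k (Set.range t)) (IsLocalRing.ResidueField V.1) ∘
        fun i => (⟨t i, IntermediateField.subset_adjoin k _ ⟨i, rfl⟩⟩ :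
          IntermediateField.adjoin k (Set.range t))) :=
    (ResBasis_tr t ht).algebraMap_comp
  exact hDiff k _ ν _ htr

end Pool.Agent.Lib.MP_8bcb2e_ag.B
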