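import Pool.Agent.Lib.MP_8bcb2e_ag.B.SpecC
import Pool.Agent.Lib.MP_8bcb2e_ag.SchemeCoord

/-!
# Finitely many coordinate systems on a smooth proper variety
-/

set_option autoImplicit false

universe u

namespace Pool.Agent.Lib.MP_8bcb2e_ag.B

open KaehlerDifferential AlgebraicGeometry CategoryTheory SchemeCoordAux

/-- Coordinates at a point are coordinates at all points of a neighbourhood. -/
theorem SchemeFinCoord_loc (k : Type u) [Field k] (X : Scheme.{u}) [IsIntegral X] (n : ℕ)
    (f : X ⟶ Spec (.of k)) [SmoothOfRelativeDimension n f] (x : X) :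
    letI := functionFieldAlgebra f
    ∃ (V : X.Opens) (Y : Fin n → X.functionField), x ∈ V ∧ ∀ z ∈ V, IsCoord k (localRing X z) Y := by
  obtain ⟨U, hU, V, hV, hx, e, hf⟩ :=
    SmoothOfRelativeDimension.exists_isStandardSmoothOfRelativeDimension (n := n) (f := f) x
  -- `U` is everything
  obtain rfl : U = ⊤ := by
    apply TopologicalSpace.Opens.ext
    have hfx : f x ∈ U := e hx
    ext z
    have : Subsingleton (Spec (.of k)) := inferInstanceAs (Subsingleton (PrimeSpectrum k))
    simp [Subsingleton.elim z (f x), hfx]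
  have hne : Nonempty V := ⟨⟨x, hx⟩⟩
  let g : k →+* Γ(X, V) := ((Scheme.ΓSpecIso (.of k)).inv ≫ f.appLE ⊤ V e).hom
  have hg : g.IsStandardSmoothOfRelativeDimension n := by
    have h := RingHom.isStandardSmoothOfRelativeDimension_respectsIso (n := n) |>.2
      (f.appLE ⊤ V e).hom (Scheme.ΓSpecIso (.of k)).symm.commRingCatIsoToRingEquiv hf
    exact h
  let algKB : Algebra k Γ(X, V) := g.toAlgebra
  let algKK : Algebra k X.functionField := functionFieldAlgebra f
  have tower : IsScalarTower k Γ(X, V) X.functionField := by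
    apply IsScalarTower.of_algebraMap_eq'
    have h1 : f.appLE ⊤ V e ≫ X.germToFunctionField V =
        f.appTop ≫ X.presheaf.germ ⊤ (genericPoint X) trivial := by
      rw [Scheme.Hom.appLE, Category.assoc, X.presheaf.germ_res]
      rfl
    have h2 : ((Scheme.ΓSpecIso (.of k)).inv ≫ f.appLE ⊤ V e) ≫ X.germToFunctionField V =
        (Scheme.ΓSpecIso (.of k)).inv ≫ f.appTop ≫
          X.presheaf.germ ⊤ (genericPoint X) trivial := by
      rw [Category.assoc, h1]
    exact (congrArg CommRingCat.Hom.hom h2).symm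
  have hfrac : IsFractionRing Γ(X, V) X.functionField :=
    functionField_isFractionRing_of_isAffineOpen X V hV
  have : Algebra.IsStandardSmoothOfRelativeDimension n k Γ(X, V) := hg
  obtain ⟨y, b, hb⟩ := exists_basis k Γ(X, V) n
  refine ⟨V, fun i => algebraMap _ _ (y i), hx, fun z hz => isCoord_of_basis y b hb
    (localRing X z) ?_ ?_⟩
  · intro β
    exact ⟨X.presheaf.germ V z hz β, Scheme.algebraMap_germ_eq_germToFunctionField X hz β⟩
  · rintro _ ⟨w, rfl⟩
    let algS := TopCat.Presheaf.algebra_section_stalk X.presheaf (⟨z, hz⟩ : V)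
    have hloc := hV.isLocalization_stalk ⟨z, hz⟩
    obtain ⟨β, s, rfl⟩ := IsLocalization.exists_mk'_eq
      (hV.primeIdealOf ⟨z, hz⟩).asIdeal.primeCompl w
    have hgerm : ∀ β : Γ(X, V), algebraMap Γ(X, V) (X.presheaf.stalk z) β =
        X.presheaf.germ V z hz β := fun _ => rfl
    have hK : ∀ β : Γ(X, V), algebraMap (X.presheaf.stalk z) X.functionField
        (algebraMap Γ(X, V) (X.presheaf.stalk z) β) = algebraMap Γ(X, V) X.functionField β :=
      fun β => Scheme.algebraMap_germ_eq_germToFunctionField X hz β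
    obtain ⟨w, hw⟩ := (IsLocalization.map_units (X.presheaf.stalk z) s).exists_right_inv
    have hw' : algebraMap Γ(X, V) X.functionField s *
        algebraMap (X.presheaf.stalk z) X.functionField w = 1 := by
      rw [← hK, ← map_mul, hw, map_one]
    have hs0 : algebraMap Γ(X, V) X.functionField s ≠ 0 := left_ne_zero_of_mul_eq_one hw'
    have hinv : (algebraMap Γ(X, V) X.functionField s)⁻¹ =
        algebraMap (X.presheaf.stalk z) X.functionField w :=
      (eq_inv_of_mul_eq_one_right hw').symm
    refine ⟨β, s, fun h => hs0 (by rw [h, map_zero]), ⟨w, hinv.symm⟩, ?_⟩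
    rw [eq_mul_inv_iff_mul_eq₀ hs0, ← hK, ← hK, ← map_mul, IsLocalization.mk'_spec]

theorem t_SchemeFinCoord : S_SchemeFinCoord.{u} := by
  intro k _ X _ n f _ _
  letI := functionFieldAlgebra f
  choose V Y hV hY using SchemeFinCoord_loc k X n f
  have : CompactSpace X := QuasiCompact.compactSpace_of_compactSpace f
  obtain ⟨t, ht⟩ := (isCompact_univ : IsCompact (Set.univ : Set X)).elim_finite_subcover
    (fun x => (V x : Set X)) (fun x => (V x).isOpen)
    (fun x _ => Set.mem_iUnion.2 ⟨x, hV x⟩)
  refine ⟨t.card, fun j => Y (t.equivFin.symm j), ?_⟩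
  rintro _ ⟨z, rfl⟩
  obtain ⟨x, hx, hz⟩ := Set.mem_iUnion₂.1 (ht (Set.mem_univ z))
  refine ⟨t.equivFin ⟨x, hx⟩, ?_⟩
  have h := hY x z hz
  simpa using h

end Pool.Agent.Lib.MP_8bcb2e_ag.B
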