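import Pool.Agent.Lib.MP_8bcb2e_ag.B.SpecC

/-!
# A rational function on a proper variety has finitely many polar prime divisors
-/

set_option autoImplicit false

universe u

open AlgebraicGeometry CategoryTheory TopologicalSpace

namespace Pool.Agent.Lib.MP_8bcb2e_ag.B

/-- Elements of a localization at a prime. -/
private theorem SchemeFinite_range {A T K : Type u} [CommRing A] [CommRing T] [Field K]
    [Algebra A T] [Algebra T K] [Algebra A K] [IsScalarTower A T K] (P : Ideal A) [P.IsPrime]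
    [IsLocalization.AtPrime T P] (z : K) : z ∈ (algebraMap T K).range ↔
      ∃ f g : A, g ∉ P ∧ z * algebraMap A K g = algebraMap A K f := by
  constructor
  · rintro ⟨s, rfl⟩
    obtain ⟨⟨f, g⟩, h⟩ := IsLocalization.surj P.primeCompl s
    refine ⟨f, g, g.2, ?_⟩
    have e1 := congrArg (algebraMap T K) h
    rw [map_mul] at e1
    simp only [← IsScalarTower.algebraMap_apply A T K] at e1
    exact e1
  · rintro ⟨f, g, hg, h⟩
    have ug : IsUnit (algebraMap A T g) := IsLocalization.map_units T (⟨g, hg⟩ : P.primeCompl)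
    have ug' : algebraMap A K g ≠ 0 := by
      rw [IsScalarTower.algebraMap_apply A T K]
      exact (ug.map (algebraMap T K)).ne_zero
    refine ⟨IsLocalization.mk' T f (⟨g, hg⟩ : P.primeCompl), ?_⟩
    apply mul_right_cancel₀ ug'
    rw [h, IsScalarTower.algebraMap_apply A T K g, ← map_mul]
    have := IsLocalization.mk'_spec T f (⟨g, hg⟩ : P.primeCompl)
    rw [this, ← IsScalarTower.algebraMap_apply]

/-- A noetherian valuation ring is of rank at most one. -/
private theorem SchemeFinite_arch {S K : Type u} [CommRing S] [IsDomain S] [IsNoetherianRing S]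
    [Field K] [Algebra S K] (hinj : Function.Injective (algebraMap S K)) (V : ValuationSubring K)
    (hV : V.toSubring = (algebraMap S K).range) (y : K) (hy : y ∈ V) (hy' : y⁻¹ ∉ V) (a : K) :
    ∃ M : ℕ, y ^ M * a ∈ V := by
  have hm : ∀ z : K, z ∈ V ↔ ∃ s : S, algebraMap S K s = z := by
    intro z
    have : z ∈ V.toSubring ↔ z ∈ (algebraMap S K).range := by rw [hV]
    exact this
  by_contra hno
  push Not at hno
  have ha0 : a ≠ 0 := by
    rintro rfl
    apply hno 0
    rw [mul_zero]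
    exact V.zero_mem
  have hy0 : y ≠ 0 := by
    rintro rfl
    apply hy'
    rw [inv_zero]
    exact V.zero_mem
  obtain ⟨s, hs⟩ := (hm y).1 hy
  have hsu : ¬ IsUnit s := by
    intro hu
    obtain ⟨t, ht⟩ := hu.exists_right_inv
    apply hy'
    refine (hm _).2 ⟨t, ?_⟩
    have h1 : y * algebraMap S K t = 1 := by rw [← hs, ← map_mul, ht, map_one]
    exact (eq_inv_of_mul_eq_one_right h1)
  have hinv : ∀ M : ℕ, ∃ t : S, algebraMap S K t = (y ^ M * a)⁻¹ := fun M =>
    (hm _).1 ((V.mem_or_inv_mem _).resolve_left (hno M))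
  obtain ⟨c, hc⟩ := hinv 0
  rw [pow_zero, one_mul] at hc
  have hcm : ∀ M : ℕ, c ∈ (Ideal.span {s}) ^ M := by
    intro M
    obtain ⟨t, ht⟩ := hinv M
    rw [Ideal.span_singleton_pow, Ideal.mem_span_singleton]
    refine ⟨t, hinj ?_⟩
    rw [hc, map_mul, map_pow, hs, ht, mul_inv, ← mul_assoc, mul_inv_cancel₀ (pow_ne_zero M hy0),
      one_mul]
  have hbot : (⨅ i : ℕ, (Ideal.span {s}) ^ i) = ⊥ := by
    refine Ideal.iInf_pow_eq_bot_of_isDomain _ ?_
    intro htop
    exact hsu (Ideal.span_singleton_eq_top.1 htop)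
  have hc0 : c = 0 := by
    have h1 : c ∈ (⨅ i : ℕ, (Ideal.span {s}) ^ i) := by
      rw [Ideal.mem_iInf]
      exact hcm
    rw [hbot] at h1
    exact h1
  rw [hc0, map_zero, eq_comm, inv_eq_zero] at hc
  exact ha0 hc

/-- The center of a valuation ring which is a local ring is minimal over a denominator. -/
private theorem SchemeFinite_minimal {A K : Type u} [CommRing A] [IsDomain A] [Field K]
    [Algebra A K] [IsFractionRing A K] (P : Ideal A) (hP : P.IsPrime) (V : ValuationSubring K)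
    (hV : ∀ z : K, z ∈ V ↔ ∃ f g : A, g ∉ P ∧ z * algebraMap A K g = algebraMap A K f)
    (harch : ∀ y ∈ V, y⁻¹ ∉ V → ∀ a : K, ∃ M : ℕ, y ^ M * a ∈ V) (a : K) (c g : A)
    (hg0 : g ≠ 0) (hag : a * algebraMap A K g = algebraMap A K c) (ha : a ∉ V) :
    P ∈ (Ideal.span {g}).minimalPrimes := by
  have hg : g ∈ P := by
    by_contra hg
    exact ha ((hV a).2 ⟨c, g, hg, hag⟩)
  have hle : Ideal.span {g} ≤ P := by
    rw [Ideal.span_singleton_le_iff_mem]
    exact hg
  refine ⟨⟨hP, hle⟩, fun Q hQ hQP => ?_⟩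
  intro q hq
  by_contra hqQ
  have hq0 : q ≠ 0 := fun h => hqQ (h ▸ Q.zero_mem)
  have hinj := IsFractionRing.injective A K
  have hqK : algebraMap A K q ≠ 0 := fun h => hq0 (hinj (by rw [h, map_zero]))
  have hgK : algebraMap A K g ≠ 0 := fun h => hg0 (hinj (by rw [h, map_zero]))
  have h1P : (1 : A) ∉ P := fun h => hP.ne_top ((Ideal.eq_top_iff_one P).2 h)
  have h1 : algebraMap A K q ∈ V := (hV _).2 ⟨q, 1, h1P, by rw [map_one, mul_one]⟩
  have h2 : (algebraMap A K q)⁻¹ ∉ V := by
    intro h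
    obtain ⟨f, b, hb, hfb⟩ := (hV _).1 h
    apply hb
    have h3 : b = q * f := by
      apply hinj
      rw [map_mul, ← hfb, ← mul_assoc, mul_inv_cancel₀ hqK, one_mul]
    rw [h3]
    exact P.mul_mem_right _ hq
  obtain ⟨M, hM⟩ := harch _ h1 h2 (algebraMap A K g)⁻¹
  obtain ⟨f, b, hb, hfb⟩ := (hV _).1 hM
  have h3 : q ^ M * b = g * f := by
    apply hinj
    rw [map_mul, map_mul, map_pow, ← hfb]
    field_simp
  have h4 : q ^ M * b ∈ Q := by
    rw [h3]
    exact Q.mul_mem_right _ (hQ.2 (Ideal.mem_span_singleton_self g))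
  rcases hQ.1.mem_or_mem h4 with h5 | h5
  · exact hqQ (hQ.1.mem_of_pow_mem M h5)
  · exact hb (hQP h5)

theorem t_SchemeFinite : S_SchemeFinite.{u} := by
  intro k _ X _ f _
  have hnoeth : IsLocallyNoetherian X := LocallyOfFiniteType.isLocallyNoetherian f
  have harch : ∀ V : ValuationSubring X.functionField, V.toSubring ∈ localRings X →
      ∀ y ∈ V, y⁻¹ ∉ V → ∀ a : X.functionField, ∃ M : ℕ, y ^ M * a ∈ V := by
    rintro V ⟨x, hx⟩ y hy hy' a
    exact SchemeFinite_arch (S := X.presheaf.stalk x) (IsFractionRing.injective _ _) V hx.symm y hy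
      hy' a
  refine ⟨fun a => ?_, harch⟩
  have hcomp : CompactSpace X := QuasiCompact.compactSpace_of_compactSpace f
  -- the local version
  have hloc : ∀ x : X, ∃ U : Set X, U ∈ nhds x ∧ {V : ValuationSubring X.functionField |
      (∃ z ∈ U, V.toSubring = localRing X z) ∧ a ∉ V}.Finite := by
    intro x
    obtain ⟨_, ⟨U, hU, rfl⟩, hxU, -⟩ :=
      X.isBasis_affineOpens.exists_subset_of_mem_open (Set.mem_univ x) isOpen_univ
    have hUU : IsAffineOpen U := hU
    refine ⟨U, U.2.mem_nhds hxU, ?_⟩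
    have : Nonempty U := ⟨⟨_, hxU⟩⟩
    have hfrac : IsFractionRing Γ(X, U) X.functionField :=
      functionField_isFractionRing_of_isAffineOpen X U hUU
    have hnA : IsNoetherianRing Γ(X, U) := IsLocallyNoetherian.component_noetherian ⟨U, hUU⟩
    obtain ⟨⟨c, g⟩, hcg⟩ := IsLocalization.surj (nonZeroDivisors Γ(X, U)) a
    have hg0 : (g : Γ(X, U)) ≠ 0 := nonZeroDivisors.ne_zero g.2
    have hfin : ((Ideal.span {(g : Γ(X, U))}).minimalPrimes).Finite :=
      Ideal.finite_minimalPrimes_of_isNoetherianRing _ _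
    refine (hfin.biUnion (t := fun P => {V : ValuationSubring X.functionField |
      ∀ z : X.functionField, z ∈ V ↔ ∃ f g : Γ(X, U), g ∉ P ∧
        z * algebraMap Γ(X, U) X.functionField g = algebraMap Γ(X, U) X.functionField f})
      (fun P _ => Set.Subsingleton.finite ?_)).subset ?_
    · intro V hV V' hV'
      ext z
      rw [hV z, hV' z]
    · rintro V ⟨⟨z, hzU, hz⟩, haV⟩
      let := X.presheaf.algebra_section_stalk (⟨z, hzU⟩ : U)
      have hloc : IsLocalization.AtPrime (X.presheaf.stalk z) (hUU.primeIdealOf ⟨z, hzU⟩).asIdeal :=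
        hUU.isLocalization_stalk ⟨z, hzU⟩
      have htow : IsScalarTower Γ(X, U) (X.presheaf.stalk z) X.functionField :=
        functionField_isScalarTower X U ⟨z, hzU⟩
      have hmem : ∀ w : X.functionField, w ∈ V ↔ ∃ f g : Γ(X, U),
          g ∉ (hUU.primeIdealOf ⟨z, hzU⟩).asIdeal ∧
          w * algebraMap Γ(X, U) X.functionField g = algebraMap Γ(X, U) X.functionField f := by
        intro w
        have h1 : w ∈ V ↔ w ∈ localRing X z := by
          rw [← hz]
          rfl
        exact h1.trans (SchemeFinite_range (T := X.presheaf.stalk z)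
          (hUU.primeIdealOf ⟨z, hzU⟩).asIdeal w)
      refine Set.mem_biUnion (x := (hUU.primeIdealOf ⟨z, hzU⟩).asIdeal) ?_ hmem
      exact SchemeFinite_minimal _ inferInstance V hmem (harch V ⟨z, hz.symm⟩) a c g hg0 hcg haV
  choose U hU hUfin using hloc
  obtain ⟨t, -, ht⟩ := (isCompact_univ (X := X)).elim_nhds_subcover U fun x _ => hU x
  refine (t.finite_toSet.biUnion (t := fun x => {V : ValuationSubring X.functionField |
      (∃ z ∈ U x, V.toSubring = localRing X z) ∧ a ∉ V}) fun x _ => hUfin x).subset ?_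
  rintro V ⟨⟨z, hz⟩, haV⟩
  have hz2 := ht (Set.mem_univ z)
  rw [Set.mem_iUnion₂] at hz2
  obtain ⟨x, hx, hzx⟩ := hz2
  exact Set.mem_biUnion (x := x) hx ⟨⟨z, hzx, hz.symm⟩, haV⟩

end Pool.Agent.Lib.MP_8bcb2e_ag.B
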