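import Pool.Agent.Lib.MP_8bcb2e_ag.B.SpecC
import Pool.Agent.Lib.RegularUFD.Scheme

/-!
# Local rings are the intersections of their localizations of height one
-/

set_option autoImplicit false

universe u

open AlgebraicGeometry CategoryTheory TopologicalSpace

namespace Pool.Agent.Lib.MP_8bcb2e_ag.B

/-- The valuation ring of a prime element of a unique factorization domain. -/
private def SchemeHartogs_V {S K : Type u} [CommRing S] [IsDomain S] [UniqueFactorizationMonoid S]
    [Field K] [Algebra S K] [IsFractionRing S K] (π : S) (hπ : Prime π) : ValuationSubring K where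
  carrier := {z | ∃ u v : S, ¬ π ∣ v ∧ z * algebraMap S K v = algebraMap S K u}
  mul_mem' := by
    rintro z w ⟨u, v, hv, h⟩ ⟨u', v', hv', h'⟩
    refine ⟨u * u', v * v', fun hd => (hπ.dvd_or_dvd hd).elim hv hv', ?_⟩
    rw [map_mul, map_mul, ← h, ← h']
    ring
  one_mem' := ⟨1, 1, fun hd => hπ.not_isUnit (isUnit_of_dvd_one hd), by simp⟩
  add_mem' := by
    rintro z w ⟨u, v, hv, h⟩ ⟨u', v', hv', h'⟩
    refine ⟨u * v' + u' * v, v * v', fun hd => (hπ.dvd_or_dvd hd).elim hv hv', ?_⟩
    rw [map_mul, map_add, map_mul, map_mul, ← h, ← h']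
    ring
  zero_mem' := ⟨0, 1, fun hd => hπ.not_isUnit (isUnit_of_dvd_one hd), by simp⟩
  neg_mem' := by
    rintro z ⟨u, v, hv, h⟩
    exact ⟨-u, v, hv, by rw [neg_mul, h, map_neg]⟩
  mem_or_inv_mem' := by
    intro z
    obtain ⟨b, c, hbc, hz⟩ := IsFractionRing.exists_reduced_fraction (A := S) z
    have hc0 : algebraMap S K (c : S) ≠ 0 :=
      IsFractionRing.to_map_ne_zero_of_mem_nonZeroDivisors c.2
    have hz' : z * algebraMap S K (c : S) = algebraMap S K b := by
      rw [← hz]
      exact IsLocalization.mk'_spec K b c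
    by_cases hd : π ∣ (c : S)
    · right
      have hb : ¬ π ∣ b := fun hb => hπ.not_isUnit (hbc hb hd)
      rcases eq_or_ne z 0 with h0 | h0
      · exfalso
        rw [h0, zero_mul, eq_comm, map_eq_zero_iff _ (IsFractionRing.injective S K)] at hz'
        exact hb (hz' ▸ dvd_zero π)
      · refine ⟨c, b, hb, ?_⟩
        rw [← hz', inv_mul_cancel_left₀ h0]
    · left
      exact ⟨b, c, hd, hz'⟩

private theorem SchemeHartogs_mem {S K : Type u} [CommRing S] [IsDomain S]
    [UniqueFactorizationMonoid S] [Field K] [Algebra S K] [IsFractionRing S K] (π : S)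
    (hπ : Prime π) (z : K) : z ∈ SchemeHartogs_V (K := K) π hπ ↔
      ∃ u v : S, ¬ π ∣ v ∧ z * algebraMap S K v = algebraMap S K u := Iff.rfl

/-- Elements of the valuation ring in terms of a ring of which `S` is a localization. -/
private theorem SchemeHartogs_iff {A S K : Type u} [CommRing A] [CommRing S] [Field K]
    [Algebra A S] [Algebra S K] [Algebra A K] [IsScalarTower A S K] (M : Submonoid A)
    [IsLocalization M S] (π : S) (hπ : Prime π) (z : K) :
    (∃ u v : S, ¬ π ∣ v ∧ z * algebraMap S K v = algebraMap S K u) ↔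
      ∃ f g : A, ¬ π ∣ algebraMap A S g ∧ z * algebraMap A K g = algebraMap A K f := by
  constructor
  · rintro ⟨u, v, hv, h⟩
    obtain ⟨⟨f₁, g₁⟩, h₁⟩ := IsLocalization.surj M u
    obtain ⟨⟨f₂, g₂⟩, h₂⟩ := IsLocalization.surj M v
    have u1 : IsUnit (algebraMap A S g₁) := IsLocalization.map_units S g₁
    have u2 : IsUnit (algebraMap A S g₂) := IsLocalization.map_units S g₂
    dsimp only at h₁ h₂
    refine ⟨f₁ * g₂, g₁ * f₂, ?_, ?_⟩
    · rw [map_mul, ← h₂]
      intro hd
      rcases hπ.dvd_or_dvd hd with hd | hd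
      · exact hπ.not_isUnit (isUnit_of_dvd_unit hd u1)
      · rcases hπ.dvd_or_dvd hd with hd | hd
        · exact hv hd
        · exact hπ.not_isUnit (isUnit_of_dvd_unit hd u2)
    · have e1 := congrArg (algebraMap S K) h₁
      have e2 := congrArg (algebraMap S K) h₂
      rw [map_mul] at e1 e2
      simp only [← IsScalarTower.algebraMap_apply A S K] at e1 e2
      rw [map_mul, map_mul, ← e1, ← e2, ← h]
      ring
  · rintro ⟨f, g, hg, h⟩
    refine ⟨algebraMap A S f, algebraMap A S g, hg, ?_⟩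
    rw [← IsScalarTower.algebraMap_apply, ← IsScalarTower.algebraMap_apply]
    exact h

/-- Elements of a localization at a prime. -/
private theorem SchemeHartogs_range {A T K : Type u} [CommRing A] [CommRing T] [Field K]
    [Algebra A T] [Algebra T K] [Algebra A K] [IsScalarTower A T K] (P : Ideal A) [P.IsPrime]
    [IsLocalization.AtPrime T P] (z : K) : z ∈ (algebraMap T K).range ↔
      ∃ f g : A, g ∉ P ∧ z * algebraMap A K g = algebraMap A K f := by
  constructor
  · rintro ⟨s, rfl⟩
    obtain ⟨⟨f, g⟩, h⟩ := IsLocalization.surj P.primeCompl s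
    refine ⟨f, g, g.2, ?_⟩
    have e1 := congrArg (algebraMap T K) h
    rw [map_mul] at e1
    simp only [← IsScalarTower.algebraMap_apply A T K] at e1
    exact e1
  · rintro ⟨f, g, hg, h⟩
    have ug : IsUnit (algebraMap A T g) := IsLocalization.map_units T (⟨g, hg⟩ : P.primeCompl)
    have ug' : algebraMap A K g ≠ 0 := by
      rw [IsScalarTower.algebraMap_apply A T K]
      exact (ug.map (algebraMap T K)).ne_zero
    refine ⟨IsLocalization.mk' T f (⟨g, hg⟩ : P.primeCompl), ?_⟩
    apply mul_right_cancel₀ ug'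
    rw [h, IsScalarTower.algebraMap_apply A T K g, ← map_mul]
    have := IsLocalization.mk'_spec T f (⟨g, hg⟩ : P.primeCompl)
    rw [this, ← IsScalarTower.algebraMap_apply]

theorem t_SchemeHartogs : S_SchemeHartogs.{u} := by
  intro k _ X _ f _ _ O hO a ha
  obtain ⟨x, rfl⟩ := hO
  by_contra hne
  have := Pool.Agent.Lib.RegularUFD.ufd_stalk X f x
  -- a prime element in the denominator
  obtain ⟨b, c, hbc, hz⟩ := IsFractionRing.exists_reduced_fraction (A := X.presheaf.stalk x) a
  have hz' : a * algebraMap (X.presheaf.stalk x) X.functionField (c : X.presheaf.stalk x) =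
      algebraMap (X.presheaf.stalk x) X.functionField b := by
    rw [← hz]
    exact IsLocalization.mk'_spec _ b c
  have hc0 : (c : X.presheaf.stalk x) ≠ 0 := nonZeroDivisors.ne_zero c.2
  have hcu : ¬ IsUnit (c : X.presheaf.stalk x) := by
    intro hu
    obtain ⟨w, hw⟩ := hu
    apply hne
    refine ⟨b * ((w⁻¹ : (X.presheaf.stalk x)ˣ) : X.presheaf.stalk x), ?_⟩
    rw [map_mul, ← hz', mul_assoc, ← map_mul, ← hw, Units.mul_inv, map_one, mul_one]
  obtain ⟨π, hπi, hπc⟩ := WfDvdMonoid.exists_irreducible_factor hcu hc0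
  have hπ : Prime π := UniqueFactorizationMonoid.irreducible_iff_prime.1 hπi
  have hπb : ¬ π ∣ b := fun hb => hπ.not_isUnit (hbc hb hπc)
  -- the valuation ring
  let V : ValuationSubring X.functionField := SchemeHartogs_V π hπ
  have hVm : ∀ z, z ∈ V ↔ ∃ u v : X.presheaf.stalk x, ¬ π ∣ v ∧
      z * algebraMap _ X.functionField v = algebraMap _ X.functionField u :=
    SchemeHartogs_mem π hπ
  have h1 : ¬ π ∣ (1 : X.presheaf.stalk x) := fun hd => hπ.not_isUnit (isUnit_of_dvd_one hd)
  have haV : a ∉ V := by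
    intro h
    obtain ⟨u, v, hv, huv⟩ := (hVm a).1 h
    have e : b * v = u * c := by
      apply IsFractionRing.injective (X.presheaf.stalk x) X.functionField
      rw [map_mul, map_mul, ← hz', ← huv]
      ring
    have hd : π ∣ b * v := e ▸ Dvd.dvd.mul_left hπc u
    exact (hπ.dvd_or_dvd hd).elim hπb hv
  refine haV (ha V ?_ ⟨?_, ?_⟩)
  · -- the local ring at a generization
    obtain ⟨_, ⟨U, hU, rfl⟩, hxU, -⟩ :=
      X.isBasis_affineOpens.exists_subset_of_mem_open (Set.mem_univ x) isOpen_univ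
    have hUU : IsAffineOpen U := hU
    have : Nonempty U := ⟨⟨_, hxU⟩⟩
    let := X.presheaf.algebra_section_stalk (⟨x, hxU⟩ : U)
    have hloc : IsLocalization.AtPrime (X.presheaf.stalk x) (hUU.primeIdealOf ⟨x, hxU⟩).asIdeal :=
      hUU.isLocalization_stalk ⟨x, hxU⟩
    have htow : IsScalarTower Γ(X, U) (X.presheaf.stalk x) X.functionField :=
      functionField_isScalarTower X U ⟨x, hxU⟩
    have hPr : (Ideal.span {π}).IsPrime := (Ideal.span_singleton_prime hπ.ne_zero).2 hπ
    let y : PrimeSpectrum Γ(X, U) :=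
      ⟨(Ideal.span {π}).comap (algebraMap Γ(X, U) (X.presheaf.stalk x)), inferInstance⟩
    have hy : hUU.fromSpec y ∈ U := by
      have : hUU.fromSpec y ∈ Set.range hUU.fromSpec := ⟨y, rfl⟩
      rw [hUU.range_fromSpec] at this
      exact this
    let := X.presheaf.algebra_section_stalk (⟨hUU.fromSpec y, hy⟩ : U)
    have hloc' : IsLocalization.AtPrime (X.presheaf.stalk (hUU.fromSpec y)) y.asIdeal :=
      hUU.isLocalization_stalk' y hy
    have htow' : IsScalarTower Γ(X, U) (X.presheaf.stalk (hUU.fromSpec y)) X.functionField :=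
      functionField_isScalarTower X U ⟨hUU.fromSpec y, hy⟩
    refine ⟨hUU.fromSpec y, ?_⟩
    ext z
    have e1 := SchemeHartogs_range (T := X.presheaf.stalk (hUU.fromSpec y)) y.asIdeal z
    have e2 := SchemeHartogs_iff (A := Γ(X, U)) (S := X.presheaf.stalk x)
      (hUU.primeIdealOf ⟨x, hxU⟩).asIdeal.primeCompl π hπ z
    refine e1.trans (Iff.trans ?_ (e2.symm.trans (hVm z).symm))
    have e3 : ∀ g : Γ(X, U), g ∉ y.asIdeal ↔ ¬ π ∣ algebraMap Γ(X, U) (X.presheaf.stalk x) g := by
      intro g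
      rw [← Ideal.mem_span_singleton]
      rfl
    simp only [e3]
  · rintro z ⟨s, rfl⟩
    exact (hVm _).2 ⟨s, 1, h1, by rw [map_one, mul_one]⟩
  · intro z hz
    obtain ⟨u, v, hv, huv⟩ := (hVm z).1 hz
    have hv0 : algebraMap (X.presheaf.stalk x) X.functionField v ≠ 0 := by
      intro h0
      rw [map_eq_zero_iff _ (IsFractionRing.injective _ _)] at h0
      exact hv (h0 ▸ dvd_zero π)
    refine ⟨algebraMap _ _ v, ⟨v, rfl⟩, hv0, (hVm _).2 ⟨1, v, hv, ?_⟩, ⟨u, ?_⟩⟩
    · rw [inv_mul_cancel₀ hv0, map_one]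
    · rw [← huv, mul_comm]

end Pool.Agent.Lib.MP_8bcb2e_ag.B
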