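import Pool.Agent.Lib.MP_8bcb2e_ag.B.SpecC
import Pool.Agent.Lib.MP_8bcb2e_ag.TraceSections

set_option autoImplicit false

universe u

namespace Pool.Agent.Lib.MP_8bcb2e_ag.B

open KaehlerDifferential

theorem t_TraceLoc : S_TraceLoc.{u} := by
  intro hPB hTM hTop k K _ _ _ _ p _ _ _ n Ψ T hT O x hx hnorm
  have hp : 0 < p := (Fact.out : p.Prime).pos
  refine ⟨fun s F hF => ?_, fun b hb => ?_⟩
  · obtain ⟨G, hG, hFG⟩ := (regularAt_iff Ψ hx _ F).1 hF
    obtain ⟨c, hc⟩ := hPB k K p n x hx.basis G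
    set J := Ψ fun i => D k K (x i) with hJ
    let top : Fin n → Fin p := fun _ => ⟨p - 1, by omega⟩
    have htop : ∀ i, (top i : ℕ) + 1 = p := fun i => by simp [top]; omega
    have hTc := hTop k K p n O x hx hnorm c (by rw [← hc]; exact hG) top htop
    refine (regularAt_iff Ψ hx _ _).2 ⟨c top, hTc, ?_⟩
    have h1 : F = (J ^ s) ^ p * ∑ α, c α ^ p * ((∏ i, x i ^ (α i : ℕ)) * J) := by
      rw [hFG, hc, Finset.sum_mul, Finset.mul_sum]
      refine Finset.sum_congr rfl fun α _ => ?_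
      rw [pow_add, pow_one, mul_comm p s, pow_mul]
      ring
    rw [h1, hT.map_pow_mul, hT.map_sum, Finset.sum_eq_single top]
    · rw [hT.map_pow_mul, (hTM k K p n Ψ T hT x top).1 htop]
      rw [← hJ]
      ring
    · intro α _ hα
      rw [hT.map_pow_mul, (hTM k K p n Ψ T hT x α).2, mul_zero]
      by_contra! hcon
      apply hα
      ext i
      have := hcon i
      simp [top]
      omega
    · intro h
      exact absurd (Finset.mem_univ _) h
  · obtain ⟨g, hg, hbg⟩ := (regularAt_iff Ψ hx _ b).1 hb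
    rw [pow_one] at hbg
    refine ⟨g ^ p * ((∏ i, x i) ^ (p - 1) * Ψ fun i => D k K (x i)), ?_, ?_⟩
    · refine (regularAt_iff Ψ hx _ _).2 ⟨g ^ p * (∏ i, x i) ^ (p - 1), ?_, by ring⟩
      exact mul_mem (pow_mem hg _) (pow_mem (prod_mem fun i _ => hx.mem i) _)
    · rw [hT.map_pow_mul, hT.map_log, hbg]

end Pool.Agent.Lib.MP_8bcb2e_ag.B
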