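import Pool.Agent.Lib.MP_8bcb2e_ag.B.AllA
import Pool.Agent.Lib.MP_8bcb2e_ag.B.DepMod
import Pool.Agent.Lib.MP_8bcb2e_ag.B.Dvr
import Pool.Agent.Lib.MP_8bcb2e_ag.B.Approx
import Pool.Agent.Lib.MP_8bcb2e_ag.B.FinZeros
import Pool.Agent.Lib.MP_8bcb2e_ag.B.Fg
import Pool.Agent.Lib.MP_8bcb2e_ag.B.PlacesOf
import Pool.Agent.Lib.MP_8bcb2e_ag.B.DiffBasis
import Pool.Agent.Lib.MP_8bcb2e_ag.B.MonoIndep
import Pool.Agent.Lib.MP_8bcb2e_ag.B.ResBasis
import Pool.Agent.Lib.MP_8bcb2e_ag.B.CoordAt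
import Pool.Agent.Lib.MP_8bcb2e_ag.B.HeightOne
import Pool.Agent.Lib.MP_8bcb2e_ag.B.CoordFin
import Pool.Agent.Lib.MP_8bcb2e_ag.B.TraceLoc
import Pool.Agent.Lib.MP_8bcb2e_ag.B.CurveOf
import Pool.Agent.Lib.MP_8bcb2e_ag.B.LocCoord
import Pool.Agent.Lib.MP_8bcb2e_ag.B.PolySec
import Pool.Agent.Lib.MP_8bcb2e_ag.B.Poles
import Pool.Agent.Lib.MP_8bcb2e_ag.B.MonoSpan
import Pool.Agent.Lib.MP_8bcb2e_ag.B.AspOf
import Pool.Agent.Lib.MP_8bcb2e_ag.B.Choose
import Pool.Agent.Lib.MP_8bcb2e_ag.B.GenType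
import Pool.Agent.Lib.MP_8bcb2e_ag.B.GenFin
import Pool.Agent.Lib.MP_8bcb2e_ag.B.SchemeFinCoord
import Pool.Agent.Lib.MP_8bcb2e_ag.B.SchemeFinite
import Pool.Agent.Lib.MP_8bcb2e_ag.B.SchemeHartogs
import Pool.Agent.Lib.MP_8bcb2e_ag.PBasis
import Pool.Agent.Lib.MP_8bcb2e_ag.TraceMonomial
import Pool.Agent.Lib.MP_8bcb2e_ag.TopMem
import Pool.Agent.Lib.MP_8bcb2e_ag.SepExists
import Pool.Agent.Lib.MP_8bcb2e_ag.DerivBound
import Pool.Agent.Lib.MP_8bcb2e_ag.IntegralOfHeightOne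
import Pool.Agent.Lib.MP_8bcb2e_ag.InftyChart
import Pool.Agent.Lib.MP_8bcb2e_ag.TwoCharts
import Pool.Agent.Lib.MP_8bcb2e_ag.IntegralSections
import Pool.Agent.Lib.MP_8bcb2e_ag.WSection
import Pool.Agent.Lib.MP_8bcb2e_ag.Spread
import Pool.Agent.Lib.MP_8bcb2e_ag.TraceExists
import Pool.Agent.Lib.MP_8bcb2e_ag.SchemeCoord
import Pool.Agent.Lib.MP_8bcb2e_ag.SchemeComplete
import Pool.Agent.Lib.MP_8bcb2e_ag.SchemeFin

/-! # The theorem for schemes, all pieces in place -/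

set_option autoImplicit false

universe u

namespace Pool.Agent.Lib.MP_8bcb2e_ag.B

open KaehlerDifferential AlgebraicGeometry CategoryTheory

theorem allC : AllC.{u} :=
  ⟨t_DepMod, t_Dvr, t_Approx, t_FinZeros, t_Fg, t_Places, t_DiffBasis, t_MonoIndep, t_ResBasis,
    t_CoordAt, t_HeightOne, t_CoordFin, t_TraceLoc, t_Curve, t_LocCoord, t_PolySec, t_Poles,
    t_MonoSpan, t_Asp, t_Choose, t_GenType, t_GenFin⟩

theorem theoremB {k : Type u} [Field k] [PerfectField k] (p : ℕ) [Fact p.Prime] [CharP k p]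
    {X : Scheme.{u}} [IsIntegral X] {n : ℕ} (hn : 2 ≤ n)
    (f : X ⟶ Spec (.of k)) [IsProper f] [SmoothOfRelativeDimension n f] :
    letI := functionFieldAlgebra f
    ∀ Ψ : Ω[X.functionField⁄k] [⋀^Fin n]→ₗ[X.functionField] X.functionField, Ψ ≠ 0 →
      ∃ T : X.functionField → X.functionField, IsFrobTrace k Ψ p T ∧
        (∀ T', IsFrobTrace k Ψ p T' → T' = T) ∧
        ∀ r : ℕ, 1 ≤ r → (∃ N, GenericallyFinite k (sections k Ψ (localRings X) N)) →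
          (n : Cardinal.{u}) ≤ Algebra.trdeg k (ratioField k (sections k Ψ (localRings X) r)) + 1 →
          GenericallyFinite k (sections k Ψ (localRings X) ((1 + 3 * r) * (1 + r * n) + r)) ∧
          ∀ j : ℕ, n + 2 ≤ j →
            Birational k (S0 k Ψ p T (localRings X) (1 + j * ((1 + 3 * r) * (1 + r * n) + r))) :=
  theoremB_scheme allA allC t_SchemeFinCoord t_SchemeFinite t_SchemeHartogs pBasis_of
    traceMonomial_of topMem_of sepExists_of derivBound_of integralOfHeightOne_of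
    inftyChart_of twoCharts_of integralSections_of wSection_of spread_of traceExists_of
    schemeCoord_of schemeComplete_of schemeFin_of p hn f

end Pool.Agent.Lib.MP_8bcb2e_ag.B
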