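import Pool.Agent.Lib.MP_8bcb2e_ag.B.Spec

set_option autoImplicit false

universe u

namespace Pool.Agent.Lib.MP_8bcb2e_ag.B

theorem t_Decomp : S_Decomp.{u} := by
  intro hPR hPP hPO E K ι _ _ _ G x hx d hd
  classical
  have := G.fg x hx
  let b := Module.finBasis (IntermediateField.adjoin E {x}) K
  set m := Module.finrank (IntermediateField.adjoin E {x}) K with hm
  have hb0 : ∀ j, b j ≠ 0 := fun j => b.ne_zero j
  have hZfin : ({i | d i ≠ 0} ∪ ⋃ j : Fin m, {i | G.ord i (b j) ≠ 0}).Finite :=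
    hd.union (Set.finite_iUnion fun j => G.fin (b j))
  set Z := hZfin.toFinset with hZ
  have hZd : ∀ i, i ∉ Z → d i = 0 ∧ ∀ j, G.ord i (b j) = 0 := by
    intro i hi
    rw [hZ, Set.Finite.mem_toFinset] at hi
    simp only [Set.mem_union, Set.mem_setOf_eq, Set.mem_iUnion, not_or, not_not, not_exists] at hi
    exact hi
  obtain ⟨N', hN'⟩ : ∃ N' : ℕ, ∀ i ∈ Z, ∀ j, d i - G.ord i (b j) ≤ N' := by
    refine ⟨∑ i ∈ Z, ∑ j, (d i - G.ord i (b j)).toNat, fun i hi j => ?_⟩
    have h1 : (d i - G.ord i (b j)).toNat ≤ ∑ j, (d i - G.ord i (b j)).toNat :=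
      Finset.single_le_sum (f := fun j => (d i - G.ord i (b j)).toNat) (fun _ _ => Nat.zero_le _)
        (Finset.mem_univ j)
    have h2 : ∑ j, (d i - G.ord i (b j)).toNat ≤ ∑ i ∈ Z, ∑ j, (d i - G.ord i (b j)).toNat :=
      Finset.single_le_sum (f := fun i => ∑ j, (d i - G.ord i (b j)).toNat)
        (fun _ _ => Nat.zero_le _) hi
    have h3 := Int.self_le_toNat (d i - G.ord i (b j))
    omega
  obtain ⟨g, hg0, hg⟩ := hPR E K ι G Z x N'
  have hgx : Polynomial.aeval x g ≠ 0 := fun h => hx ⟨g, hg0, h⟩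
  -- the modified basis
  set e' : Fin m → K := fun j => Polynomial.aeval x g * b j with he'
  have he'0 : ∀ j, e' j ≠ 0 := fun j => mul_ne_zero hgx (hb0 j)
  have he'1 : ∀ i, 0 ≤ G.ord i x → ∀ j, G.Ge i (d i) (e' j) := by
    intro i hi j
    by_cases hiZ : i ∈ Z
    · have h1 := G.ge_mul (hg i hiZ hi) (G.ge_ord (i := i) (b j))
      exact G.ge_mono (by have := hN' i hiZ j; omega) h1
    · have h1 := hZd i hiZ
      rw [h1.1]
      have h2 := G.ge_mul (G.ge_aeval hi g) (G.ge_ord (i := i) (b j))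
      rwa [h1.2 j, add_zero] at h2
  have hPfin : {i | G.ord i x < 0}.Finite := (G.fin x).subset fun i hi => ne_of_lt hi
  set P := hPfin.toFinset with hP
  obtain ⟨N₀, hN₀⟩ : ∃ N₀ : ℕ, ∀ i, G.ord i x < 0 → ∀ j, d i - G.ord i (e' j) ≤ N₀ := by
    refine ⟨∑ i ∈ P, ∑ j, (d i - G.ord i (e' j)).toNat, fun i hi j => ?_⟩
    have h1 : (d i - G.ord i (e' j)).toNat ≤ ∑ j, (d i - G.ord i (e' j)).toNat :=
      Finset.single_le_sum (f := fun j => (d i - G.ord i (e' j)).toNat) (fun _ _ => Nat.zero_le _)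
        (Finset.mem_univ j)
    have h2 : ∑ j, (d i - G.ord i (e' j)).toNat ≤ ∑ i ∈ P, ∑ j, (d i - G.ord i (e' j)).toNat :=
      Finset.single_le_sum (f := fun i => ∑ j, (d i - G.ord i (e' j)).toNat)
        (fun _ _ => Nat.zero_le _) (hPfin.mem_toFinset.2 hi)
    have h3 := Int.self_le_toNat (d i - G.ord i (e' j))
    omega
  refine ⟨N₀, fun N hN y => ?_⟩
  let z : Fin m → IntermediateField.adjoin E {x} := fun j =>
    b.repr ((Polynomial.aeval x g)⁻¹ * y) j
  have hy : y = ∑ j, (z j : K) * e' j := by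
    have h1 := b.sum_repr ((Polynomial.aeval x g)⁻¹ * y)
    have h2 : y = Polynomial.aeval x g * ((Polynomial.aeval x g)⁻¹ * y) := by
      rw [mul_inv_cancel_left₀ hgx]
    rw [h2, ← h1, Finset.mul_sum]
    refine Finset.sum_congr rfl fun j _ => ?_
    rw [IntermediateField.smul_def, smul_eq_mul, he']
    change Polynomial.aeval x g * ((z j : K) * b j) = _
    ring
  choose q hq using fun j => hPP hPO E K ι G x hx (z j : K) (z j).2
  refine ⟨∑ j, Polynomial.aeval x (q j) * e' j, ∑ j, ((z j : K) - Polynomial.aeval x (q j)) * e' j,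
    ?_, fun i hi => ?_, fun i hi => ?_⟩
  · rw [hy, ← Finset.sum_add_distrib]
    exact Finset.sum_congr rfl fun j _ => by ring
  · beta_reduce
    rw [min_eq_left hi, mul_zero, add_zero]
    refine G.ge_sum _ _ fun j _ => ?_
    have := G.ge_mul (G.ge_aeval hi (q j)) (he'1 i hi j)
    rwa [zero_add] at this
  · beta_reduce
    rw [min_eq_right hi.le]
    refine G.ge_sum _ _ fun j _ => ?_
    have h1 := G.ge_mul (hq j i hi) (G.ge_ord (i := i) (e' j))
    rw [zero_add] at h1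
    refine G.ge_mono ?_ h1
    have h2 := hN₀ i hi j
    have h3 : (N₀ : ℤ) ≤ N := by exact_mod_cast hN
    nlinarith

end Pool.Agent.Lib.MP_8bcb2e_ag.B
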