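import Pool.Agent.Lib.MP_8bcb2e_ag.B.Spec

set_option autoImplicit false

universe u

namespace Pool.Agent.Lib.MP_8bcb2e_ag.B

theorem t_FinDim : S_FinDim.{u} := by
  intro hPO hTr hPR hFS E K ι _ _ _ G ⟨x, hx⟩ d hd
  classical
  obtain ⟨i₁, hi₁⟩ : ∃ i, G.ord i x < 0 := by
    by_contra! hcon
    exact hx (G.alg x fun i => Or.inr (hcon i))
  set Z := hd.toFinset with hZ
  obtain ⟨N, hN⟩ : ∃ N : ℕ, ∀ i ∈ Z, -d i ≤ N := by
    refine ⟨∑ i ∈ Z, (-d i).toNat, fun i hi => ?_⟩
    have h1 : (-d i).toNat ≤ ∑ i ∈ Z, (-d i).toNat :=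
      Finset.single_le_sum (f := fun i => (-d i).toNat) (fun _ _ => Nat.zero_le _) hi
    have h2 := Int.self_le_toNat (-d i)
    omega
  obtain ⟨g, hg0, hg⟩ := hPR E K ι G Z x N
  have hgx : Polynomial.aeval x g ≠ 0 := fun h => hx ⟨g, hg0, h⟩
  have hgd : ∀ i, 0 ≤ G.ord i x → G.Ge i (-d i) (Polynomial.aeval x g) := by
    intro i hi
    by_cases hiZ : i ∈ Z
    · exact G.ge_mono (hN i hiZ) (hg i hiZ hi)
    · have h1 : d i = 0 := by
        by_contra h
        exact hiZ (hd.mem_toFinset.2 h)
      rw [h1, neg_zero]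
      exact G.ge_aeval hi g
  have hPfin : {i | G.ord i x < 0}.Finite := (G.fin x).subset fun i hi => ne_of_lt hi
  set P := hPfin.toFinset with hP
  have hPmem : ∀ i, i ∈ P ↔ G.ord i x < 0 := fun i => hPfin.mem_toFinset
  set d' : ι → ℤ := fun i => if i ∈ P then max (d i) (1 - g.natDegree * G.ord i x) else d i with hd'
  have hbot : G.L d' = ⊥ := by
    rw [eq_bot_iff]
    intro F hF
    have h1 : ∀ i, G.Ge i 0 (Polynomial.aeval x g * F) ∧
        (G.ord i x < 0 → G.Ge i 1 (Polynomial.aeval x g * F)) := by
      intro i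
      have h2 := hF i
      rcases lt_or_ge (G.ord i x) 0 with h | h
      · have h3 : d' i = max (d i) (1 - g.natDegree * G.ord i x) := by
          rw [hd']; exact if_pos ((hPmem i).2 h)
        rw [h3] at h2
        have h4 := G.ge_mul (G.ge_ord (i := i) (Polynomial.aeval x g))
          (G.ge_mono (le_max_right _ _) h2)
        rw [(hPO E K ι G i x h g hg0).2] at h4
        have h5 : (g.natDegree : ℤ) * G.ord i x + (1 - g.natDegree * G.ord i x) = 1 := by ring
        rw [h5] at h4
        exact ⟨G.ge_mono (by omega) h4, fun _ => h4⟩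
      · have h3 : d' i = d i := by
          rw [hd']
          exact if_neg fun hh => absurd ((hPmem i).1 hh) (not_lt.2 h)
        rw [h3] at h2
        have h4 := G.ge_mul (hgd i h) h2
        rw [neg_add_cancel] at h4
        exact ⟨h4, fun hh => absurd hh (not_lt.2 h)⟩
    have h6 : IsAlgebraic E (Polynomial.aeval x g * F) := G.alg _ fun i => (h1 i).1
    by_contra hF0
    have hF0' : F ≠ 0 := fun h => hF0 (by rw [h]; exact Submodule.zero_mem _)
    have h7 : Polynomial.aeval x g * F ≠ 0 := mul_ne_zero hgx hF0'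
    have h8 := (G.ge_iff h7).1 ((h1 i₁).2 hi₁)
    exact hTr hPO E K ι G i₁ _ (by omega) h6
  -- induction
  have hind : ∀ n : ℕ, ∀ d₁ : ι → ℤ, (∑ i ∈ P, (d' i - d₁ i)).toNat ≤ n → (∀ i, d₁ i ≤ d' i) →
      (∀ i, i ∉ P → d₁ i = d' i) → FiniteDimensional E (G.L d₁) := by
    intro n
    induction n with
    | zero =>
      intro d₁ h1 h2 h3
      have h4 : ∑ i ∈ P, (d' i - d₁ i) = 0 := by
        have h5 : 0 ≤ ∑ i ∈ P, (d' i - d₁ i) := Finset.sum_nonneg fun i _ => by
          have := h2 i; omega
        omega
      have h6 : d₁ = d' := by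
        funext i
        by_cases hi : i ∈ P
        · have h7 := (Finset.sum_eq_zero_iff_of_nonneg (fun i _ => by have := h2 i; omega)).1 h4 i hi
          omega
        · exact h3 i hi
      rw [h6, hbot]
      infer_instance
    | succ n ih =>
      intro d₁ h1 h2 h3
      by_cases heq : ∀ i ∈ P, d₁ i = d' i
      · have h6 : d₁ = d' := by
          funext i
          by_cases hi : i ∈ P
          · exact heq i hi
          · exact h3 i hi
        rw [h6, hbot]
        infer_instance
      · push Not at heq
        obtain ⟨i₀, hi₀, hne⟩ := heq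
        have hlt : d₁ i₀ < d' i₀ := lt_of_le_of_ne (h2 i₀) hne
        apply hFS E K ι G d₁ i₀
        apply ih
        · have h7 : ∑ i ∈ P, (d' i - Function.update d₁ i₀ (d₁ i₀ + 1) i) =
              ∑ i ∈ P, (d' i - d₁ i) - 1 := by
            rw [← Finset.add_sum_erase P _ hi₀, ← Finset.add_sum_erase P (fun i => d' i - d₁ i) hi₀,
              Function.update_self]
            have h8 : ∑ i ∈ P.erase i₀, (d' i - Function.update d₁ i₀ (d₁ i₀ + 1) i) =
                ∑ i ∈ P.erase i₀, (d' i - d₁ i) := by
              refine Finset.sum_congr rfl fun i hi => ?_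
              rw [Function.update_of_ne (Finset.ne_of_mem_erase hi)]
            rw [h8]
            ring
          have h9 : 1 ≤ ∑ i ∈ P, (d' i - d₁ i) := by
            have h10 := Finset.single_le_sum (f := fun i => d' i - d₁ i)
              (fun i _ => by have := h2 i; omega) hi₀
            omega
          rw [h7]
          omega
        · intro i
          by_cases hi : i = i₀
          · subst hi
            rw [Function.update_self]
            omega
          · rw [Function.update_of_ne hi]
            exact h2 i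
        · intro i hi
          have hne' : i ≠ i₀ := fun h => hi (h ▸ hi₀)
          rw [Function.update_of_ne hne']
          exact h3 i hi
  refine hind _ d le_rfl (fun i => ?_) fun i hi => ?_
  · rw [hd']
    simp only
    split_ifs
    · exact le_max_left _ _
    · exact le_rfl
  · rw [hd']
    simp only
    rw [if_neg hi]

end Pool.Agent.Lib.MP_8bcb2e_ag.B
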