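import Pool.Agent.Lib.MP_8bcb2e_ag.B.Spec

set_option autoImplicit false

universe u

namespace Pool.Agent.Lib.MP_8bcb2e_ag.B

theorem t_FinStep : S_FinStep.{u} := by
  intro E K ι _ _ _ _ G d i₀ hfin
  obtain ⟨π, hπ0, hπ⟩ := G.exists_ord i₀ (-d i₀)
  obtain ⟨M, hM⟩ := G.resfin i₀
  set W := G.L (Function.update d i₀ (d i₀ + 1)) with hW
  have hWle : W ≤ G.L d := by
    intro F hF i
    have h1 := hF i
    by_cases hi : i = i₀
    · subst hi
      rw [Function.update_self] at h1
      exact G.ge_mono (by omega) h1
    · rwa [Function.update_of_ne hi] at h1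
  -- any `M + 1` elements of `L d` have a nontrivial combination in `W`
  have key : ∀ F : Fin (M + 1) → K, (∀ j, F j ∈ G.L d) →
      ∃ l : Fin (M + 1) → E, (∃ j, l j ≠ 0) ∧ ∑ j, l j • F j ∈ W := by
    intro F hF
    obtain ⟨l, hl, h1⟩ := hM (fun j => π * F j) fun j => by
      have h2 := G.ge_mul (G.ge_ord (i := i₀) π) (hF j i₀)
      rw [hπ, neg_add_cancel] at h2
      exact h2
    refine ⟨l, hl, fun i => ?_⟩
    by_cases hi : i = i₀
    · subst hi
      rw [Function.update_self]
      have h3 : ∑ j, algebraMap E K (l j) * (π * F j) = π * ∑ j, l j • F j := by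
        rw [Finset.mul_sum]
        refine Finset.sum_congr rfl fun j _ => ?_
        rw [Algebra.smul_def]
        ring
      rw [h3] at h1
      have h4 : G.Ge i 1 (π * ∑ j, l j • F j) := h1
      have h5 : (1 : ℤ) = G.ord i π + (d i + 1) := by rw [hπ]; ring
      rw [h5, G.ge_mul_left_iff hπ0] at h4
      exact h4
    · rw [Function.update_of_ne hi]
      exact G.ge_sum _ _ fun j _ => G.ge_smul _ (hF j i)
  -- the quotient is finite dimensional
  let W' : Submodule E (G.L d) := W.comap (G.L d).subtype
  have hW' : FiniteDimensional E W' := by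
    let f : W' →ₗ[E] W := LinearMap.codRestrict W ((G.L d).subtype.comp W'.subtype) fun x => x.2
    refine FiniteDimensional.of_injective f ?_
    intro a b hab
    have h1 := congrArg (fun y : W => (y : K)) hab
    exact Subtype.ext (Subtype.ext h1)
  have hquot : FiniteDimensional E (G.L d ⧸ W') := by
    by_contra hcon
    let bas := Module.Basis.ofVectorSpace E (G.L d ⧸ W')
    have hinf : Infinite (Module.Basis.ofVectorSpaceIndex E (G.L d ⧸ W')) := by
      by_contra hni
      rw [not_infinite_iff_finite] at hni
      exact hcon (Module.Finite.of_basis bas)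
    let emb : Fin (M + 1) ↪ Module.Basis.ofVectorSpaceIndex E (G.L d ⧸ W') :=
      (Fin.valEmbedding).trans (Infinite.natEmbedding _)
    choose F hF using fun j : Fin (M + 1) => Submodule.mkQ_surjective W' (bas (emb j))
    obtain ⟨l, ⟨j₀, hj₀⟩, h1⟩ := key (fun j => (F j : K)) fun j => (F j).2
    have h2 : (∑ j, l j • F j) ∈ W' := by
      change ((∑ j, l j • F j : G.L d) : K) ∈ W
      have h3 : ((∑ j, l j • F j : G.L d) : K) = ∑ j, l j • (F j : K) := by simp
      rw [h3]
      exact h1
    have h4 : ∑ j, l j • bas (emb j) = 0 := by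
      have h5 := (Submodule.Quotient.mk_eq_zero W').2 h2
      rw [← Submodule.mkQ_apply, map_sum] at h5
      simp only [map_smul, hF] at h5
      exact h5
    have h6 : LinearIndependent E fun j => bas (emb j) := bas.linearIndependent.comp emb emb.injective
    exact hj₀ (Fintype.linearIndependent_iff.1 h6 l h4 j₀)
  exact Module.Finite.of_submodule_quotient W'

end Pool.Agent.Lib.MP_8bcb2e_ag.B
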