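import Pool.Agent.Lib.MP_8bcb2e_ag.B.Spec

set_option autoImplicit false

universe u

namespace Pool.Agent.Lib.MP_8bcb2e_ag.B

theorem t_FrobVan : S_FrobVan.{u} := by
  intro E K ι _ _ _ p G x d e h y
  rcases isEmpty_or_nonempty ι with hι | hι
  · exact ⟨y, 0, (add_zero y).symm, fun i => isEmptyElim i, fun i => isEmptyElim i⟩
  · obtain ⟨z, rfl⟩ := G.iter_surj e y
    obtain ⟨a, b, rfl, ha, hb⟩ := h z
    exact ⟨G.T^[e] a, G.T^[e] b, G.iter_add e a b, fun i hi => G.iter_reg i _ e (ha i hi),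
      fun i hi => G.iter_reg i _ e (hb i hi)⟩

end Pool.Agent.Lib.MP_8bcb2e_ag.B
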