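import Pool.Agent.Lib.MP_8bcb2e_ag.B.Spec

set_option autoImplicit false

universe u

namespace Pool.Agent.Lib.MP_8bcb2e_ag.B

theorem t_KK : S_KK.{u} := by
  intro E K ι _ _ _ p G hvan m v₀ v₁ hv₀ hv₁ h₀ h₁ hz
  classical
  have hfin : {i | G.ord i v₁ - m * G.c i ≠ 0}.Finite := by
    refine ((G.fin v₁).union G.fin_c).subset fun i hi => ?_
    by_contra hcon
    simp only [Set.mem_union, Set.mem_setOf_eq, not_or, not_not] at hcon
    apply hi
    rw [hcon.1, hcon.2]
    simp
  obtain ⟨N₀, hN₀⟩ := hvan hfin.toFinset (fun i => G.ord i v₁ - m * G.c i) hfin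
  refine ⟨N₀, fun N hN F hF => ?_⟩
  obtain ⟨A, hA, hA'⟩ := hN₀ N hN fun _ => F / v₀
  have hv₁' : ∀ i, (m : ℤ) * G.c i ≤ G.ord i v₁ := fun i => (G.ge_iff h₁).1 (hv₁ i)
  have hF' : ∀ i, G.Ge i (((N : ℤ) + m) * G.c i) F := by
    intro i
    have := hF i
    have h : ((N + m : ℕ) : ℤ) * G.c i = ((N : ℤ) + m) * G.c i := by push_cast; ring
    change G.Ge i (((N + m : ℕ) : ℤ) * G.c i) F at this
    rwa [h] at this
  have key : ∀ i, G.Ge i (N * G.c i) A ∧ G.Ge i (G.ord i v₁ + N * G.c i) (F - v₀ * A) := by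
    intro i
    by_cases hi : G.ord i v₁ - m * G.c i = 0
    · have hi' : i ∉ hfin.toFinset := by
        rw [Set.Finite.mem_toFinset]
        exact fun h => h hi
      have h1 := hA' i hi'
      simp only [hi, zero_add] at h1
      refine ⟨h1, ?_⟩
      have h2 : G.ord i v₁ + N * G.c i = (N + m) * G.c i := by linarith
      rw [h2]
      refine G.ge_sub (hF' i) ?_
      have h3 := G.ge_mul (hv₀ i) h1
      have h4 : (m : ℤ) * G.c i + N * G.c i = (N + m) * G.c i := by ring
      change G.Ge i ((m : ℤ) * G.c i + N * G.c i) _ at h3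
      rwa [h4] at h3
    · have hi' : i ∈ hfin.toFinset := by
        rw [Set.Finite.mem_toFinset]
        exact hi
      have h1 := hA i hi'
      have hv0 : G.ord i v₀ = m * G.c i := by
        rcases hz i with h | h
        · exact h
        · exact absurd (by rw [h]; ring) hi
      have h2 : G.Ge i (N * G.c i) (F / v₀) := by
        have := G.ge_mul (hF' i) (G.ge_ord (i := i) v₀⁻¹)
        rw [G.ord_inv, hv0] at this
        have h4 : ((N : ℤ) + m) * G.c i + -(m * G.c i) = N * G.c i := by ring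
        rwa [h4, ← div_eq_mul_inv] at this
      have h3 : G.Ge i (N * G.c i) (A - F / v₀) := G.ge_mono (by have := hv₁' i; linarith) h1
      refine ⟨?_, ?_⟩
      · have := G.ge_add h3 h2
        rwa [sub_add_cancel] at this
      · have h5 := G.ge_mul (G.ge_ord (i := i) (-v₀)) h1
        rw [G.ord_neg, hv0] at h5
        have h6 : (m : ℤ) * G.c i + (G.ord i v₁ - m * G.c i + N * G.c i) = G.ord i v₁ + N * G.c i := by
          ring
        have h7 : -v₀ * (A - F / v₀) = F - v₀ * A := by
          field_simp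
          ring
        rwa [h6, h7] at h5
  refine ⟨A, fun i => (key i).1, (F - v₀ * A) / v₁, fun i => ?_, ?_⟩
  · have := G.ge_mul (key i).2 (G.ge_ord (i := i) v₁⁻¹)
    rw [G.ord_inv] at this
    have h4 : G.ord i v₁ + N * G.c i + -G.ord i v₁ = N * G.c i := by ring
    rwa [h4, ← div_eq_mul_inv] at this
  · rw [mul_div_cancel₀ _ h₁]
    ring

end Pool.Agent.Lib.MP_8bcb2e_ag.B
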