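import Pool.Agent.Lib.MP_8bcb2e_ag.B.Spec

set_option autoImplicit false

universe u

namespace Pool.Agent.Lib.MP_8bcb2e_ag.B

theorem t_Pair : S_Pair.{u} := by
  intro hKK hTL E K ι _ _ _ p hp G hne hvan
  classical
  have hp1 : 1 < p := (Fact.out : p.Prime).one_lt
  let i₀ : ι := Classical.arbitrary ι
  obtain ⟨m₀, hm₀, hTa⟩ := hTL E K ι p G hvan {i₀}
  obtain ⟨Fa, hFa, hvaW, hva⟩ := hTa m₀ le_rfl
  set va := G.T Fa with hvadef
  have hva0 : va ≠ 0 := (hva i₀ (Finset.mem_singleton_self _)).1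
  have hfin : {i | G.ord i va ≠ m₀ * G.c i}.Finite := by
    refine ((G.fin va).union G.fin_c).subset fun i hi => ?_
    by_contra hcon
    simp only [Set.mem_union, Set.mem_setOf_eq, not_or, not_not] at hcon
    apply hi
    rw [hcon.1, hcon.2]
    simp
  obtain ⟨m₁, hm₁, hTb⟩ := hTL E K ι p G hvan (insert i₀ hfin.toFinset)
  obtain ⟨Fb, hFb, hvbW, hvb⟩ := hTb m₁ le_rfl
  set vb := G.T Fb with hvbdef
  have hvb0 : vb ≠ 0 := (hvb i₀ (Finset.mem_insert_self _ _)).1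
  have hnz : ∀ i, G.ord i va = m₀ * G.c i ∨ G.ord i vb = m₁ * G.c i := by
    intro i
    by_cases hi : G.ord i va = m₀ * G.c i
    · exact Or.inl hi
    · exact Or.inr (hvb i (Finset.mem_insert_of_mem (hfin.mem_toFinset.2 hi))).2
  -- equal weights
  obtain ⟨a, rfl⟩ : ∃ a, m₀ = a + 1 := ⟨m₀ - 1, by omega⟩
  obtain ⟨b, rfl⟩ : ∃ b, m₁ = b + 1 := ⟨m₁ - 1, by omega⟩
  set m := (a + 1) * (b + 1) with hm
  have hm1 : 1 ≤ m := Nat.one_le_iff_ne_zero.2 (by positivity)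
  have hv₀W : va ^ (b + 1) ∈ G.W m := by
    have := G.W_pow hvaW (b + 1)
    rwa [mul_comm] at this
  have hv₁W : vb ^ (a + 1) ∈ G.W m := G.W_pow hvbW (a + 1)
  have hord : ∀ i, G.ord i (va ^ (b + 1)) = m * G.c i ∨ G.ord i (vb ^ (a + 1)) = m * G.c i := by
    intro i
    rcases hnz i with h | h
    · left; rw [G.ord_pow, h, hm]; push_cast; ring
    · right; rw [G.ord_pow, h, hm]; push_cast; ring
  have hG₀ : ∃ A ∈ G.W (1 + p * (m - 1)), G.T A = va ^ (b + 1) := by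
    refine ⟨(va ^ b) ^ p * Fa, ?_, by rw [G.T_mul, ← hvadef, pow_succ]⟩
    have h1 := G.W_mul (G.W_pow (G.W_pow hvaW b) p) hFa
    have h2 : p * (b * (a + 1)) + (1 + p * (a + 1 - 1)) = 1 + p * (m - 1) := by
      have h3 : m - 1 = b * (a + 1) + a := by
        have : m = b * (a + 1) + a + 1 := by rw [hm]; ring
        omega
      rw [h3, Nat.add_sub_cancel]
      ring
    rwa [h2] at h1
  have hG₁ : ∃ A ∈ G.W (1 + p * (m - 1)), G.T A = vb ^ (a + 1) := by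
    refine ⟨(vb ^ a) ^ p * Fb, ?_, by rw [G.T_mul, ← hvbdef, pow_succ]⟩
    have h1 := G.W_mul (G.W_pow (G.W_pow hvbW a) p) hFb
    have h2 : p * (a * (b + 1)) + (1 + p * (b + 1 - 1)) = 1 + p * (m - 1) := by
      have h3 : m - 1 = a * (b + 1) + b := by
        have : m = a * (b + 1) + b + 1 := by rw [hm]; ring
        omega
      rw [h3, Nat.add_sub_cancel]
      ring
    rwa [h2] at h1
  obtain ⟨A₀, hA₀, hTA₀⟩ := hG₀
  obtain ⟨A₁, hA₁, hTA₁⟩ := hG₁
  obtain ⟨N₁, hN₁⟩ := hKK E K ι p G hvan m _ _ hv₀W hv₁W (pow_ne_zero _ hva0) (pow_ne_zero _ hvb0)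
    hord
  -- surjectivity
  have hsurj : ∀ N, N₁ + m ≤ N → ∀ F ∈ G.W N, ∃ A ∈ G.W (1 + p * (N - 1)), G.T A = F := by
    intro N hN F hF
    obtain ⟨N', rfl⟩ : ∃ N', N = N' + m := ⟨N - m, by omega⟩
    obtain ⟨A, hA, B, hB, rfl⟩ := hN₁ N' (by omega) F hF
    refine ⟨A ^ p * A₀ + B ^ p * A₁, ?_, ?_⟩
    · have h2 : p * N' + (1 + p * (m - 1)) = 1 + p * (N' + m - 1) := by
        have h3 : N' + m - 1 = N' + (m - 1) := by omega
        rw [h3]
        ring
      have h4 := G.W_mul (G.W_pow hA p) hA₀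
      have h5 := G.W_mul (G.W_pow hB p) hA₁
      rw [h2] at h4 h5
      exact Submodule.add_mem _ h4 h5
    · rw [G.T_add, G.T_mul, G.T_mul, hTA₀, hTA₁]
      ring
  have hsurj' : ∀ e N, N₁ + m ≤ N → ∀ F ∈ G.W N,
      ∃ A ∈ G.W (1 + p ^ e * (N - 1)), G.T^[e] A = F := by
    intro e
    induction e with
    | zero =>
      intro N hN F hF
      refine ⟨F, ?_, rfl⟩
      have h : 1 + p ^ 0 * (N - 1) = N := by rw [pow_zero]; omega
      rwa [h]
    | succ e ih =>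
      intro N hN F hF
      obtain ⟨A, hA, rfl⟩ := ih N hN F hF
      have hge : N₁ + m ≤ 1 + p ^ e * (N - 1) := by
        have h1 : 1 ≤ p ^ e := Nat.one_le_pow _ _ (by omega)
        have h2 : 1 * (N - 1) ≤ p ^ e * (N - 1) := Nat.mul_le_mul_right _ h1
        omega
      obtain ⟨B, hB, rfl⟩ := hsurj _ hge A hA
      refine ⟨B, ?_, by rw [Function.iterate_succ_apply]⟩
      have h3 : 1 + p * (1 + p ^ e * (N - 1) - 1) = 1 + p ^ (e + 1) * (N - 1) := by
        have : 1 + p ^ e * (N - 1) - 1 = p ^ e * (N - 1) := by omega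
        rw [this, pow_succ]
        ring
      rwa [h3] at hB
  -- larger powers
  set j := N₁ + m + 1 with hj
  have hw₀ := G.W_pow hv₀W j
  have hw₁ := G.W_pow hv₁W j
  have hjm : j ≤ j * m := Nat.le_mul_of_pos_right _ hm1
  obtain ⟨N₂, hN₂⟩ := hKK E K ι p G hvan (j * m) _ _ hw₀ hw₁
    (pow_ne_zero _ (pow_ne_zero _ hva0)) (pow_ne_zero _ (pow_ne_zero _ hvb0)) (by
      intro i
      rcases hord i with h | h
      · left; rw [G.ord_pow i _ j, h]; push_cast; ring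
      · right; rw [G.ord_pow i _ j, h]; push_cast; ring)
  exact ⟨j * m, _, _, by omega, hw₀, hw₁, fun e => hsurj' e _ (by omega) _ hw₀,
    fun e => hsurj' e _ (by omega) _ hw₁, N₂, hN₂⟩

end Pool.Agent.Lib.MP_8bcb2e_ag.B
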