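import Pool.Agent.Lib.MP_8bcb2e_ag.B.Spec

set_option autoImplicit false

universe u

namespace Pool.Agent.Lib.MP_8bcb2e_ag.B

theorem t_PolyOrd : S_PolyOrd.{u} := by
  intro E K ι _ _ _ G i x hx q hq
  have hx0 : x ≠ 0 := G.ne_zero_of_ord hx.ne
  set n := q.natDegree with hn
  have hlc : q.leadingCoeff ≠ 0 := Polynomial.leadingCoeff_ne_zero.2 hq
  have hlc' : algebraMap E K q.leadingCoeff ≠ 0 := by
    rwa [Ne, FaithfulSMul.algebraMap_eq_zero_iff]
  have h1 : G.ord i (algebraMap E K q.leadingCoeff * x ^ n) = n * G.ord i x := by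
    rw [G.ord_mul i _ _ hlc' (pow_ne_zero n hx0), G.ord_const, G.ord_pow, zero_add]
  refine G.ord_eq_of_sub (mul_ne_zero hlc' (pow_ne_zero n hx0)) h1 ?_
  have h2 : Polynomial.aeval x q - algebraMap E K q.leadingCoeff * x ^ n =
      ∑ j ∈ Finset.range n, q.coeff j • x ^ j := by
    rw [Polynomial.aeval_eq_sum_range, Finset.sum_range_succ, ← hn, Algebra.smul_def (q.coeff n)]
    change _ + algebraMap E K q.leadingCoeff * x ^ n - _ = _
    ring
  rw [h2]
  refine G.ge_sum _ _ fun j hj => G.ge_smul _ ?_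
  rw [Finset.mem_range] at hj
  right
  rw [G.ord_pow]
  have h3 : (j : ℤ) + 1 ≤ n := by exact_mod_cast hj
  nlinarith

end Pool.Agent.Lib.MP_8bcb2e_ag.B
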