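import Pool.Agent.Lib.MP_8bcb2e_ag.B.Spec

set_option autoImplicit false

universe u

namespace Pool.Agent.Lib.MP_8bcb2e_ag.B

theorem t_PolyPart : S_PolyPart.{u} := by
  intro hP E K ι _ _ _ G x hx z hz
  rw [IntermediateField.mem_adjoin_simple_iff] at hz
  obtain ⟨P, Q, rfl⟩ := hz
  by_cases hQ : Q = 0
  · refine ⟨0, fun i _ => ?_⟩
    rw [hQ]
    simp only [map_zero, div_zero, sub_zero]
    exact G.ge_zero i 0
  · have hQx : Polynomial.aeval x Q ≠ 0 := fun h => hx ⟨Q, hQ, h⟩
    refine ⟨P / Q, fun i hi => ?_⟩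
    have h1 : Polynomial.aeval x P / Polynomial.aeval x Q - Polynomial.aeval x (P / Q) =
        Polynomial.aeval x (P % Q) / Polynomial.aeval x Q := by
      have h2 : Polynomial.aeval x P = Polynomial.aeval x Q * Polynomial.aeval x (P / Q) +
          Polynomial.aeval x (P % Q) := by
        rw [← map_mul, ← map_add, EuclideanDomain.div_add_mod]
      rw [h2]
      field_simp
      ring
    rw [h1]
    by_cases hR : P % Q = 0
    · rw [hR, map_zero, zero_div]
      exact G.ge_zero i 0
    · have h3 := hP E K ι G i x hi (P % Q) hR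
      have h4 := hP E K ι G i x hi Q hQ
      right
      rw [G.ord_div i h3.1 h4.1, h3.2, h4.2]
      have h5 : (P % Q).natDegree ≤ Q.natDegree :=
        (Polynomial.natDegree_le_natDegree (EuclideanDomain.mod_lt P hQ).le)
      have h6 : ((P % Q).natDegree : ℤ) ≤ Q.natDegree := by exact_mod_cast h5
      nlinarith

end Pool.Agent.Lib.MP_8bcb2e_ag.B
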