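import Pool.Agent.Lib.MP_8bcb2e_ag.B.Spec

set_option autoImplicit false

universe u

namespace Pool.Agent.Lib.MP_8bcb2e_ag.B

theorem t_PolyRes : S_PolyRes.{u} := by
  intro E K ι _ _ _ G Z x N
  classical
  have h1 : ∀ i : ι, ∃ g : Polynomial E, g ≠ 0 ∧ (0 ≤ G.ord i x → G.Ge i 1 (Polynomial.aeval x g)) := by
    intro i
    by_cases hi : 0 ≤ G.ord i x
    · obtain ⟨M, hM⟩ := G.resfin i
      obtain ⟨l, ⟨j₀, hj₀⟩, hl⟩ := hM (fun j => x ^ (j : ℕ)) fun j => by
        have := G.ge_pow (Or.inr hi : G.Ge i 0 x) j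
        rwa [mul_zero] at this
      refine ⟨∑ j : Fin (M + 1), Polynomial.C (l j) * Polynomial.X ^ (j : ℕ), ?_, fun _ => ?_⟩
      · intro h
        apply hj₀
        have h2 := congrArg (fun q => Polynomial.coeff q (j₀ : ℕ)) h
        simp only [Polynomial.finset_sum_coeff, Polynomial.coeff_C_mul, Polynomial.coeff_X_pow,
          Polynomial.coeff_zero] at h2
        rw [Finset.sum_eq_single j₀] at h2
        · simpa using h2
        · intro b _ hb
          rw [if_neg, mul_zero]
          exact fun hh => hb (Fin.ext hh.symm)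
        · intro hh
          exact absurd (Finset.mem_univ _) hh
      · have h3 : Polynomial.aeval x (∑ j : Fin (M + 1), Polynomial.C (l j) * Polynomial.X ^ (j : ℕ)) =
            ∑ j : Fin (M + 1), algebraMap E K (l j) * x ^ (j : ℕ) := by
          simp
        rw [h3]
        exact hl
    · exact ⟨1, one_ne_zero, fun h => absurd h hi⟩
  choose g hg0 hg using h1
  refine ⟨(∏ i ∈ Z, g i) ^ N, pow_ne_zero _ (Finset.prod_ne_zero_iff.2 fun i _ => hg0 i), ?_⟩
  intro i hi hx
  rw [map_pow, map_prod, ← Finset.mul_prod_erase Z _ hi]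
  have h2 := G.ge_mul (hg i hx) (G.ge_prod (Z.erase i) (fun j => Polynomial.aeval x (g j))
    fun j _ => G.ge_aeval hx _)
  have h3 := G.ge_pow h2 N
  rwa [add_zero, mul_one] at h3

end Pool.Agent.Lib.MP_8bcb2e_ag.B
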