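import Pool.Agent.Lib.MP_8bcb2e_ag.B.Spec

set_option autoImplicit false

universe u

namespace Pool.Agent.Lib.MP_8bcb2e_ag.B

theorem t_Slope : S_Slope.{u} := by
  intro E K _ _ _ p n hp hn T W A hmono hmul hT hW hfin m v₀ v₁ hm hv₀ hv₁ hT₀ hT₁ N₂ hN₂ σ hσ
  classical
  -- finite dimensional spaces are in one step of the filtration
  have hstep : ∀ N, ∃ b, W N ≤ A N b := by
    intro N
    have := hfin N
    obtain ⟨S, hS⟩ := (Submodule.fg_iff_finiteDimensional (W N)).2 this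
    have hSW : ∀ y ∈ S, y ∈ W N := fun y hy => by rw [← hS]; exact Submodule.subset_span hy
    have h1 : ∀ y : K, ∃ b, y ∈ W N → y ∈ A N b := by
      intro y
      by_cases hy : y ∈ W N
      · obtain ⟨b, hb⟩ := hW N y hy
        exact ⟨b, fun _ => hb⟩
      · exact ⟨0, fun h => absurd h hy⟩
    choose b hb using h1
    refine ⟨∑ y ∈ S, b y, ?_⟩
    rw [← hS, Submodule.span_le]
    intro y hy
    exact hmono N _ _ (Finset.single_le_sum (fun _ _ => Nat.zero_le _) hy) (hb y (hSW y hy))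
  choose bN hbN using hstep
  obtain ⟨C, hC⟩ : ∃ C, ∀ N, N₂ ≤ N → N < N₂ + m → bN N ≤ C := by
    refine ⟨∑ N ∈ Finset.range (N₂ + m), bN N, fun N _ h2 => ?_⟩
    exact Finset.single_le_sum (f := bN) (fun _ _ => Nat.zero_le _) (Finset.mem_range.2 h2)
  have hex : ∃ a, v₀ ∈ A m a ∧ v₁ ∈ A m a := by
    obtain ⟨b, hb⟩ := hW m v₀ hv₀
    obtain ⟨b', hb'⟩ := hW m v₁ hv₁
    exact ⟨max b b', hmono _ _ _ (le_max_left _ _) hb, hmono _ _ _ (le_max_right _ _) hb'⟩
  -- claim 1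
  have claim1 : ∀ a, v₀ ∈ A m a → v₁ ∈ A m a → ∀ N, N₂ ≤ N → W N ≤ A N (C + N / m * a) := by
    intro a ha₀ ha₁ N
    induction N using Nat.strong_induction_on with
    | _ N ih =>
      intro hN
      rcases lt_or_ge N (N₂ + m) with h | h
      · exact (hbN N).trans (hmono N _ _ ((hC N hN h).trans (Nat.le_add_right _ _)))
      · obtain ⟨N', rfl⟩ : ∃ N', N = N' + m := ⟨N - m, by omega⟩
        intro F hF
        obtain ⟨A', hA', B', hB', rfl⟩ := hN₂ N' (by omega) F hF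
        have h1 := ih N' (by omega) (by omega)
        have h2 := hmul _ _ _ _ _ _ ha₀ (h1 hA')
        have h3 := hmul _ _ _ _ _ _ ha₁ (h1 hB')
        have h4 : (N' + m) / m = N' / m + 1 := Nat.add_div_right _ (by omega)
        have h5 : C + (N' + m) / m * a = a + (C + N' / m * a) := by rw [h4]; ring
        rw [h5, add_comm N' m]
        exact Submodule.add_mem _ h2 h3
  -- claim 2
  have claim2 : Nat.find hex ≤ n * m := by
    by_contra! hlt
    set a := Nat.find hex with ha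
    have hspec := Nat.find_spec hex
    rw [← ha] at hspec
    have hmin : ¬ (v₀ ∈ A m (a - 1) ∧ v₁ ∈ A m (a - 1)) := Nat.find_min hex (by omega)
    apply hmin
    obtain ⟨m', rfl⟩ : ∃ m', m = m' + 1 := ⟨m - 1, by omega⟩
    obtain ⟨n', rfl⟩ : ∃ n', n = n' + 1 := ⟨n - 1, by omega⟩
    obtain ⟨a', ha'⟩ : ∃ a', a = a' + 1 := ⟨a - 1, by omega⟩
    let e := a + (m' + 1) * C + N₂ + 1
    have hq : a + (m' + 1) * C + N₂ + 1 ≤ p ^ e := (Nat.lt_pow_self (by omega)).le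
    obtain ⟨q', hq'⟩ : ∃ q', p ^ e = q' + 1 := ⟨p ^ e - 1, by omega⟩
    have hN : N₂ ≤ 1 + p ^ e * m' := by nlinarith
    have hineq : C + (1 + p ^ e * m') / (m' + 1) * a + n' * (p ^ e - 1) ≤ p ^ e * (a - 1) := by
      have h1 : (m' + 1) * ((1 + p ^ e * m') / (m' + 1)) ≤ 1 + p ^ e * m' := Nat.mul_div_le _ _
      set d := (1 + p ^ e * m') / (m' + 1) with hd
      have h2 : (m' + 1) * (C + d * a + n' * (p ^ e - 1)) ≤ (m' + 1) * (p ^ e * (a - 1)) := by
        rw [hq'] at hq h1 ⊢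
        rw [ha'] at hq hlt ⊢
        simp only [Nat.add_sub_cancel]
        have h3 : (m' + 1) * d * (a' + 1) ≤ (1 + (q' + 1) * m') * (a' + 1) :=
          Nat.mul_le_mul_right _ h1
        have h4 : (n' + 1) * (m' + 1) ≤ a' := by omega
        have h5 : (q' + 1) * ((n' + 1) * (m' + 1) + 1) ≤ (q' + 1) * (a' + 1) :=
          Nat.mul_le_mul_left _ (by omega)
        nlinarith
      exact Nat.le_of_mul_le_mul_left h2 (by omega)
    have hfinal : ∀ v, (∀ e : ℕ, ∃ x ∈ W (1 + p ^ e * (m' + 1 - 1)), T^[e] x = v) →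
        v ∈ A (m' + 1) (a - 1) := by
      intro v hv
      obtain ⟨x, hx, rfl⟩ := hv e
      have h1 := claim1 a hspec.1 hspec.2 _ hN hx
      have h2 := hT e m' _ (a - 1) x h1 hineq
      rwa [add_comm 1 m'] at h2
    exact ⟨hfinal v₀ hT₀, hfinal v₁ hT₁⟩
  -- claim 3
  have hspec := Nat.find_spec hex
  refine ⟨C + N₂ + 1, fun e he x hx => ?_⟩
  have hq : C + N₂ + 1 ≤ p ^ e := he.trans (Nat.lt_pow_self (by omega)).le
  have hN : N₂ ≤ 1 + p ^ e * σ := by nlinarith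
  have h1 := claim1 _ hspec.1 hspec.2 _ hN hx
  have h2 : C + (1 + p ^ e * σ) / m * Nat.find hex ≤ C + n * (1 + p ^ e * σ) := by
    have h3 : (1 + p ^ e * σ) / m * Nat.find hex ≤ (1 + p ^ e * σ) / m * (n * m) :=
      Nat.mul_le_mul_left _ claim2
    have h4 : (1 + p ^ e * σ) / m * m ≤ 1 + p ^ e * σ := Nat.div_mul_le_self _ _
    have h5 : (1 + p ^ e * σ) / m * (n * m) = n * ((1 + p ^ e * σ) / m * m) := by ring
    have h6 : n * ((1 + p ^ e * σ) / m * m) ≤ n * (1 + p ^ e * σ) := Nat.mul_le_mul_left _ h4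
    omega
  refine hT e σ _ _ x (hmono _ _ _ h2 h1) ?_
  obtain ⟨n', rfl⟩ : ∃ n', n = n' + 1 := ⟨n - 1, by omega⟩
  obtain ⟨q', hq'⟩ : ∃ q', p ^ e = q' + 1 := ⟨p ^ e - 1, by omega⟩
  rw [hq'] at hq ⊢
  simp only [Nat.add_sub_cancel]
  nlinarith

end Pool.Agent.Lib.MP_8bcb2e_ag.B
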