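import Pool.Agent.Lib.MP_8bcb2e_ag.B.Spec

set_option autoImplicit false

universe u

namespace Pool.Agent.Lib.MP_8bcb2e_ag.B

theorem t_TLarge : S_TLarge.{u} := by
  intro E K ι _ _ _ p hp G hvan Z
  classical
  have hp1 : 1 ≤ p := (Fact.out : p.Prime).one_lt.le
  have hfin : {i | (if i ∈ Z then (p : ℤ) else 0) ≠ 0}.Finite := by
    refine Z.finite_toSet.subset fun i hi => ?_
    by_contra h
    exact hi (if_neg h)
  obtain ⟨N₀, hN₀⟩ := hvan Z (fun i => if i ∈ Z then (p : ℤ) else 0) hfin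
  refine ⟨N₀ + 1, by omega, fun m hm => ?_⟩
  obtain ⟨m, rfl⟩ : ∃ m', m = m' + 1 := ⟨m - 1, by omega⟩
  rw [Nat.add_sub_cancel]
  have hN : N₀ ≤ 1 + p * m := by nlinarith
  choose g hg hg0 hgo using fun i => G.exists_local i (m * G.c i) 1
  have hN1 : ∀ i, (((1 + p * m : ℕ) : ℤ)) * G.c i = G.c i + p * (m * G.c i) := by
    intro i; push_cast; ring
  obtain ⟨F, hF, hF'⟩ := hN₀ _ hN g
  have hgN : ∀ i, G.Ge i (((1 + p * m : ℕ) : ℤ) * G.c i) (g i) := by
    intro i
    rw [hN1]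
    have := hg i
    rwa [pow_one] at this
  have hFW : F ∈ G.W (1 + p * m) := by
    intro i
    change G.Ge i (((1 + p * m : ℕ) : ℤ) * G.c i) F
    by_cases hi : i ∈ Z
    · have h1 := hF i hi
      beta_reduce at h1
      rw [if_pos hi] at h1
      have h2 := G.ge_add (G.ge_mono (by omega) h1) (hgN i)
      rwa [sub_add_cancel] at h2
    · have h1 := hF' i hi
      beta_reduce at h1
      rw [if_neg hi, zero_add] at h1
      exact h1
  refine ⟨F, hFW, fun i => ?_, fun i hi => ?_⟩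
  · have h1 : G.Ge i (((1 + p * m : ℕ) : ℤ) * G.c i) F := hFW i
    rw [hN1] at h1
    have h2 := G.T_reg' i _ h1
    have h3 : G.c i + m * G.c i = ((m + 1 : ℕ) : ℤ) * G.c i := by push_cast; ring
    rw [h3] at h2
    exact h2
  · have h1 := hF i hi
    beta_reduce at h1
    rw [if_pos hi, hN1] at h1
    have h4 : (p : ℤ) + (G.c i + p * (m * G.c i)) = G.c i + p * (m * G.c i + 1) := by ring
    rw [h4] at h1
    have h2 := G.T_reg' i _ h1
    have h5 : G.T (F - g i) = G.T F - G.T (g i) := G.iter_sub 1 _ _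
    rw [h5, ← add_assoc] at h2
    have h6 := G.ord_eq_of_sub (hg0 i) (hgo i) h2
    have h3 : G.c i + m * G.c i = ((m + 1 : ℕ) : ℤ) * G.c i := by push_cast; ring
    rw [h3] at h6
    exact h6

end Pool.Agent.Lib.MP_8bcb2e_ag.B
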