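import Pool.Agent.Lib.MP_8bcb2e_ag.B.Spec

set_option autoImplicit false

universe u

namespace Pool.Agent.Lib.MP_8bcb2e_ag.B

theorem t_Transc : S_Transc.{u} := by
  intro hP E K ι _ _ _ G i x hx
  rcases lt_or_gt_of_ne hx with h | h
  · rintro ⟨q, hq, hq0⟩
    exact (hP E K ι G i x h q hq).1 hq0
  · have h' : G.ord i x⁻¹ < 0 := by rw [G.ord_inv]; omega
    intro hal
    obtain ⟨q, hq, hq0⟩ := hal.inv
    exact (hP E K ι G i x⁻¹ h' q hq).1 hq0

end Pool.Agent.Lib.MP_8bcb2e_ag.B
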