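import Pool.Agent.Lib.MP_8bcb2e_ag.B.Spec

set_option autoImplicit false

universe u

namespace Pool.Agent.Lib.MP_8bcb2e_ag.B

theorem t_Two : S_Two.{u} := by
  intro hPO hTr hPR hPP hDec hVD hFV E K ι _ _ _ p hp G r s hs0 hs x N hx hNx e
  classical
  have hp1 : 1 < p := (Fact.out : p.Prime).one_lt
  have hδ : ∀ i, 0 ≤ G.ord i s - r * G.c i := fun i => by
    have := (G.ge_iff hs0).1 (hs i)
    change (r : ℤ) * G.c i ≤ _ at this
    omega
  obtain ⟨N₀, hN₀⟩ := hDec hPR hPP hPO E K ι G.toPlaces x hx G.c G.fin_c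
  -- vanishing for `c - δ`
  have h1 : G.Dec x (fun i => G.c i + -(G.ord i s - r * G.c i)) := by
    apply hFV E K ι p G x (fun i => -(G.ord i s - r * G.c i)) (N * N₀)
    refine (hN₀ N₀ le_rfl).mono fun i => ?_
    have h2 : N * N₀ ≤ p ^ (N * N₀) := (Nat.lt_pow_self hp1).le
    have h3 : ((N : ℤ) * N₀) ≤ (p : ℤ) ^ (N * N₀) := by exact_mod_cast h2
    have h4 := hδ i
    have h5 := hNx i
    rcases le_or_gt 0 (G.ord i x) with h | h
    · rw [min_eq_left h]
      have h9 : 0 ≤ (p : ℤ) ^ (N * N₀) * (G.ord i s - r * G.c i) := mul_nonneg (by positivity) h4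
      linarith
    · rw [min_eq_right h.le]
      have h6 : ((N : ℤ) * N₀) * (G.ord i s - r * G.c i) ≤
          (p : ℤ) ^ (N * N₀) * (G.ord i s - r * G.c i) := mul_le_mul_of_nonneg_right h3 h4
      have h7 : (N₀ : ℤ) * -(N * (G.ord i s - r * G.c i)) ≤ N₀ * G.ord i x :=
        mul_le_mul_of_nonneg_left h5 (by positivity)
      nlinarith
  -- a pole of `x`
  obtain ⟨i₀, hi₀⟩ : ∃ i, G.ord i x < 0 := by
    by_contra! hcon
    exact hx (G.alg x fun i => Or.inr (hcon i))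
  have hδ₀ : 1 ≤ G.ord i₀ s - r * G.c i₀ := by
    by_contra! hcon
    have h2 : G.ord i₀ s - r * G.c i₀ = 0 := by have := hδ i₀; omega
    have h3 := hNx i₀
    rw [h2, mul_zero, neg_zero] at h3
    omega
  set q : ℕ := p ^ e with hq
  have hq1 : 1 ≤ q := Nat.one_le_pow _ _ (by omega)
  have hq1' : (1 : ℤ) ≤ q := by exact_mod_cast hq1
  set d : ι → ℤ := fun i => (1 + 3 * r * q) * G.c i + if i = i₀ then 2 * (q : ℤ) else 0 with hd
  have h2 : G.Dec x d := by
    refine (h1.shift (pow_ne_zero (3 * q) hs0)).mono fun i => ?_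
    rw [hd, G.ord_pow]
    push_cast
    have h4 := hδ i
    have h5 : 0 ≤ ((q : ℤ) - 1) * (G.ord i s - r * G.c i) := mul_nonneg (by omega) h4
    split_ifs with h
    · subst h
      have h6 : (3 * (q : ℤ) - 1) * 1 ≤ (3 * (q : ℤ) - 1) * (G.ord i s - r * G.c i) :=
        mul_le_mul_of_nonneg_left hδ₀ (by omega)
      nlinarith
    · have h6 : 0 ≤ (3 * (q : ℤ) - 1) * (G.ord i s - r * G.c i) := mul_nonneg (by omega) h4
      nlinarith
  have h3 := hVD E K ι G.toPlaces x d h2 {i₀} (by simpa using hi₀)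
  -- the two forms
  have key : ∀ j : ℤ, 0 ≤ j → j ≤ 1 → ∃ F ∈ G.W (1 + q * (3 * r)), G.T^[e] F ≠ 0 ∧
      G.ord i₀ (G.T^[e] F) = G.c i₀ + (3 * r * G.c i₀ + j) := by
    intro j hj0 hj1
    obtain ⟨g, hg, hg0, hgo⟩ := G.exists_local i₀ (3 * r * G.c i₀ + j) e
    obtain ⟨F, hF, hF'⟩ := h3 fun _ => g
    have hFg : G.Ge i₀ ((1 + 3 * r * q) * G.c i₀ + 2 * (q : ℤ)) (F - g) := by
      have := hF i₀ (Finset.mem_singleton_self _)
      rw [hd] at this
      simpa using this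
    have hqe : (p : ℤ) ^ e = q := by rw [hq]; push_cast; rfl
    refine ⟨F, fun i => ?_, ?_⟩
    · change G.Ge i (((1 + q * (3 * r) : ℕ) : ℤ) * G.c i) F
      have hw : (((1 + q * (3 * r) : ℕ) : ℤ) * G.c i) = (1 + 3 * r * q) * G.c i := by
        push_cast; ring
      rw [hw]
      by_cases hi : i = i₀
      · subst hi
        have h4 : G.Ge i ((1 + 3 * r * q) * G.c i) g := by
          refine G.ge_mono ?_ hg
          rw [hqe]
          nlinarith
        have h5 := G.ge_add (G.ge_mono (by omega) hFg) h4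
        rwa [sub_add_cancel] at h5
      · have := hF' i (by simpa using hi)
        rw [hd] at this
        simpa [hi] using this
    · have h4 : G.Ge i₀ (G.c i₀ + p ^ e * (3 * r * G.c i₀ + 2)) (F - g) := by
        have h5 : G.c i₀ + (p : ℤ) ^ e * (3 * r * G.c i₀ + 2) =
            (1 + 3 * r * q) * G.c i₀ + 2 * (q : ℤ) := by rw [hqe]; ring
        rw [h5]
        exact hFg
      have h6 := G.iter_reg i₀ _ e h4
      rw [G.iter_sub] at h6
      exact G.ord_eq_of_sub hg0 hgo (G.ge_mono (by omega) h6)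
  obtain ⟨F₀, hF₀, h00, h01⟩ := key 0 le_rfl zero_le_one
  obtain ⟨F₁, hF₁, h10, h11⟩ := key 1 zero_le_one le_rfl
  refine ⟨F₀, hF₀, F₁, hF₁, h00, hTr hPO E K ι G.toPlaces i₀ _ ?_⟩
  rw [G.ord_div i₀ h10 h00, h01, h11]
  omega

end Pool.Agent.Lib.MP_8bcb2e_ag.B
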