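import Pool.Agent.Lib.MP_8bcb2e_ag.B.Spec

set_option autoImplicit false

universe u

namespace Pool.Agent.Lib.MP_8bcb2e_ag.B

theorem t_VanOfDec : S_VanOfDec.{u} := by
  intro E K ι _ _ _ G x d hD Z hZ a
  classical
  have hfin : {i | G.ord i x < 0}.Finite := (G.fin x).subset fun i hi => ne_of_lt hi
  let P := hfin.toFinset
  have hP : ∀ i, i ∈ P ↔ G.ord i x < 0 := fun i => hfin.mem_toFinset
  obtain ⟨y, hy⟩ := G.approx P (fun i => if i ∈ Z then a i else 0) (∑ i ∈ P, |d i|)
  obtain ⟨F, b, hyF, hF, hb⟩ := hD y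
  have hle : ∀ i ∈ P, d i ≤ ∑ j ∈ P, |d j| := fun i hi =>
    (le_abs_self _).trans (Finset.single_le_sum (f := fun j => |d j|) (fun j _ => abs_nonneg _) hi)
  refine ⟨F, fun i hi => ?_, fun i hi => ?_⟩
  · have hiP : i ∈ P := (hP i).2 (hZ i hi)
    have h1 : G.Ge i (d i) (y - a i) := by
      have := hy i hiP
      rw [if_pos hi] at this
      exact G.ge_mono (hle i hiP) this
    have h2 := G.ge_sub h1 (hb i (hZ i hi))
    have h3 : y - a i - b = F - a i := by rw [hyF]; ring
    rwa [h3] at h2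
  · rcases lt_or_ge (G.ord i x) 0 with h | h
    · have hiP : i ∈ P := (hP i).2 h
      have h1 : G.Ge i (d i) y := by
        have := hy i hiP
        rw [if_neg hi, sub_zero] at this
        exact G.ge_mono (hle i hiP) this
      have h2 := G.ge_sub h1 (hb i h)
      have h3 : y - b = F := by rw [hyF]; ring
      rwa [h3] at h2
    · exact hF i h

end Pool.Agent.Lib.MP_8bcb2e_ag.B
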