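import Pool.Agent.Lib.MP_8bcb2e_ag.B.Main
import Pool.Agent.Lib.MP_8bcb2e_ag.B.PolyOrd
import Pool.Agent.Lib.MP_8bcb2e_ag.B.Transc
import Pool.Agent.Lib.MP_8bcb2e_ag.B.PolyRes
import Pool.Agent.Lib.MP_8bcb2e_ag.B.PolyPart
import Pool.Agent.Lib.MP_8bcb2e_ag.B.Decomp
import Pool.Agent.Lib.MP_8bcb2e_ag.B.FinStep
import Pool.Agent.Lib.MP_8bcb2e_ag.B.FinDim
import Pool.Agent.Lib.MP_8bcb2e_ag.B.VanOfDec
import Pool.Agent.Lib.MP_8bcb2e_ag.B.Van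
import Pool.Agent.Lib.MP_8bcb2e_ag.B.KK
import Pool.Agent.Lib.MP_8bcb2e_ag.B.TLarge
import Pool.Agent.Lib.MP_8bcb2e_ag.B.Pair
import Pool.Agent.Lib.MP_8bcb2e_ag.B.FrobVan
import Pool.Agent.Lib.MP_8bcb2e_ag.B.Two
import Pool.Agent.Lib.MP_8bcb2e_ag.B.Slope

/-! # The abstract part, complete -/

set_option autoImplicit false

universe u

namespace Pool.Agent.Lib.MP_8bcb2e_ag.B

theorem allA : AllA.{u} :=
  ⟨t_PolyOrd, t_Transc, t_PolyRes, t_PolyPart, t_Decomp, t_FinStep, t_FinDim, t_VanOfDec, t_Van,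
    t_KK, t_TLarge, t_Pair, t_FrobVan, t_Two, t_Slope⟩

end Pool.Agent.Lib.MP_8bcb2e_ag.B
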