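import Pool.Agent.Lib.MP_8bcb2e_ag.B.SpecC

/-!
# Coordinates at a place

Lifts of a differential basis of the residue field and a uniformizer form a system of coordinates at a place.
-/

set_option autoImplicit false

universe u

namespace Pool.Agent.Lib.MP_8bcb2e_ag.B

open KaehlerDifferential

section aux

variable {E K ι : Type u} [Field E] [Field K] [Algebra E K] (G : Places E K ι) (v : ι) (V : ValuationSubring K)

private theorem CoordAt_unit (hV : ∀ a, a ∈ V ↔ G.Ge v 0 a) (u : V) (hu : IsLocalRing.residue V u ≠ 0) :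
    (u : K) ≠ 0 ∧ G.ord v (u : K) = 0 := by
  rw [IsLocalRing.residue_ne_zero_iff_isUnit] at hu
  obtain ⟨w, hw⟩ := hu.exists_right_inv
  have h1 : (u : K) * (w : K) = 1 := congrArg Subtype.val hw
  have hu0 : (u : K) ≠ 0 := left_ne_zero_of_mul (by rw [h1]; exact one_ne_zero)
  have hw0 : (w : K) ≠ 0 := right_ne_zero_of_mul (by rw [h1]; exact one_ne_zero)
  have h2 := G.ord_mul v _ _ hu0 hw0
  rw [h1, G.ord_one] at h2
  have h3 := (G.ge_iff hu0).1 ((hV _).1 u.2)
  have h4 := (G.ge_iff hw0).1 ((hV _).1 w.2)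
  exact ⟨hu0, by omega⟩

private theorem CoordAt_block (hV : ∀ a, a ∈ V ↔ G.Ge v 0 a) {p ν : ℕ} (y' : Fin ν → V)
    (hind : ∀ c : (Fin ν → Fin p) → IsLocalRing.ResidueField V,
      ∑ α, c α ^ p * ∏ i, IsLocalRing.residue V (y' i) ^ (α i : ℕ) = 0 → ∀ α, c α = 0)
    (c : (Fin ν → Fin p) → K) :
    (∀ α, c α = 0) ∨ ∃ n : ℤ, (∑ α, c α ^ p * ∏ i, (y' i : K) ^ (α i : ℕ)) ≠ 0 ∧
      G.ord v (∑ α, c α ^ p * ∏ i, (y' i : K) ^ (α i : ℕ)) = p * n ∧ ∀ α, G.Ge v n (c α) := by
  classical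
  by_cases h : ∀ α, c α = 0
  · exact Or.inl h
  right
  push Not at h
  obtain ⟨α₀, h₀⟩ := h
  obtain ⟨β, hβ, hmin⟩ := Finset.exists_min_image (Finset.univ.filter fun α => c α ≠ 0)
    (fun α => G.ord v (c α)) ⟨α₀, by simp [h₀]⟩
  have hβ0 : c β ≠ 0 := (Finset.mem_filter.1 hβ).2
  have hge : ∀ α, G.Ge v (G.ord v (c β)) (c α) := fun α => by
    rcases eq_or_ne (c α) 0 with h1 | h1
    · exact Or.inl h1
    · exact Or.inr (hmin α (by simp [h1]))
  have hd : ∀ α, c α / c β ∈ V := fun α => by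
    rw [hV, div_eq_inv_mul]
    have h1 := G.ge_mul (G.ge_ord (i := v) (c β)⁻¹) (hge α)
    rw [G.ord_inv] at h1
    simpa using h1
  let S : V := ∑ α, (⟨c α / c β, hd α⟩ : V) ^ p * ∏ i, y' i ^ (α i : ℕ)
  have hS : (S : K) = ∑ α, (c α / c β) ^ p * ∏ i, (y' i : K) ^ (α i : ℕ) := by
    simp [S]
  have hres : IsLocalRing.residue V S ≠ 0 := by
    intro h0
    have h1 := hind (fun α => IsLocalRing.residue V ⟨c α / c β, hd α⟩) (by
      rw [← h0]
      simp only [S, map_sum, map_mul, map_prod, map_pow]) β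
    have h2 : (⟨c β / c β, hd β⟩ : V) = 1 := Subtype.ext (div_self hβ0)
    rw [h2, map_one] at h1
    exact one_ne_zero h1
  obtain ⟨hS0, hSo⟩ := CoordAt_unit G v V hV S hres
  have hA : ∑ α, c α ^ p * ∏ i, (y' i : K) ^ (α i : ℕ) = c β ^ p * S := by
    rw [hS, Finset.mul_sum]
    refine Finset.sum_congr rfl fun α _ => ?_
    rw [← mul_assoc, ← mul_pow, mul_div_cancel₀ _ hβ0]
  refine ⟨G.ord v (c β), ?_, ?_, hge⟩
  · rw [hA]
    exact mul_ne_zero (pow_ne_zero _ hβ0) hS0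
  · rw [hA, G.ord_mul v _ _ (pow_ne_zero _ hβ0) hS0, hSo, G.ord_pow, add_zero]

private theorem CoordAt_dist {p : ℕ} (f : Fin p → K)
    (hf : ∀ i j, f i ≠ 0 → f j ≠ 0 → G.ord v (f i) = G.ord v (f j) → i = j) (m : ℤ)
    (h : G.Ge v m (∑ i, f i)) : ∀ i, G.Ge v m (f i) := by
  classical
  by_contra hc
  push Not at hc
  obtain ⟨i₀, hi₀⟩ := hc
  have h0 : f i₀ ≠ 0 := fun h => hi₀ (Or.inl h)
  have h1 : G.ord v (f i₀) < m := by
    by_contra h2
    exact hi₀ (Or.inr (not_lt.1 h2))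
  obtain ⟨j, hj, hmin⟩ := Finset.exists_min_image (Finset.univ.filter fun i => f i ≠ 0)
    (fun i => G.ord v (f i)) ⟨i₀, by simp [h0]⟩
  have hj0 := (Finset.mem_filter.1 hj).2
  have hjm : G.ord v (f j) < m := (hmin i₀ (by simp [h0])).trans_lt h1
  have h2 : G.Ge v (G.ord v (f j) + 1) (∑ i, f i - f j) := by
    rw [← Finset.add_sum_erase _ _ (Finset.mem_univ j), add_sub_cancel_left]
    refine G.ge_sum _ _ fun i hi => ?_
    rcases eq_or_ne (f i) 0 with h3 | h3
    · exact Or.inl h3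
    · right
      have h4 := hmin i (by simp [h3])
      have h5 : G.ord v (f i) ≠ G.ord v (f j) := fun h => (Finset.mem_erase.1 hi).1 (hf i j h3 hj0 h)
      exact Int.add_one_le_iff.2 (lt_of_le_of_ne h4 (Ne.symm h5))
  obtain ⟨h3, h4⟩ := G.ord_eq_of_sub hj0 rfl h2
  rw [G.ge_iff h3] at h
  omega

private theorem CoordAt_comb (hV : ∀ a, a ∈ V ↔ G.Ge v 0 a) {p ν : ℕ} (y' : Fin ν → V)
    (hind : ∀ c : (Fin ν → Fin p) → IsLocalRing.ResidueField V,
      ∑ α, c α ^ p * ∏ i, IsLocalRing.residue V (y' i) ^ (α i : ℕ) = 0 → ∀ α, c α = 0)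
    (π : K) (hπ0 : π ≠ 0) (hπ : G.ord v π = 1) (c : (Fin ν → Fin p) → Fin p → K) (m : ℤ)
    (h : G.Ge v (p * m) (∑ i : Fin p, (∑ α, c α i ^ p * ∏ j, (y' j : K) ^ (α j : ℕ)) * π ^ (i : ℕ))) :
    ∀ α i, G.Ge v m (c α i) := by
  have key (i : Fin p) := CoordAt_block G v V hV y' hind (fun α => c α i)
  have hne (i : Fin p) (hi : (∑ α, c α i ^ p * ∏ j, (y' j : K) ^ (α j : ℕ)) * π ^ (i : ℕ) ≠ 0) :
      ∃ n : ℤ, G.ord v ((∑ α, c α i ^ p * ∏ j, (y' j : K) ^ (α j : ℕ)) * π ^ (i : ℕ)) = p * n + (i : ℕ) := by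
    rcases key i with h1 | ⟨n, h1, h2, _⟩
    · exfalso
      apply hi
      have hp : p ≠ 0 := fun h => by
        have := i.2
        omega
      rw [Finset.sum_eq_zero fun α _ => by rw [h1 α, zero_pow hp, zero_mul], zero_mul]
    · refine ⟨n, ?_⟩
      rw [G.ord_mul v _ _ h1 (pow_ne_zero _ hπ0), h2, G.ord_pow, hπ, mul_one]
  have hd := CoordAt_dist G v
    (fun i : Fin p => (∑ α, c α i ^ p * ∏ j, (y' j : K) ^ (α j : ℕ)) * π ^ (i : ℕ)) (fun i j hi hj hij => by
      obtain ⟨n, hn⟩ := hne i hi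
      obtain ⟨n', hn'⟩ := hne j hj
      rw [hn, hn'] at hij
      have hi2 := i.2
      have hj2 := j.2
      have h1 : (p : ℤ) * (n - n') = ((j : ℕ) : ℤ) - ((i : ℕ) : ℤ) := by linarith
      have h2 : n - n' = 0 := by
        by_contra h3
        rcases lt_or_gt_of_ne h3 with h4 | h4
        · have h5 : (p : ℤ) * (n - n') ≤ p * (-1) := mul_le_mul_of_nonneg_left (by omega) (by positivity)
          omega
        · have h5 : (p : ℤ) * 1 ≤ p * (n - n') := mul_le_mul_of_nonneg_left (by omega) (by positivity)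
          omega
      rw [h2, mul_zero] at h1
      exact Fin.ext (by omega)) (p * m) h
  intro α i
  rcases key i with h1 | ⟨n, h1, h2, h3⟩
  · exact Or.inl (h1 α)
  · have h4 := hd i
    have h5 : (∑ α, c α i ^ p * ∏ j, (y' j : K) ^ (α j : ℕ)) * π ^ (i : ℕ) ≠ 0 :=
      mul_ne_zero h1 (pow_ne_zero _ hπ0)
    have h6 := (G.ge_iff h5).1 h4
    rw [G.ord_mul v _ _ h1 (pow_ne_zero _ hπ0), h2, G.ord_pow, hπ, mul_one] at h6
    refine G.ge_mono ?_ (h3 α)
    by_contra! h7
    have h8 : (p : ℤ) * 1 ≤ p * (m - n) := mul_le_mul_of_nonneg_left (by omega) (by positivity)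
    have h9 := i.2
    have h10 : (p : ℤ) * (m - n) = p * m - p * n := by ring
    omega

private theorem CoordAt_zero {a : K} (h : ∀ m : ℤ, G.Ge v m a) : a = 0 := by
  by_contra h0
  have h1 := (G.ge_iff h0).1 (h (G.ord v a + 1))
  omega

end aux

/-- The number of elements of a spanning family and of an independent family over the `p`-th powers. -/
private theorem CoordAt_span {K : Type u} [Field K] (p : ℕ) [Fact p.Prime] [CharP K p] {A B : Type} [Fintype A]
    [Fintype B] (hAB : Fintype.card A = Fintype.card B) (m : A → K) (w : B → K)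
    (hspan : ∀ a : K, ∃ c : A → K, a = ∑ α, c α ^ p * m α)
    (hind : ∀ c : B → K, ∑ β, c β ^ p * w β = 0 → ∀ β, c β = 0) (a : K) : ∃ c : B → K, a = ∑ β, c β ^ p * w β := by
  classical
  have hp : p.Prime := Fact.out
  let F : Subfield K := (frobenius K p).fieldRange
  have hF (c : K) : c ^ p ∈ F := ⟨c, frobenius_def p c⟩
  have hF' (c : F) : ∃ b : K, b ^ p = c := by
    obtain ⟨b, hb⟩ := c.2
    exact ⟨b, by rw [← hb, frobenius_def]⟩
  have h1 : Submodule.span F (Set.range m) = ⊤ := by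
    rw [eq_top_iff]
    intro a _
    obtain ⟨c, hc⟩ := hspan a
    rw [hc]
    refine Submodule.sum_mem _ fun α _ => ?_
    exact Submodule.smul_mem _ (⟨c α ^ p, hF _⟩ : F) (Submodule.subset_span ⟨α, rfl⟩)
  have h2 : LinearIndependent F w := by
    rw [Fintype.linearIndependent_iff]
    intro g hg
    choose b hb using fun β => hF' (g β)
    have h3 : ∑ β, b β ^ p * w β = 0 := by
      rw [← hg]
      refine Finset.sum_congr rfl fun β _ => ?_
      rw [hb β]
      rfl
    intro β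
    have h4 := hind b h3 β
    have h5 := hb β
    rw [h4, zero_pow hp.ne_zero] at h5
    exact Subtype.ext h5.symm
  have hfin : Module.Finite F K := ⟨by
    rw [← h1]
    exact Submodule.fg_span (Set.finite_range m)⟩
  have h3 : Module.finrank F K ≤ Fintype.card A := by
    have h4 := finrank_range_le_card (R := F) m
    rw [Set.finrank, h1, finrank_top] at h4
    exact h4
  have h4 : Fintype.card B = Module.finrank F K := le_antisymm h2.fintype_card_le_finrank (hAB ▸ h3)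
  have h5 : Submodule.span F (Set.range w) = ⊤ := h2.span_eq_top_of_card_eq_finrank' h4
  have h6 : a ∈ Submodule.span F (Set.range w) := by rw [h5]; exact Submodule.mem_top
  obtain ⟨g, hg⟩ := (Submodule.mem_span_range_iff_exists_fun F).1 h6
  choose b hb using fun β => hF' (g β)
  refine ⟨b, ?_⟩
  rw [← hg]
  refine Finset.sum_congr rfl fun β _ => ?_
  rw [hb β]
  rfl

/-- Differentials which are combinations of the `D (x j)` with coefficients in `V`. -/
private def CoordAt_S (k : Type u) {K : Type u} [Field k] [Field K] [Algebra k K] {n : ℕ} (V : ValuationSubring K)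
    (x : Fin n → K) (θ : Ω[K⁄k]) : Prop := ∃ c : Fin n → K, (∀ i, c i ∈ V) ∧ θ = ∑ i, c i • D k K (x i)

section diff

variable {k K : Type u} [Field k] [Field K] [Algebra k K] {n : ℕ} (V : ValuationSubring K) (x : Fin n → K)

private theorem CoordAt_S_add {θ θ' : Ω[K⁄k]} (h : CoordAt_S k V x θ) (h' : CoordAt_S k V x θ') :
    CoordAt_S k V x (θ + θ') := by
  obtain ⟨c, hc, rfl⟩ := h
  obtain ⟨c', hc', rfl⟩ := h'
  refine ⟨fun i => c i + c' i, fun i => V.add_mem _ _ (hc i) (hc' i), ?_⟩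
  rw [← Finset.sum_add_distrib]
  exact Finset.sum_congr rfl fun i _ => (add_smul _ _ _).symm

private theorem CoordAt_S_smul {θ : Ω[K⁄k]} {a : K} (ha : a ∈ V) (h : CoordAt_S k V x θ) :
    CoordAt_S k V x (a • θ) := by
  obtain ⟨c, hc, rfl⟩ := h
  refine ⟨fun i => a * c i, fun i => V.mul_mem _ _ ha (hc i), ?_⟩
  rw [Finset.smul_sum]
  exact Finset.sum_congr rfl fun i _ => smul_smul _ _ _

private theorem CoordAt_S_zero : CoordAt_S k V x 0 :=
  ⟨fun _ => 0, fun _ => V.zero_mem, by simp⟩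

/-- The elements of `V` with differential in the module above. -/
private def CoordAt_R (k : Type u) {K : Type u} [Field k] [Field K] [Algebra k K] {n : ℕ} (V : ValuationSubring K)
    (x : Fin n → K) : Subring K where
  carrier := {a | a ∈ V ∧ CoordAt_S k V x (D k K a)}
  mul_mem' := by
    rintro a b ⟨ha, ha'⟩ ⟨hb, hb'⟩
    refine ⟨V.mul_mem _ _ ha hb, ?_⟩
    rw [Derivation.leibniz]
    exact CoordAt_S_add V x (CoordAt_S_smul V x ha hb') (CoordAt_S_smul V x hb ha')
  one_mem' := ⟨V.one_mem, by rw [Derivation.map_one_eq_zero]; exact CoordAt_S_zero V x⟩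
  add_mem' := by
    rintro a b ⟨ha, ha'⟩ ⟨hb, hb'⟩
    refine ⟨V.add_mem _ _ ha hb, ?_⟩
    rw [map_add]
    exact CoordAt_S_add V x ha' hb'
  zero_mem' := ⟨V.zero_mem, by rw [map_zero]; exact CoordAt_S_zero V x⟩
  neg_mem' := by
    rintro a ⟨ha, ha'⟩
    refine ⟨V.neg_mem _ ha, ?_⟩
    have h1 := CoordAt_S_smul V x (V.neg_mem _ V.one_mem) ha'
    rwa [neg_smul, one_smul, ← map_neg] at h1

private theorem CoordAt_R_x (hx : ∀ i, x i ∈ V) (i : Fin n) : x i ∈ CoordAt_R k V x := by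
  classical
  refine ⟨hx i, fun j => if j = i then 1 else 0, fun j => ?_, ?_⟩
  · dsimp only
    split_ifs
    · exact V.one_mem
    · exact V.zero_mem
  · simp

private theorem CoordAt_R_pow (p : ℕ) [CharP K p] {a : K} (ha : a ∈ V) : a ^ p ∈ CoordAt_R k V x := by
  refine ⟨V.toSubring.pow_mem ha p, ?_⟩
  rw [Derivation.leibniz_pow, ← Nat.cast_smul_eq_nsmul K, CharP.cast_eq_zero, zero_smul]
  exact CoordAt_S_zero V x

end diff

theorem t_CoordAt : S_CoordAt.{u} := by
  intro hPB hDM hDB hMI hRB k K _ _ _ _ p _ _ _ ν x₀ hx₀ t ht hfg G hG V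
  classical
  have hpp : p.Prime := Fact.out
  have hchar : CharP K p := charP_of_injective_algebraMap (algebraMap k K).injective p
  have hk : ∀ a : k, algebraMap k K a ∈ V.1 := fun a => V.2.1 _ (IntermediateField.algebraMap_mem _ a)
  obtain ⟨yb, hyb⟩ := hRB hDM hDB k K ν t ht hfg V hk
  have hind0 : ∀ c : (Fin ν → Fin p) → IsLocalRing.ResidueField V.1,
      ∑ α, c α ^ p * ∏ i, yb i ^ (α i : ℕ) = 0 → ∀ α, c α = 0 := by
    let _ : Algebra k (IsLocalRing.ResidueField V.1) :=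
      ((IsLocalRing.residue V.1).comp ((algebraMap k K).codRestrict V.1.toSubring hk)).toAlgebra
    exact hMI k (IsLocalRing.ResidueField V.1) p ν yb hyb
  choose y' hy' using fun i => IsLocalRing.residue_surjective (R := V.1) (yb i)
  have hind : ∀ c : (Fin ν → Fin p) → IsLocalRing.ResidueField V.1,
      ∑ α, c α ^ p * ∏ i, IsLocalRing.residue V.1 (y' i) ^ (α i : ℕ) = 0 → ∀ α, c α = 0 := by
    intro c hc
    apply hind0
    rw [← hc]
    refine Finset.sum_congr rfl fun α _ => ?_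
    simp only [hy']
  obtain ⟨π, hπ0, hπ⟩ := G.exists_unif V
  have hπV : π ∈ V.1 := (hG V π).2 (Or.inr (by rw [hπ]; exact zero_le_one))
  have hcomb := CoordAt_comb G V V.1 (hG V) y' hind π hπ0 hπ
  -- rearrangement of the sum
  have hsum (c : (Fin ν → Fin p) × Fin p → K) :
      ∑ β : (Fin ν → Fin p) × Fin p, c β ^ p * ((∏ j, (y' j : K) ^ (β.1 j : ℕ)) * π ^ (β.2 : ℕ)) =
        ∑ i : Fin p, (∑ α, c (α, i) ^ p * ∏ j, (y' j : K) ^ (α j : ℕ)) * π ^ (i : ℕ) := by
    rw [Fintype.sum_prod_type_right]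
    refine Finset.sum_congr rfl fun i _ => ?_
    rw [Finset.sum_mul]
    exact Finset.sum_congr rfl fun α _ => (mul_assoc _ _ _).symm
  have hspan : ∀ a : K, ∃ c : (Fin ν → Fin p) × Fin p → K,
      a = ∑ β : (Fin ν → Fin p) × Fin p, c β ^ p * ((∏ j, (y' j : K) ^ (β.1 j : ℕ)) * π ^ (β.2 : ℕ)) := by
    refine CoordAt_span p (A := Fin (ν + 1) → Fin p) (B := (Fin ν → Fin p) × Fin p) ?_
      (fun α => ∏ i, x₀ i ^ (α i : ℕ)) _ (hPB k K p (ν + 1) x₀ hx₀) ?_
    · simp [pow_succ]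
    · intro c hc β
      rw [hsum] at hc
      refine CoordAt_zero G V fun m => ?_
      refine hcomb (fun α i => c (α, i)) m ?_ β.1 β.2
      rw [hc]
      exact G.ge_zero V _
  have hspanV : ∀ a ∈ V.1, ∃ c : (Fin ν → Fin p) × Fin p → K, (∀ β, c β ∈ V.1) ∧
      a = ∑ β : (Fin ν → Fin p) × Fin p, c β ^ p * ((∏ j, (y' j : K) ^ (β.1 j : ℕ)) * π ^ (β.2 : ℕ)) := by
    intro a ha
    obtain ⟨c, hc⟩ := hspan a
    refine ⟨c, fun β => ?_, hc⟩
    rw [hG]
    refine hcomb (fun α i => c (α, i)) 0 ?_ β.1 β.2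
    rw [← hsum, ← hc, mul_zero]
    exact (hG V a).1 ha
  let x : Fin (ν + 1) → K := Fin.snoc (fun i => (y' i : K)) π
  have hxl (i : Fin ν) : x i.castSucc = y' i := Fin.snoc_castSucc (α := fun _ => K) _ _ _
  have hxr : x (Fin.last ν) = π := Fin.snoc_last (α := fun _ => K) _ _
  have hxV : ∀ i, x i ∈ V.1 := by
    intro i
    refine Fin.lastCases ?_ (fun i => ?_) i
    · rw [hxr]; exact hπV
    · rw [hxl]; exact (y' i).2
  have hR : ∀ a ∈ V.1, a ∈ CoordAt_R k V.1 x := by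
    intro a ha
    obtain ⟨c, hc, rfl⟩ := hspanV a ha
    refine Subring.sum_mem _ fun β _ => Subring.mul_mem _ (CoordAt_R_pow V.1 x p (hc β)) ?_
    refine Subring.mul_mem _ (Subring.prod_mem _ fun j _ => Subring.pow_mem _ ?_ _) (Subring.pow_mem _ ?_ _)
    · rw [← hxl]; exact CoordAt_R_x V.1 x hxV _
    · rw [← hxr]; exact CoordAt_R_x V.1 x hxV _
  refine ⟨x, hxV, ?_, fun a ha => (hR a ha).2⟩
  obtain ⟨b₀, _⟩ := hx₀
  have hcard : Fintype.card (Fin (ν + 1)) = Module.finrank K Ω[K⁄k] := by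
    rw [Module.finrank_eq_card_basis b₀]
  have hDV : ∀ a ∈ V.1, D k K a ∈ Submodule.span K (Set.range fun i => D k K (x i)) := by
    intro a ha
    obtain ⟨c, _, hc⟩ := (hR a ha).2
    rw [hc]
    exact Submodule.sum_mem _ fun i _ => Submodule.smul_mem _ _ (Submodule.subset_span ⟨i, rfl⟩)
  have htop : ⊤ ≤ Submodule.span K (Set.range fun i => D k K (x i)) := by
    rw [← KaehlerDifferential.span_range_derivation, Submodule.span_le]
    rintro _ ⟨a, rfl⟩
    rcases V.1.mem_or_inv_mem a with ha | ha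
    · exact hDV a ha
    · rcases eq_or_ne a 0 with rfl | ha0
      · rw [map_zero]
        exact Submodule.zero_mem _
      · have h1 := hDV _ ha
        have h2 : D k K a = -(a ^ 2) • D k K a⁻¹ := by
          have h3 : D k K (a * a⁻¹) = 0 := by
            rw [mul_inv_cancel₀ ha0, Derivation.map_one_eq_zero]
          rw [Derivation.leibniz] at h3
          have h4 : a⁻¹ • D k K a = -(a • D k K a⁻¹) := by
            rw [eq_neg_iff_add_eq_zero, add_comm]
            exact h3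
          have h5 : D k K a = a • (a⁻¹ • D k K a) := by rw [smul_smul, mul_inv_cancel₀ ha0, one_smul]
          rw [h5, h4, smul_neg, smul_smul, neg_smul, sq]
        change D k K a ∈ _
        rw [h2]
        exact Submodule.smul_mem _ _ h1
  exact ⟨basisOfTopLeSpanOfCardEqFinrank _ htop hcard, fun i => by
    rw [coe_basisOfTopLeSpanOfCardEqFinrank]⟩

end Pool.Agent.Lib.MP_8bcb2e_ag.B
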