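import Pool.Agent.Lib.MP_8bcb2e_ag.Spec

/-!
# Places of a function field in one variable with a Frobenius trace

`K` is a function field in one variable over a field `E` (not necessarily algebraically closed in `K`,
not perfect). `ι` is the set of places, `ord i` the normalized valuation of the place `i`.
-/

set_option autoImplicit false

universe u

namespace Pool.Agent.Lib.MP_8bcb2e_ag.B

/-- `a` is zero or has order at least `m` at `i`. -/
def OGe {K ι : Type u} [Field K] (ord : ι → K → ℤ) (i : ι) (m : ℤ) (a : K) : Prop :=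
  a = 0 ∨ m ≤ ord i a

/-- The places of a function field `K` in one variable over `E`. -/
structure Places (E K : Type u) [Field E] [Field K] [Algebra E K] (ι : Type u) where
  /-- the normalized valuations -/
  ord : ι → K → ℤ
  ord_zero : ∀ i, ord i 0 = 0
  ord_mul : ∀ i a b, a ≠ 0 → b ≠ 0 → ord i (a * b) = ord i a + ord i b
  ord_add : ∀ i a b, a ≠ 0 → b ≠ 0 → a + b ≠ 0 → min (ord i a) (ord i b) ≤ ord i (a + b)
  ord_const : ∀ i (a : E), ord i (algebraMap E K a) = 0
  unif : ∀ i, ∃ a, ord i a = 1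
  /-- the residue fields are finite over `E` -/
  resfin : ∀ i, ∃ M : ℕ, ∀ a : Fin (M + 1) → K, (∀ j, OGe ord i 0 (a j)) →
    ∃ l : Fin (M + 1) → E, (∃ j, l j ≠ 0) ∧ OGe ord i 1 (∑ j, algebraMap E K (l j) * a j)
  /-- an element without poles is algebraic over `E` -/
  alg : ∀ a : K, (∀ i, OGe ord i 0 a) → IsAlgebraic E a
  fin : ∀ a, {i | ord i a ≠ 0}.Finite
  approx : ∀ (S : Finset ι) (a : ι → K) (N : ℤ), ∃ x : K, ∀ i ∈ S, OGe ord i N (x - a i)
  fg : ∀ x : K, Transcendental E x → FiniteDimensional (IntermediateField.adjoin E {x}) K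

/-- The places of a function field in one variable with the trace `T` of the Frobenius; `{F | OGe i (c i)
F}` is the lattice of regular top forms at `i`. -/
structure Curve (E K : Type u) [Field E] [Field K] [Algebra E K] (p : ℕ) (ι : Type u) extends
    Places E K ι where
  c : ι → ℤ
  fin_c : {i | c i ≠ 0}.Finite
  T : K → K
  T_add : ∀ a b, T (a + b) = T a + T b
  T_mul : ∀ a b, T (a ^ p * b) = a * T b
  T_reg : ∀ i a, OGe ord i (c i) a → OGe ord i (c i) (T a)
  T_surj : ∀ i b, OGe ord i (c i) b → ∃ a, OGe ord i (c i) a ∧ T a = b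

variable {E K ι : Type u} [Field E] [Field K] [Algebra E K]

namespace Places

variable (G : Places E K ι)

/-- `a` is zero or has order at least `m` at `i`. -/
def Ge (i : ι) (m : ℤ) (a : K) : Prop := a = 0 ∨ m ≤ G.ord i a

theorem ge_def {i : ι} {m : ℤ} {a : K} : G.Ge i m a ↔ OGe G.ord i m a := Iff.rfl

theorem ne_zero_of_ord {i : ι} {a : K} (h : G.ord i a ≠ 0) : a ≠ 0 := by
  rintro rfl
  exact h (G.ord_zero i)

theorem ord_one (i : ι) : G.ord i 1 = 0 := by
  have := G.ord_const i 1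
  rwa [map_one] at this

theorem ord_pow (i : ι) (a : K) (n : ℕ) : G.ord i (a ^ n) = n * G.ord i a := by
  rcases eq_or_ne a 0 with rfl | ha
  · rcases Nat.eq_zero_or_pos n with rfl | hn
    · rw [pow_zero, G.ord_one]; simp
    · rw [zero_pow hn.ne', G.ord_zero]; simp
  · induction n with
    | zero => rw [pow_zero, G.ord_one]; simp
    | succ n ih => rw [pow_succ, G.ord_mul i _ _ (pow_ne_zero n ha) ha, ih]; push_cast; ring

theorem ord_inv (i : ι) (a : K) : G.ord i a⁻¹ = - G.ord i a := by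
  rcases eq_or_ne a 0 with rfl | ha
  · rw [inv_zero, G.ord_zero]; simp
  · have := G.ord_mul i a a⁻¹ ha (inv_ne_zero ha)
    rw [mul_inv_cancel₀ ha, G.ord_one] at this
    omega

theorem ord_div (i : ι) {a b : K} (ha : a ≠ 0) (hb : b ≠ 0) :
    G.ord i (a / b) = G.ord i a - G.ord i b := by
  rw [div_eq_mul_inv, G.ord_mul i _ _ ha (inv_ne_zero hb), G.ord_inv]
  ring

theorem ord_zpow (i : ι) (a : K) (n : ℤ) : G.ord i (a ^ n) = n * G.ord i a := by
  rcases n with n | n
  · rw [Int.ofNat_eq_natCast, zpow_natCast, G.ord_pow]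
  · rw [zpow_negSucc, G.ord_inv, G.ord_pow, Int.negSucc_eq]
    push_cast
    ring

theorem ord_neg (i : ι) (a : K) : G.ord i (-a) = G.ord i a := by
  rcases eq_or_ne a 0 with rfl | ha
  · rw [neg_zero]
  · have h1 : G.ord i (-1) = 0 := by
      have := G.ord_const i (-1)
      rwa [map_neg, map_one] at this
    have := G.ord_mul i (-1) a (neg_ne_zero.2 one_ne_zero) ha
    rw [h1, zero_add, neg_one_mul] at this
    exact this

theorem exists_unif (i : ι) : ∃ a : K, a ≠ 0 ∧ G.ord i a = 1 := by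
  obtain ⟨a, ha⟩ := G.unif i
  exact ⟨a, G.ne_zero_of_ord (by rw [ha]; exact one_ne_zero), ha⟩

/-- an element of given order -/
theorem exists_ord (i : ι) (m : ℤ) : ∃ a : K, a ≠ 0 ∧ G.ord i a = m := by
  obtain ⟨a, ha, h1⟩ := G.exists_unif i
  exact ⟨a ^ m, zpow_ne_zero m ha, by rw [G.ord_zpow, h1, mul_one]⟩

theorem ge_zero (i : ι) (m : ℤ) : G.Ge i m 0 := Or.inl rfl

theorem ge_iff {i : ι} {m : ℤ} {a : K} (ha : a ≠ 0) : G.Ge i m a ↔ m ≤ G.ord i a := by
  simp [Ge, ha]

theorem ge_mono {i : ι} {m m' : ℤ} {a : K} (h : m' ≤ m) (ha : G.Ge i m a) : G.Ge i m' a := by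
  rcases ha with h0 | h0
  · exact Or.inl h0
  · exact Or.inr (h.trans h0)

theorem ge_add {i : ι} {m : ℤ} {a b : K} (ha : G.Ge i m a) (hb : G.Ge i m b) :
    G.Ge i m (a + b) := by
  rcases eq_or_ne a 0 with rfl | ha0
  · rwa [zero_add]
  rcases eq_or_ne b 0 with rfl | hb0
  · rwa [add_zero]
  rcases eq_or_ne (a + b) 0 with h0 | h0
  · exact Or.inl h0
  · right
    have h1 := G.ord_add i a b ha0 hb0 h0
    rw [G.ge_iff ha0] at ha
    rw [G.ge_iff hb0] at hb
    exact (le_min ha hb).trans h1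

theorem ge_neg {i : ι} {m : ℤ} {a : K} (ha : G.Ge i m a) : G.Ge i m (-a) := by
  rcases ha with h0 | h0
  · exact Or.inl (by rw [h0, neg_zero])
  · exact Or.inr (by rwa [G.ord_neg])

theorem ge_sub {i : ι} {m : ℤ} {a b : K} (ha : G.Ge i m a) (hb : G.Ge i m b) :
    G.Ge i m (a - b) := by
  rw [sub_eq_add_neg]
  exact G.ge_add ha (G.ge_neg hb)

theorem ge_mul {i : ι} {m m' : ℤ} {a b : K} (ha : G.Ge i m a) (hb : G.Ge i m' b) :
    G.Ge i (m + m') (a * b) := by
  rcases eq_or_ne a 0 with rfl | ha0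
  · exact Or.inl (zero_mul _)
  rcases eq_or_ne b 0 with rfl | hb0
  · exact Or.inl (mul_zero _)
  right
  rw [G.ord_mul i a b ha0 hb0]
  rw [G.ge_iff ha0] at ha
  rw [G.ge_iff hb0] at hb
  exact add_le_add ha hb

theorem ge_ord {i : ι} (a : K) : G.Ge i (G.ord i a) a := Or.inr le_rfl

theorem ge_mul_ord {i : ι} {m : ℤ} {a b : K} (hb : G.Ge i m b) : G.Ge i (G.ord i a + m) (a * b) :=
  G.ge_mul (G.ge_ord a) hb

theorem ge_mul_left_iff {i : ι} {m : ℤ} {a b : K} (ha : a ≠ 0) :
    G.Ge i (G.ord i a + m) (a * b) ↔ G.Ge i m b := by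
  constructor
  · intro h
    have h1 := G.ge_mul_ord (a := a⁻¹) h
    rw [G.ord_inv, inv_mul_cancel_left₀ ha] at h1
    have h2 : -G.ord i a + (G.ord i a + m) = m := by ring
    rwa [h2] at h1
  · exact fun h => G.ge_mul_ord h

theorem ge_pow {i : ι} {m : ℤ} {a : K} (ha : G.Ge i m a) (n : ℕ) : G.Ge i (n * m) (a ^ n) := by
  rcases eq_or_ne a 0 with rfl | ha0
  · rcases Nat.eq_zero_or_pos n with rfl | hn
    · rw [pow_zero]; right; rw [G.ord_one]; simp
    · exact Or.inl (zero_pow hn.ne')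
  · right
    rw [G.ord_pow]
    rw [G.ge_iff ha0] at ha
    exact mul_le_mul_of_nonneg_left ha (by positivity)

theorem ge_const (i : ι) (a : E) : G.Ge i 0 (algebraMap E K a) := Or.inr (G.ord_const i a).ge

theorem ge_one (i : ι) : G.Ge i 0 (1 : K) := Or.inr (G.ord_one i).ge

theorem ge_smul {i : ι} {m : ℤ} {b : K} (a : E) (hb : G.Ge i m b) : G.Ge i m (a • b) := by
  rw [Algebra.smul_def]
  have := G.ge_mul (G.ge_const i a) hb
  rwa [zero_add] at this

theorem ge_sum {i : ι} {m : ℤ} {α : Type*} (s : Finset α) (f : α → K)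
    (h : ∀ j ∈ s, G.Ge i m (f j)) : G.Ge i m (∑ j ∈ s, f j) := by
  classical
  induction s using Finset.induction_on with
  | empty => rw [Finset.sum_empty]; exact G.ge_zero i m
  | insert j s hj ih =>
    rw [Finset.sum_insert hj]
    exact G.ge_add (h j (Finset.mem_insert_self _ _))
      (ih fun l hl => h l (Finset.mem_insert_of_mem hl))

theorem ge_prod {i : ι} {α : Type*} (s : Finset α) (f : α → K) (h : ∀ j ∈ s, G.Ge i 0 (f j)) :
    G.Ge i 0 (∏ j ∈ s, f j) := by
  classical
  induction s using Finset.induction_on with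
  | empty => rw [Finset.prod_empty]; exact G.ge_one i
  | insert j s hj ih =>
    rw [Finset.prod_insert hj]
    have := G.ge_mul (h j (Finset.mem_insert_self _ _))
      (ih fun l hl => h l (Finset.mem_insert_of_mem hl))
    rwa [add_zero] at this

/-- a polynomial with coefficients in `E` is regular where the argument is -/
theorem ge_aeval {i : ι} {x : K} (hx : 0 ≤ G.ord i x) (q : Polynomial E) :
    G.Ge i 0 (Polynomial.aeval x q) := by
  rw [Polynomial.aeval_eq_sum_range]
  refine G.ge_sum _ _ fun j _ => G.ge_smul _ ?_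
  have := G.ge_pow (Or.inr hx : G.Ge i 0 x) j
  rwa [mul_zero] at this

/-- an element with an order different from a smaller perturbation -/
theorem ord_eq_of_sub {i : ι} {a b : K} {m : ℤ} (ha : a ≠ 0) (h : G.ord i a = m)
    (hb : G.Ge i (m + 1) (b - a)) : b ≠ 0 ∧ G.ord i b = m := by
  have hb0 : b ≠ 0 := by
    rintro rfl
    rw [zero_sub] at hb
    have h1 := G.ge_neg hb
    rw [neg_neg, G.ge_iff ha] at h1
    omega
  refine ⟨hb0, ?_⟩
  apply le_antisymm
  · by_contra! hlt
    have h1 : G.Ge i (m + 1) b := Or.inr (by omega)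
    have h2 := G.ge_sub h1 hb
    rw [sub_sub_cancel, G.ge_iff ha] at h2
    omega
  · have h1 : G.Ge i m a := Or.inr h.ge
    have h2 := G.ge_add (G.ge_mono (by omega) hb) h1
    rw [sub_add_cancel, G.ge_iff hb0] at h2
    exact h2

/-- the `E`-space of all `F` with `ord i F ≥ d i` for all `i` -/
def L (d : ι → ℤ) : Submodule E K where
  carrier := {F | ∀ i, G.Ge i (d i) F}
  add_mem' ha hb i := G.ge_add (ha i) (hb i)
  zero_mem' i := G.ge_zero i _
  smul_mem' a _ hb i := G.ge_smul a (hb i)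

theorem mem_L {d : ι → ℤ} {F : K} : F ∈ G.L d ↔ ∀ i, G.Ge i (d i) F := Iff.rfl

/-- every element is a sum of an element with order at least `d i` at the places with `ord i x ≥ 0`
and an element with order at least `d i` at the poles of `x` -/
def Dec (x : K) (d : ι → ℤ) : Prop := ∀ y, ∃ a b, y = a + b ∧
  (∀ i, 0 ≤ G.ord i x → G.Ge i (d i) a) ∧ (∀ i, G.ord i x < 0 → G.Ge i (d i) b)

/-- principal parts modulo order `d i` can be prescribed at the finitely many places of `Z`, the other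
places being `d`-regular -/
def Van (Z : Finset ι) (d : ι → ℤ) : Prop := ∀ a : ι → K, ∃ F,
  (∀ i ∈ Z, G.Ge i (d i) (F - a i)) ∧ ∀ i, i ∉ Z → G.Ge i (d i) F

theorem Dec.mono {G : Places E K ι} {x : K} {d d' : ι → ℤ} (h : G.Dec x d) (hd : ∀ i, d' i ≤ d i) :
    G.Dec x d' := by
  intro y
  obtain ⟨a, b, hy, ha, hb⟩ := h y
  exact ⟨a, b, hy, fun i hi => G.ge_mono (hd i) (ha i hi), fun i hi => G.ge_mono (hd i) (hb i hi)⟩

theorem Dec.shift {G : Places E K ι} {x : K} {d : ι → ℤ} (h : G.Dec x d) {u : K} (hu : u ≠ 0) :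
    G.Dec x (fun i => G.ord i u + d i) := by
  intro y
  obtain ⟨a, b, hy, ha, hb⟩ := h (u⁻¹ * y)
  refine ⟨u * a, u * b, ?_, fun i hi => G.ge_mul_ord (ha i hi), fun i hi => G.ge_mul_ord (hb i hi)⟩
  rw [← mul_add, ← hy, mul_inv_cancel_left₀ hu]

end Places

namespace Curve

variable {p : ℕ} (G : Curve E K p ι)

/-- the `m`-canonical forms of the curve -/
def W (m : ℕ) : Submodule E K := G.L fun i => m * G.c i

theorem mem_W {m : ℕ} {F : K} : F ∈ G.W m ↔ ∀ i, G.Ge i (m * G.c i) F := Iff.rfl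

theorem W_mul {m m' : ℕ} {a b : K} (ha : a ∈ G.W m) (hb : b ∈ G.W m') : a * b ∈ G.W (m + m') := by
  intro i
  have h1 := G.ge_mul (ha i) (hb i)
  have h : ((m + m' : ℕ) : ℤ) * G.c i = m * G.c i + m' * G.c i := by push_cast; ring
  change G.Ge i (((m + m' : ℕ) : ℤ) * G.c i) _
  rw [h]
  exact h1

theorem W_pow {m : ℕ} {a : K} (ha : a ∈ G.W m) (j : ℕ) : a ^ j ∈ G.W (j * m) := by
  intro i
  have h1 := G.ge_pow (ha i) j
  have h : ((j * m : ℕ) : ℤ) * G.c i = j * (m * G.c i) := by push_cast; ring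
  change G.Ge i (((j * m : ℕ) : ℤ) * G.c i) _
  rw [h]
  exact h1

theorem T_zero : G.T 0 = 0 := by
  have := G.T_add 0 0
  rw [add_zero] at this
  exact left_eq_add.mp this

theorem iter_add (e : ℕ) (a b : K) : G.T^[e] (a + b) = G.T^[e] a + G.T^[e] b := by
  induction e generalizing a b with
  | zero => rfl
  | succ e ih => rw [Function.iterate_succ_apply, Function.iterate_succ_apply,
      Function.iterate_succ_apply, G.T_add, ih]

theorem iter_mul (e : ℕ) (a b : K) : G.T^[e] (a ^ p ^ e * b) = a * G.T^[e] b := by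
  induction e generalizing a b with
  | zero => simp
  | succ e ih => rw [Function.iterate_succ_apply, Function.iterate_succ_apply, pow_succ, pow_mul,
      G.T_mul, ih]

theorem T_neg (a : K) : G.T (-a) = - G.T a := by
  have := G.T_add a (-a)
  rw [add_neg_cancel, G.T_zero] at this
  exact (neg_eq_of_add_eq_zero_right this.symm).symm

theorem iter_neg (e : ℕ) (a : K) : G.T^[e] (-a) = - G.T^[e] a := by
  induction e generalizing a with
  | zero => rfl
  | succ e ih => rw [Function.iterate_succ_apply, Function.iterate_succ_apply, G.T_neg, ih]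

theorem iter_sub (e : ℕ) (a b : K) : G.T^[e] (a - b) = G.T^[e] a - G.T^[e] b := by
  rw [sub_eq_add_neg, G.iter_add, G.iter_neg, sub_eq_add_neg]

/-- the trace and the lattices, with poles and zeros -/
theorem T_reg' (i : ι) (m : ℤ) {a : K} (ha : G.Ge i (G.c i + p * m) a) :
    G.Ge i (G.c i + m) (G.T a) := by
  obtain ⟨π, h0, hπ⟩ := G.exists_ord i m
  have h1 : G.Ge i (G.c i) (π⁻¹ ^ p * a) := by
    have := G.ge_mul (G.ge_ord (i := i) (π⁻¹ ^ p)) ha
    rw [G.ord_pow, G.ord_inv, hπ] at this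
    have h2 : (p : ℤ) * -m + (G.c i + p * m) = G.c i := by ring
    rwa [h2] at this
  have h2 : G.Ge i (G.c i) (G.T (π⁻¹ ^ p * a)) := G.T_reg i _ h1
  rw [G.T_mul] at h2
  have h3 := G.ge_mul (G.ge_ord (i := i) π) h2
  rw [mul_inv_cancel_left₀ h0, hπ, add_comm] at h3
  exact h3

theorem iter_reg (i : ι) (m : ℤ) (e : ℕ) {a : K} (ha : G.Ge i (G.c i + p ^ e * m) a) :
    G.Ge i (G.c i + m) (G.T^[e] a) := by
  induction e generalizing a with
  | zero => simpa using ha
  | succ e ih =>
    rw [Function.iterate_succ_apply]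
    apply ih
    apply G.T_reg'
    rwa [← mul_assoc, ← pow_succ']

/-- local surjectivity with given order: an element `g` of order at least `c + p ^ e m` whose image
under the `e`-th iterate of the trace has order exactly `c + m` -/
theorem exists_local (i : ι) (m : ℤ) (e : ℕ) : ∃ g, G.Ge i (G.c i + p ^ e * m) g ∧
    G.T^[e] g ≠ 0 ∧ G.ord i (G.T^[e] g) = G.c i + m := by
  induction e with
  | zero =>
    obtain ⟨a, ha, h⟩ := G.exists_ord i (G.c i + m)
    exact ⟨a, Or.inr (by rw [h]; simp), ha, h⟩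
  | succ e ih =>
    obtain ⟨g, hg, h1, h2⟩ := ih
    obtain ⟨π, h0, hπ⟩ := G.exists_ord i (p ^ e * m)
    have h3 : G.Ge i (G.c i) (π⁻¹ * g) := by
      have := G.ge_mul (G.ge_ord (i := i) π⁻¹) hg
      rw [G.ord_inv, hπ] at this
      have h4 : -((p : ℤ) ^ e * m) + (G.c i + p ^ e * m) = G.c i := by ring
      rwa [h4] at this
    obtain ⟨a, ha, hTa⟩ := G.T_surj i _ h3
    refine ⟨π ^ p * a, ?_, ?_, ?_⟩
    · have := G.ge_mul (G.ge_ord (i := i) (π ^ p)) ha
      rw [G.ord_pow, hπ] at this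
      have h4 : (p : ℤ) * (p ^ e * m) + G.c i = G.c i + p ^ (e + 1) * m := by ring
      rwa [h4] at this
    · rw [Function.iterate_succ_apply, G.T_mul, hTa, mul_inv_cancel_left₀ h0]
      exact h1
    · rw [Function.iterate_succ_apply, G.T_mul, hTa, mul_inv_cancel_left₀ h0]
      exact h2

theorem iter_surj [Nonempty ι] (e : ℕ) : Function.Surjective (G.T^[e]) := by
  intro y
  obtain ⟨g, _, h1, _⟩ := G.exists_local (Classical.arbitrary ι) 0 e
  refine ⟨(y / G.T^[e] g) ^ p ^ e * g, ?_⟩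
  rw [G.iter_mul, div_mul_cancel₀ _ h1]

end Curve

end Pool.Agent.Lib.MP_8bcb2e_ag.B
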