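import Pool.Agent.Lib.MP_8bcb2e_ag.B.Fg

set_option autoImplicit false

universe u

namespace Pool.Agent.Lib.MP_8bcb2e_ag.B

open KaehlerDifferential

/-- `K` is not algebraic over `k(t)`, `t` with `n - 1` elements -/
theorem GenType_not_alg (hSE : SepExists.{u}) {k K : Type u} [Field k] [Field K] [Algebra k K]
    [PerfectField k] [Algebra.EssFiniteType k K] {ν : ℕ} {x : Fin (ν + 1) → K}
    (hx : IsDiffBasis k x) (t : Fin ν → K) :
    ¬ Algebra.IsAlgebraic (IntermediateField.adjoin k (Set.range t)) K := by
  intro h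
  have h1 : Algebra.IsAlgebraic (Algebra.adjoin k (Set.range t)) K := by
    rwa [← IntermediateField.isAlgebraic_adjoin_iff_top]
  have h2 := Algebra.IsAlgebraic.trdeg_le_cardinalMk k (Set.range t) (A := K)
  rw [Fg_trdeg hSE hx] at h2
  have h3 : Cardinal.mk (Set.range t) ≤ ν := by
    have := Cardinal.mk_range_le_lift (f := t)
    simpa using this
  have h4 := h2.trans h3
  have h5 : ν + 1 ≤ ν := by exact_mod_cast h4
  omega

theorem t_GenType : S_GenType.{u} := by
  intro hSE k K _ _ _ _ _ ν x hx t ht V hV
  set E := IntermediateField.adjoin k (Set.range t) with hE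
  have hna := GenType_not_alg hSE hx t
  obtain ⟨a, ha, b, hb, hab⟩ : ∃ a ∈ V, ∃ b ∈ V, Transcendental E (a / b) := by
    by_contra hcon
    have hcon' : ∀ a ∈ V, ∀ b ∈ V, IsAlgebraic E (a / b) := by
      intro a ha b hb
      by_contra h
      exact hcon ⟨a, ha, b, hb, h⟩
    apply hna
    -- everything algebraic over the ratio field is algebraic over `E`
    let A := algebraicClosure E K
    have hA : ∀ c ∈ ratioField k V, c ∈ A := by
      intro c hc
      have hle : ratioField k V ≤ A.restrictScalars k := by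
        rw [ratioField, IntermediateField.adjoin_le_iff]
        rintro _ ⟨a, ha, b, hb, rfl⟩
        exact (mem_algebraicClosure_iff).2 (hcon' a ha b hb)
      exact hle hc
    refine ⟨fun z => ?_⟩
    have hz : IsAlgebraic (ratioField k V) z := hV.isAlgebraic z
    obtain ⟨P, hP0, hP⟩ := hz
    let f : ratioField k V →+* A :=
      { toFun := fun z => ⟨(z : K), hA _ z.2⟩
        map_one' := rfl
        map_mul' := fun _ _ => rfl
        map_zero' := rfl
        map_add' := fun _ _ => rfl }
    have hzA : IsAlgebraic A z := by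
      refine ⟨P.map f, (Polynomial.map_ne_zero_iff f.injective).2 hP0, ?_⟩
      rw [Polynomial.aeval_def, Polynomial.eval₂_map]
      rw [Polynomial.aeval_def] at hP
      exact hP
    have hAal : Algebra.IsAlgebraic E A := algebraicClosure.isAlgebraic E K
    exact hzA.restrictScalars E
  have hb0 : b ≠ 0 := by
    rintro rfl
    rw [div_zero] at hab
    exact hab isAlgebraic_zero
  have ha0 : a ≠ 0 := by
    rintro rfl
    rw [zero_div] at hab
    exact hab isAlgebraic_zero
  refine ⟨⟨a, ha, b, hb, hb0, hab⟩, fun r N s hr hs0 => ?_⟩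
  by_contra hcon
  have h1 : IsAlgebraic E (a ^ r / s ^ N) := by
    by_contra h
    exact hcon ⟨a, ha, ha0, h⟩
  have h2 : IsAlgebraic E (b ^ r / s ^ N) := by
    by_contra h
    exact hcon ⟨b, hb, hb0, h⟩
  have h3 : IsAlgebraic E ((a / b) ^ r) := by
    have h4 := h1.mul h2.inv
    have h5 : a ^ r / s ^ N * (b ^ r / s ^ N)⁻¹ = (a / b) ^ r := by
      have := pow_ne_zero N hs0
      have := pow_ne_zero r hb0
      rw [div_pow]
      field_simp
    rwa [h5] at h4
  exact hab (IsAlgebraic.of_pow (by omega) h3)

end Pool.Agent.Lib.MP_8bcb2e_ag.B
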