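import Pool.Agent.Lib.MP_8bcb2e_ag.B.SpecC
import Pool.Agent.Lib.MP_8bcb2e_ag.SchemeMain

/-!
# Effective generic finiteness from a pluricanonical image of dimension at least `n - 1`
-/

set_option autoImplicit false

universe u

namespace Pool.Agent.Lib.MP_8bcb2e_ag.B

open KaehlerDifferential AlgebraicGeometry CategoryTheory

/-- all the pieces of the abstract part -/
structure AllA : Prop where
  polyOrd : S_PolyOrd.{u}
  transc : S_Transc.{u}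
  polyRes : S_PolyRes.{u}
  polyPart : S_PolyPart.{u}
  decomp : S_Decomp.{u}
  finStep : S_FinStep.{u}
  finDim : S_FinDim.{u}
  vanOfDec : S_VanOfDec.{u}
  van : S_Van.{u}
  kk : S_KK.{u}
  tLarge : S_TLarge.{u}
  pair : S_Pair.{u}
  frobVan : S_FrobVan.{u}
  two : S_Two.{u}
  slope : S_Slope.{u}

/-- all the pieces of the concrete part -/
structure AllC : Prop where
  depMod : S_DepMod.{u}
  dvr : S_Dvr.{u}
  approx : S_Approx.{u}
  finZeros : S_FinZeros.{u}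
  fg : S_Fg.{u}
  places : S_Places.{u}
  diffBasis : S_DiffBasis.{u}
  monoIndep : S_MonoIndep.{u}
  resBasis : S_ResBasis.{u}
  coordAt : S_CoordAt.{u}
  heightOne : S_HeightOne.{u}
  coordFin : S_CoordFin.{u}
  traceLoc : S_TraceLoc.{u}
  curve : S_Curve.{u}
  locCoord : S_LocCoord.{u}
  polySec : S_PolySec.{u}
  poles : S_Poles.{u}
  monoSpan : S_MonoSpan.{u}
  asp : S_Asp.{u}
  choose' : S_Choose.{u}
  genType : S_GenType.{u}
  genFin : S_GenFin.{u}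

theorem regularAt_mono {k K : Type u} [Field k] [Field K] [Algebra k K] {n : ℕ}
    {Ψ : Ω[K⁄k] [⋀^Fin n]→ₗ[K] K} {O O' : Subring K} (h : O ≤ O') {m : ℕ} {F : K}
    (hF : RegularAt k Ψ m O F) : RegularAt k Ψ m O' F := by
  obtain ⟨θ, g, hθ, hg, hFg⟩ := hF
  refine ⟨θ, g, fun i => ?_, h hg, hFg⟩
  refine AddSubgroup.closure_mono ?_ (hθ i)
  rintro _ ⟨a, ha, b, hb, rfl⟩
  exact ⟨a, h ha, b, h hb, rfl⟩

theorem theoremB_model (hA : AllA.{u}) (hC : AllC.{u}) (hPB : PBasis.{u}) (hTM : TraceMonomial.{u})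
    (hTop : TopMem.{u}) (hSE : SepExists.{u}) (hDB : DerivBound.{u})
    {k K : Type u} [Field k] [Field K] [Algebra k K] [PerfectField k] {p : ℕ} [Fact p.Prime]
    [CharP k p] [Algebra.EssFiniteType k K] {ν : ℕ} (hν : 1 ≤ ν)
    {Ψ : Ω[K⁄k] [⋀^Fin (ν + 1)]→ₗ[K] K} (hΨ : Ψ ≠ 0) {𝒪 : Set (Subring K)}
    (h𝒪 : IsSmoothModel k (ν + 1) 𝒪) (hdiv : HasDivisors k (ν + 1) 𝒪) {T : K → K}
    (hT : IsFrobTrace k Ψ p T) {r : ℕ} (hr : 1 ≤ r)
    (hdim : (ν : Cardinal.{u}) ≤ Algebra.trdeg k (ratioField k (sections k Ψ 𝒪 r)))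
    (hgt : ∃ N, GenericallyFinite k (sections k Ψ 𝒪 N)) :
    GenericallyFinite k (sections k Ψ 𝒪 ((1 + 3 * r) * (1 + r * (ν + 1)) + r)) := by
  obtain ⟨x₀, hx₀⟩ := exists_diffBasis h𝒪
  obtain ⟨s, t, hs0, hs, hts, halg⟩ := hC.choose' k K ν _ hν hdim
  have hfg := hC.fg hSE k K ν x₀ hx₀ t halg
  obtain ⟨G₀, hG₀⟩ := hC.places hC.depMod hC.dvr hC.approx hC.finZeros k K
    (IntermediateField.adjoin k (Set.range t)) hfg
  obtain ⟨G, hG1, hGT, hreg⟩ := hC.curve hC.coordAt hC.coordFin hC.traceLoc hPB hTM hTop hSE hDB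
    hC.heightOne hC.depMod hC.diffBasis hC.monoIndep hC.resBasis k K p ν x₀ hx₀ Ψ hΨ T hT t halg hfg
    G₀ hG₀
  have hsub : ∀ (m : ℕ) (F : K), F ∈ sections k Ψ 𝒪 m → F ∈ G.W m := by
    intro m F hF V
    obtain ⟨O, hO, hOV⟩ := h𝒪.complete V.1 fun c => V.2.1 _ (IntermediateField.algebraMap_mem _ c)
    exact (hreg V m F).1 (regularAt_mono hOV (hF O hO))
  obtain ⟨N, hN⟩ := hgt
  obtain ⟨⟨a, ha, b, hb, hb0, hab⟩, hgen⟩ := hC.genType hSE k K ν x₀ hx₀ t halg _ hN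
  have hvan : HasVan G := hA.van hA.polyOrd hA.transc hA.polyRes hA.decomp hA.polyPart hA.vanOfDec
    _ _ _ p G N b a (hsub _ _ hb) (hsub _ _ ha) hb0 hab
  have hne : Nonempty (Pl (IntermediateField.adjoin k (Set.range t))) := by
    by_contra hcon
    rw [not_nonempty_iff] at hcon
    exact hab (G.alg _ fun i => isEmptyElim i)
  have hfin : ∀ m, FiniteDimensional (IntermediateField.adjoin k (Set.range t)) (G.W m) := by
    intro m
    refine hA.finDim hA.polyOrd hA.transc hA.polyRes hA.finStep _ _ _ G.toPlaces ⟨_, hab⟩ _ ?_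
    refine G.fin_c.subset ?_
    intro i hi hci
    apply hi
    change (m : ℤ) * G.c i = 0
    rw [hci, mul_zero]
  obtain ⟨m, v₀, v₁, hm, hv₀, hv₁, hT₀, hT₁, N₂, hN₂⟩ := hA.pair hA.kk hA.tLarge _ _ _ p G hne hvan
  obtain ⟨hA1, hA2, hA3⟩ := hC.asp hC.monoSpan hPB hTM hTop k K p (ν + 1) Ψ 𝒪 h𝒪 T hT r ν t s hs hts
  have hW : ∀ m x, x ∈ G.W m → ∃ b, x ∈ Asp k Ψ 𝒪 t s r m b := by
    intro m x hx
    obtain ⟨f, hf, hf0, b, hfb⟩ := hC.poles hC.locCoord hC.polySec k K (ν + 1) Ψ 𝒪 hΨ h𝒪 hdiv r ν t s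
      hs0 hs hts m x fun V => (hreg V m x).2 (hx V)
    refine ⟨b, ?_⟩
    have h1 : f * x ∈ Asp k Ψ 𝒪 t s r m b := Submodule.subset_span hfb
    have hfE : f ∈ IntermediateField.adjoin k (Set.range t) :=
      IntermediateField.algebra_adjoin_le_adjoin k _ hf
    have h2 := (Asp k Ψ 𝒪 t s r m b).smul_mem
      (⟨f, hfE⟩ : IntermediateField.adjoin k (Set.range t))⁻¹ h1
    have h3 : ((⟨f, hfE⟩ : IntermediateField.adjoin k (Set.range t))⁻¹ • (f * x) : K) = x := by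
      rw [Algebra.smul_def]
      change f⁻¹ * (f * x) = x
      rw [inv_mul_cancel_left₀ hf0]
    rwa [h3] at h2
  have hp2 : 2 ≤ p := (Fact.out : p.Prime).two_le
  obtain ⟨e₀, he₀⟩ := hA.slope _ _ p (ν + 1) hp2 (by omega) T G.W
    (fun m b => Asp k Ψ 𝒪 t s r m b) hA1 hA2 (by simpa using hA3) hW hfin m v₀ v₁ hm hv₀ hv₁
    (by rw [← hGT]; exact hT₀) (by rw [← hGT]; exact hT₁) N₂ hN₂ (3 * r) (by omega)
  obtain ⟨c, hc, hc0, hct⟩ := hgen r N s hr hs0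
  obtain ⟨F₀, hF₀, F₁, hF₁, hne0, htr⟩ := hA.two hA.polyOrd hA.transc hA.polyRes hA.polyPart
    hA.decomp hA.vanOfDec hA.frobVan _ _ _ p G r s hs0 (hsub _ _ hs) _ N hct (by
      intro i
      rw [G.ord_div i (pow_ne_zero _ hc0) (pow_ne_zero _ hs0), G.ord_pow, G.ord_pow]
      have h1 := (G.ge_iff hc0).1 (hsub _ _ hc i)
      have h2 : (r : ℤ) * (N * G.c i) ≤ r * G.ord i c :=
        mul_le_mul_of_nonneg_left h1 (by positivity)
      linarith) e₀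
  rw [hGT] at hne0 htr
  have h4 := hC.genFin k K (ν + 1) Ψ 𝒪 h𝒪 r ν t s hs0 hs hts hfg _ _ _ _
    (he₀ e₀ le_rfl F₀ hF₀) (he₀ e₀ le_rfl F₁ hF₁) htr
  have h5 : 1 + 3 * r + r * ((ν + 1) * (1 + 3 * r)) + r = (1 + 3 * r) * (1 + r * (ν + 1)) + r := by
    ring
  rwa [h5] at h4

theorem theoremB_scheme (hA : AllA.{u}) (hC : AllC.{u}) (hJ4 : S_SchemeFinCoord.{u})
    (hJ5 : S_SchemeFinite.{u}) (hJ6 : S_SchemeHartogs.{u})
    (hPB : PBasis.{u}) (hTM : TraceMonomial.{u}) (hTop : TopMem.{u})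
    (hSE : SepExists.{u}) (hD1 : DerivBound.{u}) (hD2 : IntegralOfHeightOne.{u})
    (hD3 : InftyChart.{u}) (hD4 : TwoCharts.{u}) (hE : IntegralSections.{u}) (hF : WSection.{u})
    (hG : Spread.{u}) (hI : TraceExists.{u}) (hJ1 : SchemeCoord.{u}) (hJ2 : SchemeComplete.{u})
    (hJ3 : SchemeFin.{u}) {k : Type u} [Field k] [PerfectField k] (p : ℕ) [Fact p.Prime] [CharP k p]
    {X : Scheme.{u}} [IsIntegral X] {n : ℕ} (hn : 2 ≤ n)
    (f : X ⟶ Spec (.of k)) [IsProper f] [SmoothOfRelativeDimension n f] :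
    letI := functionFieldAlgebra f
    ∀ Ψ : Ω[X.functionField⁄k] [⋀^Fin n]→ₗ[X.functionField] X.functionField, Ψ ≠ 0 →
      ∃ T : X.functionField → X.functionField, IsFrobTrace k Ψ p T ∧
        (∀ T', IsFrobTrace k Ψ p T' → T' = T) ∧
        ∀ r : ℕ, 1 ≤ r → (∃ N, GenericallyFinite k (sections k Ψ (localRings X) N)) →
          (n : Cardinal.{u}) ≤ Algebra.trdeg k (ratioField k (sections k Ψ (localRings X) r)) + 1 →
          GenericallyFinite k (sections k Ψ (localRings X) ((1 + 3 * r) * (1 + r * n) + r)) ∧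
          ∀ j : ℕ, n + 2 ≤ j →
            Birational k (S0 k Ψ p T (localRings X) (1 + j * ((1 + 3 * r) * (1 + r * n) + r))) := by
  obtain ⟨ν, rfl⟩ : ∃ ν, n = ν + 1 := ⟨n - 1, by omega⟩
  have hsm : Smooth f := SmoothOfRelativeDimension.smooth (ν + 1) f
  letI := functionFieldAlgebra f
  have hess := (hJ3 k X f).1
  have h𝒪 := isSmoothModel_of_scheme hJ1 hJ2 hJ3 X (ν + 1) f
  have hdiv : HasDivisors k (ν + 1) (localRings X) :=
    ⟨hJ4 k X (ν + 1) f, (hJ5 k X f).1, (hJ5 k X f).2, hJ6 k X f⟩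
  intro Ψ hΨ
  obtain ⟨T, hT, huniq, hbir⟩ := main_scheme hPB hTM hTop hSE hD1 hD2 hD3 hD4 hE hF hG hI hJ1 hJ2 hJ3
    p (by omega : 1 ≤ ν + 1) f Ψ hΨ
  refine ⟨T, hT, huniq, fun r hr hgt hdim => ?_⟩
  have hdim' : (ν : Cardinal.{u}) ≤
      Algebra.trdeg k (ratioField k (sections k Ψ (localRings X) r)) := by
    have h1 : ((ν + 1 : ℕ) : Cardinal.{u}) = (ν : Cardinal.{u}) + 1 := by push_cast; rfl
    rw [h1] at hdim
    rcases lt_or_ge (Algebra.trdeg k (ratioField k (sections k Ψ (localRings X) r))) Cardinal.aleph0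
      with h | h
    · exact (Cardinal.add_one_le_add_one_iff).1 hdim
    · exact (Cardinal.natCast_lt_aleph0).le.trans h
  have hgf := theoremB_model hA hC hPB hTM hTop hSE hD1 (by omega : 1 ≤ ν) hΨ h𝒪 hdiv hT hr hdim' hgt
  have hidx : ((1 + 3 * r) * (1 + r * (ν + 1)) + r : ℕ) = (1 + 3 * r) * (1 + r * (ν + 1)) + r := rfl
  exact ⟨hgf, fun j hj => hbir _ hgf j hj⟩

end Pool.Agent.Lib.MP_8bcb2e_ag.B
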