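import Pool.Agent.Lib.MP_8bcb2e_ag.B.Defs

/-!
# The statements of the pieces (abstract part)

Every `def S_… : Prop` below is one task; the proof is in its docstring. The tasks are independent of
each other (what one needs from another is a hypothesis).
-/

set_option autoImplicit false

universe u

namespace Pool.Agent.Lib.MP_8bcb2e_ag.B

/-- (A1) The order of a polynomial in `x` at a pole of `x`.

Proof. `x ≠ 0`. Write `q = c X^n + q'`, `n = natDegree q`, `c ≠ 0`, `degree q' < n`. The term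
`c x ^ n` has order `n * ord x`. Every other term `c_j x^j`, `j < n`, is `Ge i (j * ord x)`, and
`j * ord x ≥ (n - 1) * ord x ≥ n * ord x + 1`; so `aeval x q - c x^n` is `Ge i (n * ord x + 1)`
(`ge_sum`, `ge_smul`), and `ord_eq_of_sub` applies. -/
def S_PolyOrd : Prop := ∀ (E K ι : Type u) [Field E] [Field K] [Algebra E K] (G : Places E K ι)
  (i : ι) (x : K), G.ord i x < 0 → ∀ q : Polynomial E, q ≠ 0 →
    Polynomial.aeval x q ≠ 0 ∧ G.ord i (Polynomial.aeval x q) = q.natDegree * G.ord i x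

/-- (A2) An element with a zero or a pole is transcendental.

Proof. If `ord i x < 0`, use `S_PolyOrd`: no nonzero polynomial vanishes at `x`. If `ord i x > 0` apply
this to `x⁻¹` (`ord_inv`); `x` is algebraic iff `x⁻¹` is. -/
def S_Transc : Prop := S_PolyOrd.{u} → ∀ (E K ι : Type u) [Field E] [Field K] [Algebra E K]
  (G : Places E K ι) (i : ι) (x : K), G.ord i x ≠ 0 → Transcendental E x

/-- (A3) There is a nonzero polynomial `q` such that `q(x)` vanishes to high order at the given places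
(where `x` is regular).

Proof. For one place `i` with `0 ≤ ord i x`: `resfin` for the family `x ^ j`, `j = 0, …, M` (they are
`OGe i 0` by `ge_pow`) gives `l ≠ 0` with `∑ l_j x^j` of order at least one; take
`g_i = ∑ C (l_j) X^j`, `g_i ≠ 0`. For the set `Z` take `q = (∏_{i ∈ Z, 0 ≤ ord i x} g_i) ^ N`; at `i` the
factor `g_i(x)^N` is `Ge i N` and the other factors are `Ge i 0` (`ge_aeval`, `ge_prod`, `ge_mul`). -/
def S_PolyRes : Prop := ∀ (E K ι : Type u) [Field E] [Field K] [Algebra E K] (G : Places E K ι)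
  (Z : Finset ι) (x : K) (N : ℕ), ∃ q : Polynomial E, q ≠ 0 ∧
    ∀ i ∈ Z, 0 ≤ G.ord i x → G.Ge i N (Polynomial.aeval x q)

/-- (A4a) `E(x) = E[x] + O_∞`: every element of `E(x)` is a polynomial in `x` plus an element without
poles at the poles of `x`.

Proof. `z ∈ E(x)` is `P(x)/Q(x)` with `Q(x) ≠ 0` (`IntermediateField.mem_adjoin_simple_iff`), so `Q ≠ 0`
(if `Q = 0` then `z = 0`: take `q = 0`). `P = Q * q + R` with `degree R < degree Q`
(`Polynomial.div`, `Polynomial.mod`, `E` a field). `z = q(x) + R(x)/Q(x)`. If `R ≠ 0` and `ord i x < 0`: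
`ord i (R(x)/Q(x)) = (natDegree R - natDegree Q) * ord i x ≥ 0` by `S_PolyOrd`
(`natDegree R ≤ natDegree Q`). -/
def S_PolyPart : Prop := S_PolyOrd.{u} → ∀ (E K ι : Type u) [Field E] [Field K] [Algebra E K]
  (G : Places E K ι) (x : K), Transcendental E x →
  ∀ z ∈ IntermediateField.adjoin E {x}, ∃ q : Polynomial E,
    ∀ i, G.ord i x < 0 → G.Ge i 0 (z - Polynomial.aeval x q)

/-- (A4b) Decomposition: for `x` transcendental over `E` and `N` large, `K` is the sum of the elements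
that are `d`-regular where `x` is regular and of the elements with order at least `d i + N ord i x` at the
poles of `x`.

Proof. `K` is finite over `E(x)` (`G.fg`); let `e_1, …, e_m` be a basis
(`Module.finBasis`, all `e_j ≠ 0`). `Z` = the finite set of all places where `d i ≠ 0` or some
`ord i (e_j) ≠ 0`. Let `N'` be a natural number with `d i - ord i (e_j) ≤ N'` for all `i ∈ Z` and all `j`.
`S_PolyRes` for `Z`, `x`, `N'`: `g ≠ 0` with `g(x)` `Ge i N'` for `i ∈ Z` with `ord i x ≥ 0`; `g(x) ≠ 0`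
as `x` is transcendental. Put `e'_j = g(x) e_j`. If `ord i x ≥ 0` then `Ge i (d i) (e'_j)`: for `i ∈ Z` as
`ord i (g(x)) ≥ N'`, for `i ∉ Z` as `d i = 0 = ord i (e_j)` and `g(x)` is `Ge i 0` (`ge_aeval`).
The poles of `x` are finitely many (`G.fin`), so there is `N₀` with
`d i ≤ ord i (e'_j) - N₀ * ord i x` for all poles `i` of `x` and all `j` (`ord i x ≤ -1`); it holds
for all `N ≥ N₀`. Now let `y ∈ K`: `g(x)⁻¹ y = ∑ z_j e_j` with `z_j ∈ E(x)`, so `y = ∑ z_j e'_j`.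
`S_PolyPart`: `z_j = q_j(x) + h_j`, `h_j` `Ge i 0` at the poles of `x`. `a = ∑ q_j(x) e'_j`,
`b = ∑ h_j e'_j`. For `ord i x ≥ 0`: `a` is `Ge i (d i)` (and `min 0 (ord i x) = 0`). For `ord i x < 0`:
`h_j e'_j` is `Ge i (ord i (e'_j))` and `ord i (e'_j) ≥ d i + N * ord i x`. -/
def S_Decomp : Prop := S_PolyRes.{u} → S_PolyPart.{u} → S_PolyOrd.{u} →
  ∀ (E K ι : Type u) [Field E] [Field K] [Algebra E K] (G : Places E K ι) (x : K),
  Transcendental E x → ∀ d : ι → ℤ, {i | d i ≠ 0}.Finite →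
    ∃ N₀ : ℕ, ∀ N : ℕ, N₀ ≤ N → G.Dec x (fun i => d i + N * min 0 (G.ord i x))

/-- (A5a) Raising the condition at one place costs only a finite dimension.

Proof. `W = L (update d i₀ (d i₀ + 1))` is a subspace of `V = L d`. Choose `π` with
`ord i₀ π = - d i₀` (`exists_ord`). Let `M` be as in `resfin` for `i₀`. Any `M + 1` elements
`F_0, …, F_M` of `V`: the `π F_j` are `OGe i₀ 0`, so some nonzero combination `∑ l_j F_j` is in `W`. So
`V / W` has no `M + 1` linearly independent elements, hence it is finite dimensional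
(e.g. `Module.Free.chooseBasis`/`Module.Basis.ofVectorSpace` of `V ⧸ W.comap`: if the index type had more
than `M` elements, an injection of `Fin (M + 1)` and lifts would give a contradiction; or `rank_le`
lemmas `rank_le`/`Module.finite_of_rank_lt_aleph0`). `V` is finite dimensional since `W` and `V/W` are
(`Module.Finite.of_submodule_quotient` / `Submodule.finite_of_…`). -/
def S_FinStep : Prop := ∀ (E K ι : Type u) [Field E] [Field K] [Algebra E K] [DecidableEq ι]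
  (G : Places E K ι) (d : ι → ℤ) (i₀ : ι),
  FiniteDimensional E (G.L (Function.update d i₀ (d i₀ + 1))) → FiniteDimensional E (G.L d)

/-- (A5b) The spaces `L d` are finite dimensional.

Proof. Let `x` be transcendental; it has a pole `i₁` (`G.alg`: if all `ord i x ≥ 0` then `x` is
algebraic). `Z` = support of `d`; `S_PolyRes` for `Z`, `x` and a natural number `N ≥ -d i` (`i ∈ Z`): `g ≠ 0`,
`g(x) ≠ 0`, and `g(x)` is `Ge i (-d i)` for all `i` with `ord i x ≥ 0`. Let `P` be the finite set of poles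
of `x`, `b i = 1 - natDegree g * ord i x` for `i ∈ P`, and `d' = max (d i) (b i)` on `P`, `d' = d` off
`P`. Claim: `L d' = ⊥`. For `F ∈ L d'`, `F' = g(x) F` is `Ge i 0` for every `i` (at `i ∈ P`:
`ord i (g(x)) = natDegree g * ord i x` by `S_PolyOrd`, so `F'` is `Ge i 1`), so `F'` is algebraic over
`E` by `G.alg`; if `F' ≠ 0` then `ord i₁ F' ≥ 1` contradicts `S_Transc`. So `F' = 0`, `F = 0`.
Finally `d'` is reached from `d` by finitely many steps `update · i₀ (· + 1)` with `i₀ ∈ P`: by induction on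
`∑_{i ∈ P} (d' i - d i)`, `S_FinStep` gives that `L d` is finite dimensional. (For the induction:
statement `∀ n : ℕ, ∀ d, (∑_{i∈P} (d' i - d i)).toNat ≤ n → (∀ i, d i ≤ d' i) → (∀ i ∉ P, d i = d' i) →
FiniteDimensional E (L d)`.) -/
def S_FinDim : Prop := S_PolyOrd.{u} → S_Transc.{u} → S_PolyRes.{u} → S_FinStep.{u} →
  ∀ (E K ι : Type u) [Field E] [Field K] [Algebra E K] (G : Places E K ι),
  (∃ x : K, Transcendental E x) → ∀ d : ι → ℤ, {i | d i ≠ 0}.Finite →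
    FiniteDimensional E (G.L d)

/-- principal parts can be prescribed in large weights -/
def HasVan {E K ι : Type u} [Field E] [Field K] [Algebra E K] {p : ℕ} (G : Curve E K p ι) : Prop :=
  ∀ (Z : Finset ι) (h : ι → ℤ), {i | h i ≠ 0}.Finite →
    ∃ N₀ : ℕ, ∀ N : ℕ, N₀ ≤ N → G.Van Z (fun i => h i + N * G.c i)

/-- (A6a) From a decomposition with respect to `x` to principal parts at poles of `x`.

Proof. Let `a : ι → K`. `P` = the finite set of poles of `x` (`G.fin`), `Z ⊆ P`. `G.approx` for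
`P`, the family `a i` for `i ∈ Z`, `0` for `i ∈ P`, `i ∉ Z`, and a number `N ≥ d i` for all `i ∈ P`: `y` with
`Ge i (d i) (y - a i)` (`i ∈ Z`), `Ge i (d i) y` (`i ∈ P \ Z`). `Dec`: `y = F + b`. For `i ∉ P`, `F` is
`Ge i (d i)`. For `i ∈ P`, `b` is `Ge i (d i)`; so `F - a i = (y - a i) - b` (`i ∈ Z`) and `F = y - b`
(`i ∈ P \ Z`) are. -/
def S_VanOfDec : Prop := ∀ (E K ι : Type u) [Field E] [Field K] [Algebra E K] (G : Places E K ι)
  (x : K) (d : ι → ℤ), G.Dec x d → ∀ Z : Finset ι, (∀ i ∈ Z, G.ord i x < 0) → G.Van Z d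

/-- (A6b) Principal parts can be prescribed in large weights.

Proof. Let `f = f₁/f₀`. If `Z = ∅` take `F = 0`. `S_PolyRes` for `Z`, `f`, `1`: `B ≠ 0` in `E[X]` with
`B(f)` `Ge i 1` for `i ∈ Z`, `ord i f ≥ 0`; `B(f) ≠ 0`. `D = natDegree B`. Put
`x = f + 1/B(f) = (f B(f) + 1)/B(f)`, `y₀ = f₀^(D+1) B(f)`, `y₁ = f₀^(D+1) (f B(f) + 1)`, `μ' = (D+1) μ`.
(1) `y₀, y₁ ∈ W μ'`: `f₀^(D+1) f^j = f₁^j f₀^(D+1-j)` for `j ≤ D + 1` is in `W ((D+1) μ)`
(`W_mul`, `W_pow`), and `W μ'` is an `E`-space; `X * B + 1` has degree at most `D + 1`.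
(2) `ord i x < 0` for `i ∈ Z`: if `ord i f ≥ 0` then `1/B(f)` has order at most `-1` and `f` order at
least `0`; if `ord i f < 0` then `1/B(f)` is `Ge i 0` by `S_PolyOrd`
(`ord (B(f)) = D * ord i f ≤ 0`). Use `ord_eq_of_sub`.
(3) `x` is transcendental (`S_Transc` with `i ∈ Z`), in particular `x ≠ 0` and `y₁ ≠ 0`; `x = y₁/y₀`.
(4) For `j < μ'` let `N_j` be the bound of `S_Decomp` for `x` and `d = h + j c` (finite support), and
`N₀ = μ' * (1 + ∑ N_j)`. Let `N ≥ N₀`, `N = j + N' μ'`, `j < μ'`, `N' ≥ N_j`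
(`μ' ≥ 1`: otherwise `μ = 0`; see (5)). `Dec x (h + j c + N' min 0 (ord x))`, shifted by
`u = y₀ ^ N'` (`Dec.shift`): `Dec x (N' (ord y₀ + min 0 (ord x)) + h + j c)`, and
`ord y₀ + min 0 (ord x) = min (ord y₀) (ord y₁) ≥ μ' c`. So `Dec x (h + N c)` by `Dec.mono`. Apply
`S_VanOfDec`.
(5) If `μ = 0` then `f₀, f₁ ∈ W 0` are algebraic over `E` by `G.alg`, so `f` is: contradiction. -/
def S_Van : Prop := S_PolyOrd.{u} → S_Transc.{u} → S_PolyRes.{u} → S_Decomp.{u} → S_PolyPart.{u} →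
  S_VanOfDec.{u} →
  ∀ (E K ι : Type u) [Field E] [Field K] [Algebra E K] (p : ℕ) (G : Curve E K p ι) (μ : ℕ)
  (f₀ f₁ : K), f₀ ∈ G.W μ → f₁ ∈ G.W μ → f₀ ≠ 0 → Transcendental E (f₁ / f₀) → HasVan G

/-- (A7) Two forms without common zero generate in large weights.

Proof. `h i = ord i v₁ - m c i`: finite support (`G.fin`, `G.fin_c`), `h ≥ 0`. `Z` = support of `h`.
`HasVan` for `Z`, `h` gives `N₀`; take `N₁ = N₀`. Let `N ≥ N₁`, `F ∈ W (N + m)`. `Van` with `a i = F/v₀`: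
`A` with `Ge i (h i + N c i) (A - F/v₀)` for `i ∈ Z` and `Ge i (h i + N c i) A` for `i ∉ Z` (where
`h i = 0`). Put `B = (F - v₀ A)/v₁`.
At `i ∈ Z`: `ord i v₀ = m c i` (no common zero), `F/v₀` is `Ge i (N c i)`, so `A` is `Ge i (N c i)`
(as `h i ≥ 0`); `F - v₀ A = - v₀ (A - F/v₀)` is `Ge i (m c i + h i + N c i)` `= ord i v₁ + N c i`, so `B` is
`Ge i (N c i)`. At `i ∉ Z`: `A` is `Ge i (N c i)`, `F - v₀ A` is `Ge i ((N+m) c i)`, `ord i v₁ = m c i`, so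
`B` is `Ge i (N c i)`. `F = v₀ A + v₁ B`. -/
def S_KK : Prop := ∀ (E K ι : Type u) [Field E] [Field K] [Algebra E K] (p : ℕ)
  (G : Curve E K p ι), HasVan G → ∀ (m : ℕ) (v₀ v₁ : K), v₀ ∈ G.W m → v₁ ∈ G.W m → v₀ ≠ 0 → v₁ ≠ 0 →
  (∀ i, G.ord i v₀ = m * G.c i ∨ G.ord i v₁ = m * G.c i) →
  ∃ N₁ : ℕ, ∀ N : ℕ, N₁ ≤ N → ∀ F ∈ G.W (N + m), ∃ A ∈ G.W N, ∃ B ∈ G.W N, F = v₀ * A + v₁ * B

/-- (A8a) For every finite set `Z` of places and all large `m` there is an element of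
`T (W (1 + p (m - 1)))` without zeros at the places of `Z`.

Proof. `HasVan` for `Z` and `h i = p` on `Z`, `0` off `Z`: `N₀`; take `m₀ = N₀ + 1`. Let `m ≥ m₀` and
`N = 1 + p (m - 1) ≥ N₀`. For `i ∈ Z` let `g_i` be the element of `exists_local i ((m-1) c i) 1`: `g_i` is
`Ge i (c i + p (m-1) c i)` `= Ge i (N c i)` and `ord i (T g_i) = m c i`, `T g_i ≠ 0`. `Van` with
`a i = g_i`: `F` with `F - g_i` `Ge i (p + N c i)` (`i ∈ Z`) and `F` `Ge i (N c i)` off `Z`, so `F ∈ W N`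
(on `Z`: `F = (F - g_i) + g_i`). `T F - T g_i = T (F - g_i)` is `Ge i (m c i + 1)` by `T_reg'`
(`p + N c i = c i + p ((m-1) c i + 1)`), so `T F ≠ 0` and `ord i (T F) = m c i` by `ord_eq_of_sub`.
`T F ∈ W m` by `T_reg'`: `N c i = c i + p ((m-1) c i)`. -/
def S_TLarge : Prop := ∀ (E K ι : Type u) [Field E] [Field K] [Algebra E K] (p : ℕ) [Fact p.Prime]
  (G : Curve E K p ι), HasVan G → ∀ Z : Finset ι, ∃ m₀ : ℕ, 1 ≤ m₀ ∧ ∀ m : ℕ, m₀ ≤ m →
  ∃ F ∈ G.W (1 + p * (m - 1)), G.T F ∈ G.W m ∧ ∀ i ∈ Z, G.T F ≠ 0 ∧ G.ord i (G.T F) = m * G.c i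

/-- (A8b) `T` is surjective in large weights, and there are pairs without common zero.

Proof. (1) `S_TLarge` with `Z = {i₀}`: `m_a ≥ 1`, `F_a`, `v_a = T F_a ≠ 0` in `W m_a`. (2) `S_TLarge` with
`Z = {i₀} ∪ {i | ord i v_a ≠ m_a c i}` (finite by `G.fin`, `G.fin_c`): `m_b ≥ 1`, `F_b`, `v_b = T F_b`.
(3) `m = m_a m_b`, `v₀ = v_a ^ m_b = T (F_a v_a^(p (m_b - 1)))`, `v₁ = v_b ^ m_a = T (F_b v_b^(p (m_a-1)))`
(`T_mul`), the arguments are in `W (1 + p (m - 1))`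
(`1 + p (m_a - 1) + p (m_b - 1) m_a = 1 + p (m_a m_b - 1)`), `v₀, v₁ ∈ W m` have no common zero:
`ord i v₀ = m_b ord i v_a`. (4) `S_KK` for `v₀, v₁`: `N₁`. For `N ≥ N₁` and `F ∈ W (N + m)`:
`F = v₀ A + v₁ B = T (G₀ A^p + G₁ B^p)`, `G₀, G₁ ∈ W (1 + p (m - 1))` the arguments of (3), and
`G₀ A^p ∈ W (1 + p (m - 1) + p N) = W (1 + p (N + m - 1))`. So `T` is onto `W N'` for all
`N' ≥ N₁' = N₁ + m`. (5) By induction on `e`, every `F ∈ W N'`, `N' ≥ N₁'`, is `T^[e] A` with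
`A ∈ W (1 + p^e (N' - 1))`: `A = T A'`, as `1 + p^e (N' - 1) ≥ N'`, `A' ∈ W (1 + p^(e+1) (N' - 1))`.
(6) Let `j = N₁' + 2`, `w₀ = v₀^j`, `w₁ = v₁^j ∈ W (j m)`, `j m ≥ N₁'`, `j m ≥ 2`: no common zero; `S_KK`
again gives `N₂`. The answer is `(j m, w₀, w₁, N₂)`. -/
def S_Pair : Prop := S_KK.{u} → S_TLarge.{u} →
  ∀ (E K ι : Type u) [Field E] [Field K] [Algebra E K] (p : ℕ) [Fact p.Prime] (G : Curve E K p ι),
  Nonempty ι → HasVan G → ∃ (m : ℕ) (v₀ v₁ : K), 2 ≤ m ∧ v₀ ∈ G.W m ∧ v₁ ∈ G.W m ∧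
    (∀ e : ℕ, ∃ A ∈ G.W (1 + p ^ e * (m - 1)), G.T^[e] A = v₀) ∧
    (∀ e : ℕ, ∃ A ∈ G.W (1 + p ^ e * (m - 1)), G.T^[e] A = v₁) ∧
    ∃ N₂ : ℕ, ∀ N : ℕ, N₂ ≤ N → ∀ F ∈ G.W (N + m), ∃ A ∈ G.W N, ∃ B ∈ G.W N, F = v₀ * A + v₁ * B

/-- (A9a) Frobenius vanishing: `Dec x (c + p^e d)` implies `Dec x (c + d)`.

Proof. Let `y ∈ K`; if `ι` is empty the statement is trivial. `y = T^[e] z` (`iter_surj`),
`z = a + b`, `y = T^[e] a + T^[e] b`, and `iter_reg`. -/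
def S_FrobVan : Prop := ∀ (E K ι : Type u) [Field E] [Field K] [Algebra E K] (p : ℕ)
  (G : Curve E K p ι) (x : K) (d : ι → ℤ) (e : ℕ),
  G.Dec x (fun i => G.c i + p ^ e * d i) → G.Dec x (fun i => G.c i + d i)

/-- (A9b) Two forms of weight `1 + 3 r p^e` whose images under the `e`-th iterate of the trace have a
transcendental ratio.

Proof. `δ i = ord i s - r c i ≥ 0`, and `- N δ i ≤ ord i x` for all `i`. `S_Decomp` for `x`, `d = c`: `N₀` with
`Dec x (c + N₀ min 0 (ord x))`. Choose `e'` with `N * N₀ ≤ p^e'` (`Nat.lt_pow_self`); then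
`c - p^e' δ ≤ c + N₀ min 0 (ord x)`, so `Dec x (c + p^e' (-δ))` (`Dec.mono`), so `Dec x (c + (-δ))`
(`S_FrobVan`). Let `i₀` be a pole of `x` (exists by `G.alg`); `δ i₀ ≥ 1` (otherwise `ord i₀ x ≥ 0`).
Let `q = p^e`. `Dec.shift` by `s^(3q)`: `Dec x (3 q ord s + c - δ)` and
`3 q ord s + c - δ = (1 + 3 r q) c + (3 q - 1) δ ≥ d := (1 + 3 r q) c + 2 q [i = i₀]`. So `Dec x d`, and
`S_VanOfDec` with `Z = {i₀}` gives `Van {i₀} d`. For `j = 0, 1` let `g_j` be the element of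
`exists_local i₀ (3 r c i₀ + j) e`: `g_j` is `Ge i₀ (c + q (3 r c + j))`, `T^[e] g_j ≠ 0`,
`ord i₀ (T^[e] g_j) = (1 + 3 r) c i₀ + j`. `Van` with `a i₀ = g_j`: `F_j` with `F_j - g_j`
`Ge i₀ ((1 + 3 r q) c i₀ + 2 q)` and `F_j` `Ge i ((1 + 3 r q) c i)` for `i ≠ i₀`; so
`F_j ∈ W (1 + q (3 r))`, and `T^[e] F_j - T^[e] g_j = T^[e] (F_j - g_j)` is
`Ge i₀ (c i₀ + 3 r c i₀ + 2)` by `iter_reg`. So `ord i₀ (T^[e] F_j) = (1 + 3 r) c i₀ + j`
(`ord_eq_of_sub`), the quotient has order `1` at `i₀` and is transcendental (`S_Transc`). -/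
def S_Two : Prop := S_PolyOrd.{u} → S_Transc.{u} → S_PolyRes.{u} → S_PolyPart.{u} → S_Decomp.{u} →
  S_VanOfDec.{u} → S_FrobVan.{u} →
  ∀ (E K ι : Type u) [Field E] [Field K] [Algebra E K] (p : ℕ) [Fact p.Prime] (G : Curve E K p ι)
  (r : ℕ) (s : K), s ≠ 0 → s ∈ G.W r → ∀ (x : K) (N : ℕ), Transcendental E x →
  (∀ i, - (N * (G.ord i s - r * G.c i)) ≤ G.ord i x) → ∀ e : ℕ,
  ∃ F₀ ∈ G.W (1 + p ^ e * (3 * r)), ∃ F₁ ∈ G.W (1 + p ^ e * (3 * r)),
    G.T^[e] F₀ ≠ 0 ∧ Transcendental E (G.T^[e] F₁ / G.T^[e] F₀)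

/-- (A10) The slope estimate.

Proof. `v₀, v₁ ∈ A m a` for some `a` (`hW`, monotone); let `a` be the least natural number with this
(`Nat.find`). For `N₂ ≤ N < N₂ + m` there is `b_N` with `W N ≤ A N b_N` (`W N` is finite dimensional: take a
finite spanning family and the maximum of the `b`'s). Let `C` be the maximum (or the sum) of these `b_N`.
CLAIM 1: for `N ≥ N₂`, `W N ≤ A N (C + (N/m) * a)`. Strong induction: for `N < N₂ + m` monotone; otherwise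
`N = N' + m`, `N' ≥ N₂`, `F = v₀ A' + v₁ B'` with `A', B' ∈ W N'`, and `hmul`; `N/m = N'/m + 1`.
CLAIM 2: `a ≤ n m`. Suppose `a ≥ n m + 1`. Let `e` be such that `q = p^e` satisfies `q ≥ a + m C + N₂ + 1`.
`v_i = T^[e] F_i` with `F_i ∈ W (1 + q (m - 1))`. As `m ≥ 2`, `1 + q (m-1) ≥ N₂`, and CLAIM 1 gives
`F_i ∈ A (1 + q (m-1)) (C + ((1 + q (m-1))/m) a)`, so by `hT` with `σ = m - 1`, `b = a - 1`:
`v_i ∈ A m (a - 1)`, a contradiction to the choice of `a`, provided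
`C + ((1 + q (m-1))/m) a + (n-1) (q-1) ≤ q (a - 1)`. Multiply by `m`: it suffices that
`m C + (1 + q (m-1)) a + m (n-1) (q-1) ≤ m q (a-1)`, i.e. `a + m C - m (n-1) ≤ q (a - n m)`, which
holds as `a - n m ≥ 1`.
CLAIM 3: Let `σ ≥ 1` and `p^e = q ≥ C + N₂ + 1`. For `x ∈ W (1 + q σ)`, `1 + q σ ≥ N₂`, CLAIM 1 and 2 give
`x ∈ A (1 + q σ) (C + n (1 + q σ))` (`((1+qσ)/m) a ≤ ((1+qσ)/m) m n ≤ n (1 + q σ)`), and `hT` with
`b = n (1 + σ)`: `C + n (1 + q σ) + (n-1)(q-1) ≤ q n (1 + σ)` iff `C + n - (n - 1) ≤ q`. -/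
def S_Slope : Prop := ∀ (E K : Type u) [Field E] [Field K] [Algebra E K] (p n : ℕ), 2 ≤ p → 1 ≤ n →
  ∀ (T : K → K) (W : ℕ → Submodule E K) (A : ℕ → ℕ → Submodule E K),
  (∀ m b b', b ≤ b' → A m b ≤ A m b') →
  (∀ m m' b b' x y, x ∈ A m b → y ∈ A m' b' → x * y ∈ A (m + m') (b + b')) →
  (∀ e σ a b x, x ∈ A (1 + p ^ e * σ) a → a + (n - 1) * (p ^ e - 1) ≤ p ^ e * b →
    T^[e] x ∈ A (1 + σ) b) →
  (∀ m x, x ∈ W m → ∃ b, x ∈ A m b) →
  (∀ m, FiniteDimensional E (W m)) →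
  ∀ (m : ℕ) (v₀ v₁ : K), 2 ≤ m → v₀ ∈ W m → v₁ ∈ W m →
  (∀ e : ℕ, ∃ x ∈ W (1 + p ^ e * (m - 1)), T^[e] x = v₀) →
  (∀ e : ℕ, ∃ x ∈ W (1 + p ^ e * (m - 1)), T^[e] x = v₁) →
  ∀ N₂ : ℕ, (∀ N : ℕ, N₂ ≤ N → ∀ F ∈ W (N + m), ∃ A' ∈ W N, ∃ B' ∈ W N, F = v₀ * A' + v₁ * B') →
  ∀ σ : ℕ, 1 ≤ σ → ∃ e₀ : ℕ, ∀ e : ℕ, e₀ ≤ e → ∀ x ∈ W (1 + p ^ e * σ),
    T^[e] x ∈ A (1 + σ) (n * (1 + σ))

end Pool.Agent.Lib.MP_8bcb2e_ag.B
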