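import Pool.Agent.Lib.MP_8bcb2e_ag.B.Spec

/-!
# The statements of the pieces (places of the generic curve, poles, schemes)
-/

set_option autoImplicit false

universe u

namespace Pool.Agent.Lib.MP_8bcb2e_ag.B

open KaehlerDifferential AlgebraicGeometry CategoryTheory

/-! ### Places as valuation subrings -/

/-- (B1a) The quotient of a place by a nonzero element of its maximal ideal is small: dependence over `E`
modulo `y`.

Proof. `y` is transcendental over `E`: if `y` were algebraic then `y⁻¹` would be integral over `E`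
(a field), so `y⁻¹ ∈ V` because `V` is integrally closed in `K` and contains `E`
(`mem_valuationSubring_of_isIntegral` in `DerivBound.lean` is a model). So `K` is finite over `E(y)`;
`M = finrank`. Let `a_0, …, a_M ∈ V`: there are `f_j ∈ E(y)` not all zero with `∑ f_j a_j = 0`
(`Module.exists_nontrivial_relation_of_finrank_lt_card` or so). Clear denominators: `f_j = P_j(y)`,
`P_j ∈ E[X]` (`IntermediateField.mem_adjoin_simple_iff` and a common denominator, or
`IsLocalization.exist_integer_multiples` for the fraction field of `Algebra.adjoin E {y}`), not all zero;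
divide by the largest power of `X` that divides all `P_j`: not all `P_j(0)` are zero. With
`P_j = C (P_j(0)) + X Q_j`: `∑ P_j(0) a_j = - y ∑ Q_j(y) a_j`, and `Q_j(y) ∈ V`. -/
def S_DepMod : Prop := ∀ (E K : Type u) [Field E] [Field K] [Algebra E K],
  (∀ x : K, Transcendental E x → FiniteDimensional (IntermediateField.adjoin E {x}) K) →
  ∀ V : ValuationSubring K, (∀ a : E, algebraMap E K a ∈ V) → ∀ y ∈ V, y ≠ 0 → y⁻¹ ∉ V →
  ∃ M : ℕ, ∀ a : Fin (M + 1) → K, (∀ j, a j ∈ V) → ∃ l : Fin (M + 1) → E, (∃ j, l j ≠ 0) ∧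
    ∃ b ∈ V, ∑ j, algebraMap E K (l j) * a j = y * b

/-- (B1b) A place is a discrete valuation ring.

Proof. As `V ≠ ⊤` there is `z ∉ V`; `y = z⁻¹ ∈ V`, `y ≠ 0`, `y⁻¹ ∉ V`. Every ideal `I` of `V` is finitely
generated: let `y ∈ I`, `y ≠ 0`; if `y` is a unit, `I = V`; otherwise `V/(y)` is an `E`-vector space
(`E → V`) in which any `M + 1` elements are dependent (`S_DepMod`), hence finite dimensional, hence a
noetherian `V`-module (`isNoetherian_of_tower`), so `I/(y)` and `I` are finitely generated
(`Submodule.fg_of_fg_map_of_fg_inf_ker`). (Alternative without quotients: if `I` is not finitely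
generated there are `y ∈ I` and a strictly increasing chain of principal ideals
`(y) ⊂ (z_1) ⊂ … ⊂ (z_{M+1})` in `V`; `z_1, …, z_{M+1}` are `E`-independent modulo `y V`: in a combination
the term with the largest `|z_j|` dominates.) So `V` is noetherian; a noetherian valuation ring is
a principal ideal ring (`ValuationRing` is Bézout), and it is local and not a field. Let `ϖ` be a
uniformizer. Every `a ≠ 0` in `K` is `u ϖ^n`, `n : ℤ`, `u` a unit of `V`, in a unique way; `o a = n`,
`o 0 = 0`. The last clause is `S_DepMod` for `y = ϖ`. -/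
def S_Dvr : Prop := S_DepMod.{u} → ∀ (E K : Type u) [Field E] [Field K] [Algebra E K],
  (∀ x : K, Transcendental E x → FiniteDimensional (IntermediateField.adjoin E {x}) K) →
  ∀ V : ValuationSubring K, (∀ a : E, algebraMap E K a ∈ V) → V ≠ ⊤ →
  ∃ o : K → ℤ, o 0 = 0 ∧ (∀ a b, a ≠ 0 → b ≠ 0 → o (a * b) = o a + o b) ∧
    (∀ a, a ≠ 0 → (a ∈ V ↔ 0 ≤ o a)) ∧ (∃ a, o a = 1) ∧
    ∃ M : ℕ, ∀ a : Fin (M + 1) → K, (∀ j, a j ∈ V) → ∃ l : Fin (M + 1) → E, (∃ j, l j ≠ 0) ∧
      (∑ j, algebraMap E K (l j) * a j = 0 ∨ 1 ≤ o (∑ j, algebraMap E K (l j) * a j))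

/-- (B2) Weak approximation.

Proof (Artin–Whaples). Write `v_i` for `ord i`, `v_i (a b) = v_i a + v_i b`,
`v_i (a + b) ≥ min`. (1) For `i ≠ j` there is `a ≠ 0` with `v_i a < 0 < v_j a`: from the hypothesis
`a', b' ≠ 0` with `v_i a' ≥ 0 > v_j a'`, `v_j b' ≥ 0 > v_i b'`, take `a = b'/a'`. (2) For `i` and a finite
set `S'` not containing `i` there is `z ≠ 0` with `v_i z < 0` and `v_j z > 0` for `j ∈ S'`: induction on
`S'`; given `z` for `S'` and a new `l`, and `b` with `v_i b < 0 < v_l b`: if `v_l z ≥ 0` take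
`z^N b` with `N` large; if `v_l z < 0` take `z^N/(1 + z^N) * b` with `N` large (`N ≥ 1`): the orders of
`z^N/(1+z^N)` are `0` at `i` and `l` (negative order of `z^N` dominates `1`), and `N v_j z` at `j ∈ S'`
(`v_j (1 + z^N) = 0`). (3) `e_i = z^N/(1 + z^N)` for `S' = S \ {i}`: `v_i (1 - e_i) = - N v_i z`,
`v_j e_i = N v_j z` for `j ∈ S'`. With `N` large, `x = ∑ e_i a_i` works. -/
def S_Approx : Prop := ∀ (K ι : Type u) [Field K] (ord : ι → K → ℤ), (∀ i, ord i 0 = 0) →
  (∀ i a b, a ≠ 0 → b ≠ 0 → ord i (a * b) = ord i a + ord i b) →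
  (∀ i a b, a ≠ 0 → b ≠ 0 → a + b ≠ 0 → min (ord i a) (ord i b) ≤ ord i (a + b)) →
  (∀ i j, i ≠ j → ∃ a, a ≠ 0 ∧ 0 ≤ ord i a ∧ ord j a < 0) →
  ∀ (S : Finset ι) (a : ι → K) (N : ℤ), ∃ x : K, ∀ i ∈ S, OGe ord i N (x - a i)

/-- (B3) Every element has finitely many zeros and poles.

Proof. (1) If `a ≠ 0` is algebraic over `E` then `ord i a = 0` for all `i`: if `ord i a < 0`, the leading
term of a polynomial equation dominates (as in `S_PolyOrd`; the proof of `S_PolyOrd` can be copied);
apply the same to `a⁻¹`. (2) If `a` is transcendental, let `m = finrank E(a) K`. Claim: at most `m` places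
have `ord i a > 0`. Let `S` be a set of `m + 1` such places. By the approximation property there are `e_i ∈ K`,
`i ∈ S`, with `OGe i 1 (e_i - 1)` and `OGe j 1 e_i` for `j ∈ S`, `j ≠ i`. They are independent over
`E(a)`, a contradiction: given a relation `∑ f_i e_i = 0`, as in `S_DepMod` we may take `f_i = P_i(a)`,
`P_i ∈ E[X]`, not all `P_i(0) = 0`; at `j ∈ S`: `P_i(a) - P_i(0)` is `OGe j 1`, so
`0 = ∑ P_i(a) e_i` is `P_j(0)` up to `OGe j 1`; a nonzero constant has order `0`: so `P_j(0) = 0` for all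
`j`. The poles are the zeros of `a⁻¹` (`a⁻¹` is transcendental too). -/
def S_FinZeros : Prop := ∀ (E K ι : Type u) [Field E] [Field K] [Algebra E K] (ord : ι → K → ℤ),
  (∀ i, ord i 0 = 0) →
  (∀ i a b, a ≠ 0 → b ≠ 0 → ord i (a * b) = ord i a + ord i b) →
  (∀ i a b, a ≠ 0 → b ≠ 0 → a + b ≠ 0 → min (ord i a) (ord i b) ≤ ord i (a + b)) →
  (∀ i (a : E), ord i (algebraMap E K a) = 0) →
  (∀ (S : Finset ι) (a : ι → K) (N : ℤ), ∃ x : K, ∀ i ∈ S, OGe ord i N (x - a i)) →
  (∀ x : K, Transcendental E x → FiniteDimensional (IntermediateField.adjoin E {x}) K) →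
  ∀ a, {i | ord i a ≠ 0}.Finite

/-- (B4) `K` has transcendence degree one over `k(t)` and is finite over `k(t, y)`.

Proof. `K/k` has a transcendence basis with `ν + 1` elements (`sepExists_of` and `hx`), see
`card_transcendenceBasis` in `Main.lean`. If `y` is transcendental over `k(t)`, `t` algebraically
independent, then `Fin.snoc t y` (or `Option`-indexed: `AlgebraicIndependent` lemmas
`algebraicIndependent_option`/`AlgebraicIndependent.option_iff`) is algebraically independent over `k`
and has `ν + 1` elements, so it is a transcendence basis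
(`AlgebraicIndependent.isTranscendenceBasis_of_…`, trdeg), so `K` is algebraic over `k(t, y)`, and over
`k(t)(y)`; `K` is essentially of finite type over `k`, so over `k(t)(y)`
(`Algebra.EssFiniteType.of_comp`), so finite (`Algebra.finite_of_essFiniteType_of_isAlgebraic`). -/
def S_Fg : Prop := SepExists.{u} → ∀ (k K : Type u) [Field k] [Field K] [Algebra k K] [PerfectField k]
  [Algebra.EssFiniteType k K] (ν : ℕ) (x : Fin (ν + 1) → K), IsDiffBasis k x → ∀ t : Fin ν → K,
  AlgebraicIndependent k t → ∀ y : K,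
  Transcendental (IntermediateField.adjoin k (Set.range t)) y →
  FiniteDimensional (IntermediateField.adjoin (IntermediateField.adjoin k (Set.range t)) {y}) K

/-- The places of `K` over the intermediate field `E`. -/
def Pl {k K : Type u} [Field k] [Field K] [Algebra k K] (E : IntermediateField k K) : Type u :=
  {V : ValuationSubring K // (∀ a ∈ E, a ∈ V) ∧ V ≠ ⊤}

/-- (B5) The places of `K` over `E` as a `Places` structure.

Proof. `ord V` from `S_Dvr` (choice). `ord_add`: if `ord V a ≤ ord V b` then `b/a ∈ V`, so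
`a + b = a (1 + b/a)` with `1 + b/a ∈ V`. `ord_const`: for `a ≠ 0` in `E`, `a` and `a⁻¹` are in `V`.
`alg`: if `a ∈ V` for all `V ∈ Pl E` then `a` is in all valuation subrings that contain `E`, so `a` is integral over
`E` (`iInf_valuationSubring_superset`, see `isIntegral_of_forall_valuationSubring` in
`DerivBound.lean`). Incomparability for `S_Approx`: for `V ≠ V'` in `Pl E` there is `a ∈ V`, `a ∉ V'`:
otherwise `V ≤ V'`, there is `a ∈ V'` with `a ∉ V`, and every `b ∈ K` is `(b a^(-N)) a^N` with
`b a^(-N) ∈ V` for `N` large, so `V' = ⊤`. `fin`: `S_FinZeros`. -/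
def S_Places : Prop := S_DepMod.{u} → S_Dvr.{u} → S_Approx.{u} → S_FinZeros.{u} →
  ∀ (k K : Type u) [Field k] [Field K] [Algebra k K] (E : IntermediateField k K),
  (∀ x : K, Transcendental E x → FiniteDimensional (IntermediateField.adjoin E {x}) K) →
  ∃ G : Places E K (Pl E), ∀ (V : Pl E) (a : K), a ∈ V.1 ↔ G.Ge V 0 a

/-! ### Coordinates at the places -/

/-- (B6a) A finitely generated field extension of transcendence degree `ν` over a perfect field has a
differential basis with `ν` elements.

Proof. `exists_isTranscendenceBasis_and_isSeparable_of_perfectField` gives a separating transcendence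
basis `s`, `exists_basis_of_separating` (`SepExists.lean`) a basis of the differentials indexed by `s`, and
`s` is equipotent to the transcendence basis `t` (`IsTranscendenceBasis.lift_cardinalMk_eq`). -/
def S_DiffBasis : Prop := ∀ (k L : Type u) [Field k] [Field L] [Algebra k L] [PerfectField k]
  [Algebra.EssFiniteType k L] (ν : ℕ) (t : Fin ν → L), IsTranscendenceBasis k t →
  ∃ y : Fin ν → L, IsDiffBasis k y

/-- (B6b) The monomials in a differential basis are independent over the `p`-th powers.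

Proof. Use the derivations `∂_i` dual to `D (y i)`, which kill `p`-th powers and satisfy
`∂_i y_j = δ_ij`. Let `∑ c_α^p y^α = 0`, not all `c_α` zero. Choose `β` with `c_β ≠ 0` and `∑ β_i`
maximal. Apply `∂_1^{β_1} ⋯ ∂_ν^{β_ν}`: `y^α` goes to `∏ (α_i)_{β_i} y^{α-β}`, which is zero unless
`α ≥ β`; `α ≥ β`, `c_α ≠ 0` implies `α = β` by maximality. So `∏ β_i! c_β^p = 0`, a contradiction
(`β_i < p`). See `exists_top`, `list_deriv` in `TraceExists.lean` and `topMem_of` for such computations;
alternatively: the `p^ν` monomials span `L` over `L^p` (`PBasis`) and `[L : L^p] = p^ν`. -/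
def S_MonoIndep : Prop := ∀ (k L : Type u) [Field k] [Field L] [Algebra k L] (p : ℕ) [Fact p.Prime]
  [CharP k p] (ν : ℕ) (y : Fin ν → L), IsDiffBasis k y → ∀ c : (Fin ν → Fin p) → L,
  ∑ α, c α ^ p * ∏ i, y i ^ (α i : ℕ) = 0 → ∀ α, c α = 0

/-- (B6c) The residue field of a place over `k(t)` has a differential basis with `ν` elements over `k`.

Proof. `κ` = residue field of `V` (`IsLocalRing.ResidueField V`), a field extension of `k` and of
`E = k(t)` (maps through `V`), finite over `E`: by `S_DepMod` (for `y` a nonzero non-unit of `V`) any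
`M + 1` elements of `κ` are dependent over `E` (`y b` is in the maximal ideal). `E` is essentially of finite type over
`k` and so is `κ`. The images of the `t i` form a transcendence basis of `κ` over `k` (`κ` is algebraic over
`E`; independence: `E → κ` is injective). `S_DiffBasis`. The result is formulated with lifts to `V`:
`w ∈ V` is mapped to its residue class. -/
def S_ResBasis : Prop := S_DepMod.{u} → S_DiffBasis.{u} →
  ∀ (k K : Type u) [Field k] [Field K] [Algebra k K] [PerfectField k]
  (ν : ℕ) (t : Fin ν → K), AlgebraicIndependent k t →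
  (∀ x : K, Transcendental (IntermediateField.adjoin k (Set.range t)) x →
    FiniteDimensional (IntermediateField.adjoin (IntermediateField.adjoin k (Set.range t)) {x}) K) →
  ∀ V : Pl (IntermediateField.adjoin k (Set.range t)),
  ∀ hk : ∀ a : k, algebraMap k K a ∈ V.1,
  letI : Algebra k (IsLocalRing.ResidueField V.1) :=
    ((IsLocalRing.residue V.1).comp ((algebraMap k K).codRestrict V.1.toSubring hk)).toAlgebra
  ∃ y : Fin ν → IsLocalRing.ResidueField V.1, IsDiffBasis k y

/-- (B6d) Coordinates at a place.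

Proof. `y i ∈ V` lifts of the differential basis of the residue field `κ` (`S_ResBasis`), `π` with
`ord V π = 1`; `x = Fin.snoc y π`. (1) The `p^(ν+1)` elements `m_{α,i} = y^α π^i` are independent over
`K^p`: in a relation `∑ c_{α,i}^p m_{α,i} = 0` we may multiply by the `p`-th power of a power of `π`
such that all `c` are in `V`; consider for each `i` the element `A_i = ∑_α c_{α,i}^p y^α`: if not all
`c_{α,i}` (`α` varying) are zero then `ord A_i = p min_α ord (c_{α,i})` (divide by the `p`-th power of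
an element of minimal order; the residue classes of the quotients are not all zero and the monomials in the
residue classes of `y` are independent over `κ^p` by `S_MonoIndep`, so the sum is a unit). The orders of the
`A_i π^i ≠ 0` are pairwise different modulo `p`, so the sum is not zero.
More precisely this shows (1'): `ord (∑ c_{α,i}^p m_{α,i}) = min (p ord (c_{α,i}) + i)` over the
`(α, i)` with `c_{α,i} ≠ 0`. (2) `[K : K^p] ≤ p^(ν+1)` by `PBasis` for `x₀`, so the `m_{α,i}` span `K` over
`K^p`. By (1') every `a ∈ V` is `∑ c_{α,i}^p m_{α,i}` with `c_{α,i} ∈ V` (`p ord c + i ≥ 0`,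
`0 ≤ i < p`). (3) `D a = ∑ c^p D (m_{α,i})` is a combination of the `D (x j)` with coefficients in `V`.
(4) The `D (x j)` span `Ω[K⁄k]` (every `a ∈ K` is `a'/π^N` with `a' ∈ V`), which has the basis
`D (x₀ j)` with `ν + 1` elements, so they form a basis (`basisOfTopLeSpanOfCardEqFinrank`). -/
def S_CoordAt : Prop := PBasis.{u} → S_DepMod.{u} → S_DiffBasis.{u} → S_MonoIndep.{u} →
  S_ResBasis.{u} →
  ∀ (k K : Type u) [Field k] [Field K] [Algebra k K] [PerfectField k] (p : ℕ) [Fact p.Prime]
  [CharP k p] [Algebra.EssFiniteType k K] (ν : ℕ) (x₀ : Fin (ν + 1) → K), IsDiffBasis k x₀ →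
  ∀ t : Fin ν → K, AlgebraicIndependent k t →
  (∀ x : K, Transcendental (IntermediateField.adjoin k (Set.range t)) x →
    FiniteDimensional (IntermediateField.adjoin (IntermediateField.adjoin k (Set.range t)) {x}) K) →
  ∀ (G : Places (IntermediateField.adjoin k (Set.range t)) K
      (Pl (IntermediateField.adjoin k (Set.range t)))),
  (∀ V a, a ∈ V.1 ↔ G.Ge V 0 a) → ∀ V : Pl (IntermediateField.adjoin k (Set.range t)),
  ∃ x : Fin (ν + 1) → K, IsCoord k V.1.toSubring x

/-- (B7a) The transcendence degree drops: if `a_1, …, a_ν` are in a subring `R` (a domain containing `k`,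
algebraic over `k(a)`), have algebraically independent images modulo a prime `P`, then `P = 0`. Here in
the form: `t'` has `ν + 1` elements, algebraically independent, `V` a valuation ring containing `k[t']`
such that the residue classes of `t_1, …, t_ν ∈ V` are independent over `k` (every nonzero polynomial in
`t` is a unit of `V`) and every `t_i` satisfies an equation over `k[t']` with leading coefficient `h_i ≠ 0`
a unit of `V`; there is a nonzero non-unit of `V`, and `K` is algebraic over `k(t')`. Then `V` is of height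
one over `k[t']`.

Proof. `P = {q ∈ k[t'] : q = 0 or q⁻¹ ∉ V}` is a prime ideal of `k[t']`. It is not zero: let
`y ∈ V` be a nonzero non-unit, with an equation `a_d y^d + ⋯ + a_0 = 0` over `k[t']`, `a_0 ≠ 0`; so
`a_0 = - y (…)` is in `P`. So `P` contains an irreducible `π` (`k[t']` is a unique factorization domain,
`P` is prime). Suppose `q ∈ P` is not divisible by `π`. The images of `t'` in `κ` (residue field of `V`)
generate a ring isomorphic to `A/P`, `A = k[t']`. Let `τ` be the transcendence degree of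
`Frac (A/P)` over `k`. By the equations for the `t_i` (leading coefficient a unit) the residue class of `t_i` is
algebraic over `Frac (A/P)`; these classes are independent, so `τ ≥ ν`. On the other hand
`A/(π)` is a domain whose fraction field has transcendence degree `ν` (`π` gives an algebraic relation
between the `ν + 1` generators), and `A/P` is a proper quotient of it by a prime containing the nonzero
class of `q`: choose `ν` elements of `A` with independent images in `A/P`; they are independent in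
`A/(π)`, so the class of `q` is algebraic over them, `c_d q^d + ⋯ + c_0 ≡ 0 mod π` with `c_0 ≢ 0`, and
`c_0 ∈ P`, a contradiction. So `P = (π)`. -/
def S_HeightOne : Prop := ∀ (k K : Type u) [Field k] [Field K] [Algebra k K] (ν : ℕ)
  (t' : Fin (ν + 1) → K), AlgebraicIndependent k t' →
  Algebra.IsAlgebraic (IntermediateField.adjoin k (Set.range t')) K →
  ∀ (V : ValuationSubring K), (∀ c : k, algebraMap k K c ∈ V) → (∀ i, t' i ∈ V) → V ≠ ⊤ →
  ∀ t : Fin ν → K, (∀ i, t i ∈ V) → AlgebraicIndependent k t →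
  (∀ q : MvPolynomial (Fin ν) k, q ≠ 0 → (MvPolynomial.aeval t q)⁻¹ ∈ V) →
  (∀ i, ∃ (P : Polynomial (MvPolynomial (Fin (ν + 1)) k)), P ≠ 0 ∧
    Polynomial.eval₂ (MvPolynomial.aeval t' : MvPolynomial (Fin (ν + 1)) k →ₐ[k] K).toRingHom (t i) P = 0 ∧
    (MvPolynomial.aeval t' P.leadingCoeff)⁻¹ ∈ V) →
  HeightOne k t' V

/-- (B7b) One coordinate system works at almost all places.

Proof. `SepExists`: `t'` a separating transcendence basis. For almost all `V` (`G.fin`): `t'_i ∈ V`, and for
polynomials `P_i ≠ 0` over `k[t']` with `P_i(t_i) = 0` (`K` is algebraic over `k(t')`), the leading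
coefficient of `P_i` is a unit of `V`. The nonzero polynomials in `t` are in `E^×`, so units of `V`. By
`S_HeightOne`, `HeightOne k t' V`; so for the `h ≠ 0` of `DerivBound` and `a ∈ V`, `D a = ∑ c_i D (t'_i)`
with `h c_i ∈ V`; if moreover `ord V h = 0` then `c_i ∈ V`. So `IsCoord k V t'` for almost all `V`. -/
def S_CoordFin : Prop := SepExists.{u} → DerivBound.{u} → S_HeightOne.{u} →
  ∀ (k K : Type u) [Field k] [Field K] [Algebra k K] [PerfectField k]
  [Algebra.EssFiniteType k K] (ν : ℕ) (x₀ : Fin (ν + 1) → K), IsDiffBasis k x₀ →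
  ∀ t : Fin ν → K, AlgebraicIndependent k t →
  ∀ (G : Places (IntermediateField.adjoin k (Set.range t)) K
      (Pl (IntermediateField.adjoin k (Set.range t)))),
  (∀ V a, a ∈ V.1 ↔ G.Ge V 0 a) →
  ∃ t' : Fin (ν + 1) → K, IsDiffBasis k t' ∧
    {V : Pl (IntermediateField.adjoin k (Set.range t)) | ¬ IsCoord k V.1.toSubring t'}.Finite

/-- (B8) The trace at one point, both directions.

Proof. First part: the proof of `trace_sections` (`TraceSections.lean`) for one `O`. Second part: `b = g J`
with `J = Ψ (D x)`, `g ∈ O` (`regularAt_iff`); `a = g^p (∏ x_i)^(p-1) J`, and `T a = g T ((∏ x_i)^(p-1) J)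
= g J` by `map_pow_mul` and `map_log`. -/
def S_TraceLoc : Prop := PBasis.{u} → TraceMonomial.{u} → TopMem.{u} →
  ∀ (k K : Type u) [Field k] [Field K] [Algebra k K] [PerfectField k] (p : ℕ) [Fact p.Prime]
  [CharP k p] [Algebra.EssFiniteType k K] (n : ℕ) (Ψ : Ω[K⁄k] [⋀^Fin n]→ₗ[K] K) (T : K → K),
  IsFrobTrace k Ψ p T → ∀ (O : Subring K) (x : Fin n → K), IsCoord k O x →
  (∀ a : K, IsIntegral O a → a ∈ O) →
  (∀ (s : ℕ) (F : K), RegularAt k Ψ (1 + p * s) O F → RegularAt k Ψ (1 + s) O (T F)) ∧
  (∀ b : K, RegularAt k Ψ 1 O b → ∃ a, RegularAt k Ψ 1 O a ∧ T a = b)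

/-- (B9) The curve of places with the trace.

Proof. `c V = ord V (Ψ (D x_V))`, `x_V` the coordinates of `S_CoordAt` (choice). By `regularAt_iff`,
`RegularAt k Ψ m V F` iff `F = g J^m` with `g ∈ V`, `J = Ψ (D x_V) ≠ 0` (`psi_ne_zero`), iff
`Ge V (m c V) F`. `fin_c`: for `V` outside of the finite set of `S_CoordFin`, `t'` is a coordinate system at
`V` too, so (`regularAt_iff` for `m = 1` and `F = J`, `F = Ψ (D t')`) `ord V J = ord V (Ψ (D t'))`, which is
`0` for almost all `V` (`G.fin`). `T_reg`, `T_surj`: `S_TraceLoc` with `s = 0` (valuation subrings are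
integrally closed). -/
def S_Curve : Prop := S_CoordAt.{u} → S_CoordFin.{u} → S_TraceLoc.{u} → PBasis.{u} →
  TraceMonomial.{u} → TopMem.{u} → SepExists.{u} → DerivBound.{u} → S_HeightOne.{u} → S_DepMod.{u} →
  S_DiffBasis.{u} → S_MonoIndep.{u} → S_ResBasis.{u} →
  ∀ (k K : Type u) [Field k] [Field K] [Algebra k K] [PerfectField k] (p : ℕ) [Fact p.Prime]
  [CharP k p] [Algebra.EssFiniteType k K] (ν : ℕ) (x₀ : Fin (ν + 1) → K), IsDiffBasis k x₀ →
  ∀ (Ψ : Ω[K⁄k] [⋀^Fin (ν + 1)]→ₗ[K] K), Ψ ≠ 0 → ∀ (T : K → K), IsFrobTrace k Ψ p T →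
  ∀ t : Fin ν → K, AlgebraicIndependent k t →
  (∀ x : K, Transcendental (IntermediateField.adjoin k (Set.range t)) x →
    FiniteDimensional (IntermediateField.adjoin (IntermediateField.adjoin k (Set.range t)) {x}) K) →
  ∀ (G : Places (IntermediateField.adjoin k (Set.range t)) K
      (Pl (IntermediateField.adjoin k (Set.range t)))),
  (∀ V a, a ∈ V.1 ↔ G.Ge V 0 a) →
  ∃ C : Curve (IntermediateField.adjoin k (Set.range t)) K p
      (Pl (IntermediateField.adjoin k (Set.range t))), C.toPlaces = G ∧ C.T = T ∧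
    ∀ V m F, RegularAt k Ψ m V.1.toSubring F ↔ C.Ge V (m * C.c V) F

/-! ### Poles -/

/-- `V` is a localization of `O`. -/
def Loc {K : Type u} [Field K] (O : Subring K) (V : ValuationSubring K) : Prop :=
  O ≤ V.toSubring ∧ ∀ b ∈ V, ∃ u ∈ O, u ≠ 0 ∧ u⁻¹ ∈ V ∧ u * b ∈ O

/-- Divisors on the model: finitely many coordinate systems suffice, a function has finitely many
polar prime divisors, the valuation rings among the local rings are of rank one, and the local rings are
determined by their localizations of height one. -/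
structure HasDivisors (k : Type u) {K : Type u} [Field k] [Field K] [Algebra k K] (n : ℕ)
    (𝒪 : Set (Subring K)) : Prop where
  finCoord : ∃ (N : ℕ) (X : Fin N → Fin n → K), ∀ O ∈ 𝒪, ∃ j, IsCoord k O (X j)
  finite : ∀ a : K, {V : ValuationSubring K | V.toSubring ∈ 𝒪 ∧ a ∉ V}.Finite
  arch : ∀ V : ValuationSubring K, V.toSubring ∈ 𝒪 → ∀ y ∈ V, y⁻¹ ∉ V → ∀ a : K,
    ∃ M : ℕ, y ^ M * a ∈ V
  hartogs : ∀ O ∈ 𝒪, ∀ a : K,
    (∀ V : ValuationSubring K, V.toSubring ∈ 𝒪 → Loc O V → a ∈ V) → a ∈ O

/-- (P1) Coordinates of a point are coordinates of its localizations.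

Proof. For `b ∈ V` take `u` as in `Loc`, `a = u b ∈ O`; `D b = u⁻¹ D a - u⁻¹ b D u` (from
`D a = u D b + b D u`), `D a` and `D u` are combinations of the `D (x i)` with coefficients in `O`. -/
def S_LocCoord : Prop := ∀ (k K : Type u) [Field k] [Field K] [Algebra k K] (n : ℕ) (O : Subring K)
  (V : ValuationSubring K) (x : Fin n → K), IsCoord k O x → Loc O V → IsCoord k V.toSubring x

/-- (P2) A polynomial in `t` times a power of `s` is a section.

Proof. `Algebra.adjoin_induction` (or `MvPolynomial.induction_on`): constants (`sections_smul`,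
`1 ∈ sections 0`), generators, sums (multiply by powers of `s` to get the same exponent: the statement
holds for all larger `d` too), products (`sections_mul`). -/
def S_PolySec : Prop := ∀ (k K : Type u) [Field k] [Field K] [Algebra k K] (n : ℕ)
  (Ψ : Ω[K⁄k] [⋀^Fin n]→ₗ[K] K) (𝒪 : Set (Subring K)), IsSmoothModel k n 𝒪 →
  ∀ (r ν : ℕ) (t : Fin ν → K) (s : K), s ∈ sections k Ψ 𝒪 r → (∀ i, t i * s ∈ sections k Ψ 𝒪 r) →
  ∀ f ∈ Algebra.adjoin k (Set.range t), ∃ d₀ : ℕ, ∀ d : ℕ, d₀ ≤ d →
    f * s ^ d ∈ sections k Ψ 𝒪 (d * r)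

/-- (P3) Poles: a form that is regular at all places over `k(t)` becomes a section after multiplication by
a nonzero polynomial in `t` and a power of `s`.

Proof. Let `X_1, …, X_N` be the coordinate systems of `finCoord`, `J_j = Ψ (D X_j)`, `a_j = F/J_j^m`. Let
`Bad_j` be the set of all valuation rings `V ∈ 𝒪` with `IsCoord k V X_j` and `a_j ∉ V`: finite
(`finite`). For `V ∈ Bad_j`: `E ≤ V` is impossible, `E = k(t)`: otherwise `V ∈ Pl E` (`V ≠ ⊤` as
`a_j ∉ V`), so `RegularAt k Ψ m V F` by hypothesis, and `a_j ∈ V` by `regularAt_iff` (`J_j ≠ 0` by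
`psi_ne_zero`). CLAIM: there is `f_V ∈ k[t]`, `f_V ≠ 0`, such that: if all `t_i ∈ V` then `f_V⁻¹ ∉ V`.
If some `t_i ∉ V` take `f_V = 1`; otherwise, if all nonzero `f ∈ k[t]` had `f⁻¹ ∈ V`, then
`E ≤ V` (elements of `E` are quotients of elements of `k[t]`, `IntermediateField.mem_adjoin_range_iff`).
For `V ∈ Bad_j` let `σ = s/J_j^r`. By `arch` there is `M_{V,j}` such that: if `σ⁻¹ ∉ V` (note `σ ∈ V`
as `s ∈ sections r` is regular at `V ∈ 𝒪`) then `σ^M a_j ∈ V` for `M ≥ M_{V,j}`; if all `t_i ∈ V` then
`f_V^M a_j ∈ V` for `M ≥ M_{V,j}`. Let `M` be the maximum of all `M_{V,j}`,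
`f = ∏_V f_V^M` (over the finite union of the `Bad_j`), `d₀` the number of `S_PolySec` for `f`,
`b = d₀ + M`. Then `s^b f F ∈ sections (m + r b)`: let `O ∈ 𝒪`, `X_j` coordinates, `σ = s/J_j^r ∈ O`,
and it is enough that `g = σ^b f a_j ∈ O` (`regularAt_iff`: `s^b f F = g J_j^(m + r b)`). By
`hartogs` let `V ∈ 𝒪` be a localization of `O`; `X_j` are coordinates at `V` (`S_LocCoord`),
`σ ∈ O ≤ V`, `σ^d₀ f ∈ O ≤ V` (`f s^d₀ ∈ sections (d₀ r)`). If `a_j ∈ V` then
`g = (σ^d₀ f) σ^M a_j ∈ V`. Otherwise `V ∈ Bad_j`. If `σ⁻¹ ∉ V`: `σ^M a_j ∈ V`. If `σ⁻¹ ∈ V`: then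
`t_i = (t_i s/J^r)/σ ∈ V` for all `i`, `f_V^M a_j ∈ V`, the other factors of `f` are polynomials in `t`, so
in `V`, and `σ^b ∈ V`. -/
def S_Poles : Prop := S_LocCoord.{u} → S_PolySec.{u} →
  ∀ (k K : Type u) [Field k] [Field K] [Algebra k K] (n : ℕ)
  (Ψ : Ω[K⁄k] [⋀^Fin n]→ₗ[K] K) (𝒪 : Set (Subring K)), Ψ ≠ 0 → IsSmoothModel k n 𝒪 →
  HasDivisors k n 𝒪 →
  ∀ (r ν : ℕ) (t : Fin ν → K) (s : K), s ≠ 0 → s ∈ sections k Ψ 𝒪 r →
  (∀ i, t i * s ∈ sections k Ψ 𝒪 r) → ∀ (m : ℕ) (F : K),
  (∀ V : Pl (IntermediateField.adjoin k (Set.range t)), RegularAt k Ψ m V.1.toSubring F) →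
  ∃ f ∈ Algebra.adjoin k (Set.range t), f ≠ 0 ∧ ∃ b : ℕ, s ^ b * (f * F) ∈ sections k Ψ 𝒪 (m + r * b)

/-- the `E`-span of all `F` such that `s ^ b F` is a section of `(m + r b) K_X` -/
noncomputable def Asp (k : Type u) {K : Type u} [Field k] [Field K] [Algebra k K] {n : ℕ}
    (Ψ : Ω[K⁄k] [⋀^Fin n]→ₗ[K] K) (𝒪 : Set (Subring K)) {ν : ℕ} (t : Fin ν → K) (s : K) (r : ℕ)
    (m b : ℕ) : Submodule (IntermediateField.adjoin k (Set.range t)) K :=
  Submodule.span _ {F | s ^ b * F ∈ sections k Ψ 𝒪 (m + r * b)}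

/-- (P4) Elements of `k(t)` are combinations of monomials `t^α`, `α_i < p^e`, with coefficients
`p^e`-th powers; here in the form needed for the iterated trace.

Proof. This is the part `hW2`, `hW3` of the proof of `spread_of` (`Spread.lean`) with a general `W` and
`θ`. -/
def S_MonoSpan : Prop := ∀ (k K : Type u) [Field k] [Field K] [Algebra k K] [PerfectField k] (p : ℕ)
  [Fact p.Prime] [CharP k p] (ν : ℕ) (t : Fin ν → K) (T : K → K), (∀ a b, T (a + b) = T a + T b) →
  (∀ a b, T (a ^ p * b) = a * T b) → ∀ (e : ℕ)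
  (W : Submodule (IntermediateField.adjoin k (Set.range t)) K) (θ : K),
  (∀ α : Fin ν → ℕ, (∀ i, α i < p ^ e) → T^[e] ((∏ i, t i ^ α i) * θ) ∈ W) →
  ∀ ε ∈ IntermediateField.adjoin k (Set.range t), T^[e] (ε * θ) ∈ W

/-- (P5) The filtration `Asp` and the trace.

Proof. (1) monotone: `s^(b') F = s^(b'-b) s^b F`, `sections_mul`, `sections_pow`. (2) products:
`Submodule.span_induction` twice, `s^(b+b') F F' = (s^b F)(s^b' F')`. (3) By `span_induction` (with
`T^[e]` additive) it suffices that `T^[e] (ε F) ∈ Asp (1 + σ) b` for `ε ∈ E` and `s^a F ∈ sections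
(1 + q σ + r a)`, `q = p^e`; by `S_MonoSpan` it suffices for `ε = t^α`, `α_i < q`. Now
`|α| = ∑ α_i ≤ ν (q - 1)`, so `a + |α| ≤ q b`, and
`s^(q b) t^α F = s^(q b - a - |α|) ∏ (t_i s)^(α_i) (s^a F)` is in
`sections (1 + q σ + r q b) = sections (1 + q (σ + r b))`. `trace_iter_sections`:
`T^[e] (s^(q b) t^α F) = s^b T^[e] (t^α F) ∈ sections (1 + σ + r b)`. So `T^[e] (t^α F)` is one of the
generators of `Asp (1 + σ) b`. -/
def S_Asp : Prop := S_MonoSpan.{u} → PBasis.{u} → TraceMonomial.{u} → TopMem.{u} →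
  ∀ (k K : Type u) [Field k] [Field K] [Algebra k K] [PerfectField k] (p : ℕ) [Fact p.Prime]
  [CharP k p] [Algebra.EssFiniteType k K] (n : ℕ) (Ψ : Ω[K⁄k] [⋀^Fin n]→ₗ[K] K)
  (𝒪 : Set (Subring K)), IsSmoothModel k n 𝒪 → ∀ (T : K → K), IsFrobTrace k Ψ p T →
  ∀ (r ν : ℕ) (t : Fin ν → K) (s : K), s ∈ sections k Ψ 𝒪 r →
  (∀ i, t i * s ∈ sections k Ψ 𝒪 r) →
  (∀ m b b', b ≤ b' → Asp k Ψ 𝒪 t s r m b ≤ Asp k Ψ 𝒪 t s r m b') ∧
  (∀ m m' b b' x y, x ∈ Asp k Ψ 𝒪 t s r m b → y ∈ Asp k Ψ 𝒪 t s r m' b' →
    x * y ∈ Asp k Ψ 𝒪 t s r (m + m') (b + b')) ∧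
  (∀ e σ a b x, x ∈ Asp k Ψ 𝒪 t s r (1 + p ^ e * σ) a → a + ν * (p ^ e - 1) ≤ p ^ e * b →
    T^[e] x ∈ Asp k Ψ 𝒪 t s r (1 + σ) b)

/-! ### Schemes -/

/-- (J4) Finitely many coordinate systems.

Proof. As in `schemeCoord_of`: every point has an affine open neighbourhood `V` with standard smooth
`k → Γ(X, V)` and elements of `Γ(X, V)` which are coordinates at every point of `V` (the elements
chosen in `exists_basis` depend on `V` only and `isCoord_of_basis` applies to every point of `V`). `X` is
quasi-compact (`f` proper), so finitely many `V` cover `X`. -/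
def S_SchemeFinCoord : Prop := ∀ (k : Type u) [Field k] (X : Scheme.{u}) [IsIntegral X] (n : ℕ)
  (f : X ⟶ Spec (.of k)) [SmoothOfRelativeDimension n f] [IsProper f],
  letI := functionFieldAlgebra f
  ∃ (N : ℕ) (Y : Fin N → Fin n → X.functionField), ∀ O ∈ localRings X, ∃ j, IsCoord k O (Y j)

/-- (J5) A rational function has finitely many polar prime divisors, and the valuation rings among the local
rings are discrete valuation rings or the function field.

Proof. Cover `X` by finitely many affine opens `U = Spec A`, `A` a noetherian domain with fraction field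
`K` (`X` is of finite type over `k`, so locally noetherian). A point `x ∈ U` is a prime `P` of `A` and
`localRing X x = A_P`. If `A_P` is a valuation ring then it is noetherian, so a principal ideal domain,
so `P` has height at most one; more directly: `A_P` noetherian valuation ring, maximal ideal
principal `(ϖ)`, and `⋂ (ϖ^n) = 0` (Krull), which gives `arch`. Finiteness: write
`a = c/g`, `c, g ∈ A`, `g ≠ 0`. If `a ∉ A_P` then `g ∈ P`; `P` is minimal over `(g)`: if
`g ∈ P' ⊆ P`, then `P' A_P` is a nonzero prime of the discrete valuation ring `A_P`, so `P' = P`. So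
`P` is one of the finitely many minimal primes over `(g)`
(`Ideal.finite_minimalPrimes_of_isNoetherianRing`), and `V = A_P` is determined by `P`. -/
def S_SchemeFinite : Prop := ∀ (k : Type u) [Field k] (X : Scheme.{u}) [IsIntegral X]
  (f : X ⟶ Spec (.of k)) [IsProper f],
  (∀ a : X.functionField,
    {V : ValuationSubring X.functionField | V.toSubring ∈ localRings X ∧ a ∉ V}.Finite) ∧
  (∀ V : ValuationSubring X.functionField, V.toSubring ∈ localRings X → ∀ y ∈ V, y⁻¹ ∉ V →
    ∀ a : X.functionField, ∃ M : ℕ, y ^ M * a ∈ V)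

/-- (J6) The local rings are determined by their localizations of height one.

Proof. `x ∈ X`, `O` = local ring at `x`, a unique factorization domain
(`Pool.Agent.Lib.RegularUFD.ufd_stalk`, used in `schemeFin_normal`). Suppose `a ∉ O`, `a = b/c` in lowest
terms, `c` is not a unit, `π` a prime element dividing `c`, `π ∤ b`. The localization `O_(π)` is a discrete
valuation ring: every element of `K^×` is `π^n u/v` with `u, v ∈ O` not divisible by `π`. So
`V = {u/v π^n : n ≥ 0} ∪ {0}` is a valuation subring of `K` with `Loc O V`, and `a ∉ V`. It is the local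
ring of `X` at a generization of `x`: let `U = Spec A` be an affine open neighbourhood of `x`, `x = P`,
`O = A_P`, `P' = A ∩ π O`; then `V = O_(π O) = A_(P')` is the local ring at the point `P' ∈ U`. -/
def S_SchemeHartogs : Prop := ∀ (k : Type u) [Field k] (X : Scheme.{u}) [IsIntegral X]
  (f : X ⟶ Spec (.of k)) [IsProper f] [Smooth f], ∀ O ∈ localRings X, ∀ a : X.functionField,
    (∀ V : ValuationSubring X.functionField, V.toSubring ∈ localRings X → Loc O V → a ∈ V) → a ∈ O

/-! ### The linear systems -/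

/-- (F1) Independent quotients.

Proof. `ν ≤ trdeg k (ratioField k V)` and `ν ≥ 1`, so `V` has a nonzero element `s` (otherwise
`ratioField = ⊥` as in `exists_sections`), and `ratioField k V = adjoin k {a/s : a ∈ V}`
(`ratioField_le`). The set `{a/s : a ∈ V}` (as elements of `ratioField k V`, or of `K`) contains a
transcendence basis `B` of `adjoin k {a/s}` over `k` (`exists_isTranscendenceBasis_subset` or so), of
cardinality the transcendence degree, at least `ν`; choose `ν` elements of `B`. -/
def S_Choose : Prop := ∀ (k K : Type u) [Field k] [Field K] [Algebra k K] (ν : ℕ) (V : Set K),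
  1 ≤ ν → (ν : Cardinal.{u}) ≤ Algebra.trdeg k (ratioField k V) →
  ∃ (s : K) (t : Fin ν → K), s ≠ 0 ∧ s ∈ V ∧ (∀ i, t i * s ∈ V) ∧ AlgebraicIndependent k t

/-- (F2) General type gives transcendental quotients.

Proof. `E = k(t)`, `K` is not algebraic over `E`: `K/k` has a transcendence basis with `ν + 1` elements
(`card_transcendenceBasis`). `K` is algebraic over `k(V)`, so some quotient `a/b` of elements of
`V = sections N` is transcendental over `E` (otherwise all quotients are algebraic over `E`, so `ratioField k V` is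
in the algebraic closure of `E` in `K` and `K` is algebraic over it). Then `b ≠ 0`: first claim with
`F₀ = b`, `F₁ = a`. If both `a^r/s^N` and `b^r/s^N` were algebraic over `E` then `(a/b)^r` would be, so
`a/b` (`r ≥ 1`); so one of them is transcendental: second claim. -/
def S_GenType : Prop := SepExists.{u} → ∀ (k K : Type u) [Field k] [Field K] [Algebra k K]
  [PerfectField k] [Algebra.EssFiniteType k K] (ν : ℕ) (x₀ : Fin (ν + 1) → K), IsDiffBasis k x₀ →
  ∀ t : Fin ν → K, AlgebraicIndependent k t → ∀ V : Set K, GenericallyFinite k V →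
  (∃ a ∈ V, ∃ b ∈ V, b ≠ 0 ∧ Transcendental (IntermediateField.adjoin k (Set.range t)) (a / b)) ∧
  ∀ (r N : ℕ) (s : K), 1 ≤ r → s ≠ 0 → ∃ a ∈ V, a ≠ 0 ∧
    Transcendental (IntermediateField.adjoin k (Set.range t)) (a ^ r / s ^ N)

/-- (F3) From a transcendental quotient in `Asp` to generic finiteness.

Proof. `E = k(t)`. Suppose all quotients `F/F'` of elements of `Q = {F | s^b F ∈ sections (m + r b)}`
with `F' ≠ 0` are algebraic over `E`. `φ₀ ≠ 0` is in the `E`-span of `Q`, so some `F ∈ Q` is nonzero, and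
`φ₀/F`, `φ₁/F` are in the span of the quotients, so algebraic over `E`, and `φ₁/φ₀` is: contradiction
(`φ₀ ≠ 0` because `φ₁/φ₀` is transcendental). So there are `F, F' ∈ Q`, `F' ≠ 0`, `F/F'` transcendental
over `E`. The forms `s^b F s`, `s^b F' s`, `s^b F' (t_i s)` are in `sections (m + r b + r)`; their quotients
contain `F/F'` and the `t_i`. So `ratioField` contains `E` and `F/F'`, and `K` is algebraic (finite,
by hypothesis) over `E(F/F')`. -/
def S_GenFin : Prop := ∀ (k K : Type u) [Field k] [Field K] [Algebra k K] (n : ℕ)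
  (Ψ : Ω[K⁄k] [⋀^Fin n]→ₗ[K] K) (𝒪 : Set (Subring K)), IsSmoothModel k n 𝒪 →
  ∀ (r ν : ℕ) (t : Fin ν → K) (s : K), s ≠ 0 → s ∈ sections k Ψ 𝒪 r →
  (∀ i, t i * s ∈ sections k Ψ 𝒪 r) →
  (∀ x : K, Transcendental (IntermediateField.adjoin k (Set.range t)) x →
    FiniteDimensional (IntermediateField.adjoin (IntermediateField.adjoin k (Set.range t)) {x}) K) →
  ∀ (m b : ℕ) (φ₀ φ₁ : K), φ₀ ∈ Asp k Ψ 𝒪 t s r m b → φ₁ ∈ Asp k Ψ 𝒪 t s r m b →
  Transcendental (IntermediateField.adjoin k (Set.range t)) (φ₁ / φ₀) →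
  GenericallyFinite k (sections k Ψ 𝒪 (m + r * b + r))

end Pool.Agent.Lib.MP_8bcb2e_ag.B
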