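import Pool.Agent.Lib.MP_8bcb2e_ag.B.Spec

set_option autoImplicit false

universe u

namespace Pool.Agent.Lib.MP_8bcb2e_ag.B

/-- homogenized polynomials are forms -/
theorem Van_hom {E K ι : Type u} [Field E] [Field K] [Algebra E K] {p : ℕ} (G : Curve E K p ι)
    {μ : ℕ} {f₀ f₁ : K} (h₀ : f₀ ∈ G.W μ) (h₁ : f₁ ∈ G.W μ) (hf : f₀ ≠ 0) (q : Polynomial E) (D : ℕ)
    (hq : q.natDegree ≤ D) : f₀ ^ D * Polynomial.aeval (f₁ / f₀) q ∈ G.W (D * μ) := by
  rw [Polynomial.aeval_eq_sum_range, Finset.mul_sum]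
  refine Submodule.sum_mem _ fun j hj => ?_
  rw [mul_smul_comm]
  refine Submodule.smul_mem _ _ ?_
  rw [Finset.mem_range] at hj
  have hjD : j ≤ D := by omega
  have h1 : f₀ ^ D * (f₁ / f₀) ^ j = f₀ ^ (D - j) * f₁ ^ j := by
    obtain ⟨c, rfl⟩ := Nat.exists_eq_add_of_le hjD
    rw [Nat.add_sub_cancel_left, div_pow, pow_add]
    field_simp
  rw [h1]
  have h2 := G.W_mul (G.W_pow h₀ (D - j)) (G.W_pow h₁ j)
  have h3 : (D - j) * μ + j * μ = D * μ := by rw [← add_mul, Nat.sub_add_cancel hjD]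
  rwa [h3] at h2

theorem t_Van : S_Van.{u} := by
  intro hPO hTr hPR hDec hPP hVD E K ι _ _ _ p G μ f₀ f₁ hf₀ hf₁ hf0 htr Z h hh
  classical
  rcases Z.eq_empty_or_nonempty with rfl | ⟨i₁, hi₁⟩
  · exact ⟨0, fun N _ a => ⟨0, fun i hi => absurd hi (Finset.notMem_empty _),
      fun i _ => G.ge_zero i _⟩⟩
  set f := f₁ / f₀ with hfdef
  have hμ : 1 ≤ μ := by
    by_contra! hcon
    have hμ0 : μ = 0 := by omega
    subst hμ0
    have h1 : ∀ y ∈ G.W 0, IsAlgebraic E y := by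
      intro y hy
      refine G.alg y fun i => ?_
      have := hy i
      change G.Ge i (((0 : ℕ) : ℤ) * G.c i) y at this
      rwa [Nat.cast_zero, zero_mul] at this
    exact htr ((h1 _ hf₁).mul (h1 _ hf₀).inv |> fun h => by rwa [← div_eq_mul_inv] at h)
  obtain ⟨B, hB0, hB⟩ := hPR E K ι G.toPlaces Z f 1
  have hBf : Polynomial.aeval f B ≠ 0 := fun h => htr ⟨B, hB0, h⟩
  set D := B.natDegree with hD
  set x := f + (Polynomial.aeval f B)⁻¹ with hxdef
  have hZx : ∀ i ∈ Z, G.ord i x < 0 := by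
    intro i hi
    rcases lt_or_ge (G.ord i f) 0 with hlt | hge
    · have hf00 : f ≠ 0 := G.ne_zero_of_ord hlt.ne
      have h1 : G.Ge i 0 (Polynomial.aeval f B)⁻¹ := by
        right
        rw [G.ord_inv, (hPO E K ι G.toPlaces i f hlt B hB0).2]
        have : (0 : ℤ) ≤ B.natDegree := by positivity
        nlinarith
      have h2 := G.ord_eq_of_sub (b := x) hf00 (rfl : G.ord i f = G.ord i f)
        (by rw [hxdef, add_sub_cancel_left]; exact G.ge_mono (by omega) h1)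
      rw [h2.2]
      exact hlt
    · have h1 := hB i hi hge
      rw [Nat.cast_one, G.ge_iff hBf] at h1
      have h3 : G.ord i (Polynomial.aeval f B)⁻¹ ≤ -1 := by rw [G.ord_inv]; omega
      have h2 := G.ord_eq_of_sub (b := x) (inv_ne_zero hBf)
        (rfl : G.ord i (Polynomial.aeval f B)⁻¹ = G.ord i (Polynomial.aeval f B)⁻¹)
        (by rw [hxdef, add_sub_cancel_right]; exact G.ge_mono (by omega) (Or.inr hge : G.Ge i 0 f))
      rw [h2.2]
      omega
  have hxtr : Transcendental E x := hTr hPO E K ι G.toPlaces i₁ x (hZx i₁ hi₁).ne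
  have hx0 : x ≠ 0 := G.ne_zero_of_ord (hZx i₁ hi₁).ne
  -- `x` as a quotient of forms
  set y₀ := f₀ ^ (D + 1) * Polynomial.aeval f B with hy₀
  set y₁ := f₀ ^ (D + 1) * Polynomial.aeval f (Polynomial.X * B + 1) with hy₁
  have hy₀W : y₀ ∈ G.W ((D + 1) * μ) := Van_hom G hf₀ hf₁ hf0 B (D + 1) (by omega)
  have hy₁W : y₁ ∈ G.W ((D + 1) * μ) := by
    refine Van_hom G hf₀ hf₁ hf0 _ (D + 1) ?_
    refine (Polynomial.natDegree_add_le _ _).trans (max_le ?_ ?_)
    · refine (Polynomial.natDegree_mul_le).trans ?_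
      rw [Polynomial.natDegree_X]
      omega
    · rw [Polynomial.natDegree_one]
      omega
  have hy₀0 : y₀ ≠ 0 := mul_ne_zero (pow_ne_zero _ hf0) hBf
  have hxy : y₁ = y₀ * x := by
    rw [hy₀, hy₁, hxdef, map_add, map_mul, Polynomial.aeval_X, map_one]
    field_simp
  have hy₁0 : y₁ ≠ 0 := by rw [hxy]; exact mul_ne_zero hy₀0 hx0
  set μ' := (D + 1) * μ with hμ'
  have hμ'1 : 1 ≤ μ' := Nat.one_le_iff_ne_zero.2 (by positivity)
  have hmin : ∀ i, (μ' : ℤ) * G.c i ≤ G.ord i y₀ + min 0 (G.ord i x) := by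
    intro i
    have h1 := (G.ge_iff hy₀0).1 (hy₀W i)
    have h2 := (G.ge_iff hy₁0).1 (hy₁W i)
    rw [hxy, G.ord_mul i _ _ hy₀0 hx0] at h2
    change (μ' : ℤ) * G.c i ≤ _ at h1 h2
    rcases le_or_gt 0 (G.ord i x) with h3 | h3
    · rw [min_eq_left h3]; omega
    · rw [min_eq_right h3.le]; exact h2
  have hbound : ∀ j : ℕ, ∃ Nj : ℕ, ∀ N, Nj ≤ N →
      G.Dec x (fun i => (h i + j * G.c i) + N * min 0 (G.ord i x)) := by
    intro j
    refine hDec hPR hPP hPO E K ι G.toPlaces x hxtr (fun i => h i + j * G.c i) ?_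
    refine (hh.union G.fin_c).subset fun i hi => ?_
    by_contra hcon
    simp only [Set.mem_union, Set.mem_setOf_eq, not_or, not_not] at hcon
    apply hi
    rw [hcon.1, hcon.2]
    simp
  choose Nj hNj using hbound
  refine ⟨μ' * (1 + ∑ j ∈ Finset.range μ', Nj j), fun N hN => ?_⟩
  refine hVD E K ι G.toPlaces x _ ?_ Z hZx
  have hj : N % μ' < μ' := Nat.mod_lt _ hμ'1
  have hN' : Nj (N % μ') ≤ N / μ' := by
    have h1 : Nj (N % μ') ≤ ∑ j ∈ Finset.range μ', Nj j :=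
      Finset.single_le_sum (f := Nj) (fun _ _ => Nat.zero_le _) (Finset.mem_range.2 hj)
    have h2 : 1 + ∑ j ∈ Finset.range μ', Nj j ≤ N / μ' := by
      rw [Nat.le_div_iff_mul_le hμ'1, mul_comm]
      exact hN
    omega
  refine ((hNj _ _ hN').shift (pow_ne_zero (N / μ') hy₀0)).mono fun i => ?_
  rw [G.ord_pow]
  have h4 : (N : ℤ) = (N % μ' : ℕ) + (N / μ' : ℕ) * μ' := by
    have := Nat.mod_add_div' N μ'
    exact_mod_cast this.symm
  have h5 : ((N / μ' : ℕ) : ℤ) * (μ' * G.c i) ≤ (N / μ' : ℕ) * (G.ord i y₀ + min 0 (G.ord i x)) :=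
    mul_le_mul_of_nonneg_left (hmin i) (by positivity)
  have h6 : (N : ℤ) * G.c i = (N % μ' : ℕ) * G.c i + (N / μ' : ℕ) * (μ' * G.c i) := by
    conv_lhs => rw [h4]
    ring
  rw [h6]
  linarith

end Pool.Agent.Lib.MP_8bcb2e_ag.B
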